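import Pool.Agent.H378R2.M1
import Pool.Agent.H378R2.LSBV1
import Pool.Agent.H378R2.LSBV5

/-! Log-weighted sums over primes with a character whose conductor is at most `exp ((log X) ^ (1/40))`. -/

set_option autoImplicit false

open Finset Filter Topology

namespace Pool.Agent.W5h22.DM

open Pool.Agent.H378R2 Pool.Agent.H410R2

theorem tele (p : ℕ → ℂ) (J : ℕ) :
    p 0 = ∑ j ∈ range J, ((j : ℂ) + 1) * (p j - 2 * p (j + 1) + p (j + 2)) + ((J : ℂ) + 1) * p J - J * p (J + 1) := by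
  induction J with
  | zero => simp
  | succ J ih =>
    rw [sum_range_succ]
    push_cast
    linear_combination ih

theorem psiLog_triv (x : ℝ) (hx : 0 < x) (f : ℕ) (χ : DirichletCharacter ℂ f) (B : ℝ) (hB : 0 ≤ B) (hxB : Real.log x ≤ B) :
    ‖psiLog x f χ‖ ≤ x * B ^ 2 := by
  unfold psiLog
  refine (norm_sum_le _ _).trans ?_
  calc _ ≤ ∑ _n ∈ Icc 1 ⌊x⌋₊, B ^ 2 := by
        refine sum_le_sum fun n hn => ?_
        rw [mem_Icc] at hn
        have hn0 : (1 : ℝ) ≤ n := by exact_mod_cast hn.1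
        have hnx : (n : ℝ) ≤ x := (Nat.le_floor_iff hx.le).1 hn.2
        have h1 : ArithmeticFunction.vonMangoldt n ≤ B :=
          ArithmeticFunction.vonMangoldt_le_log.trans ((Real.log_le_log (by linarith) hnx).trans hxB)
        have h2 : 0 ≤ Real.log (x / n) := Real.log_nonneg (by rw [le_div_iff₀ (by linarith)]; linarith)
        have h3 : Real.log (x / n) ≤ B := by
          rw [Real.log_div hx.ne' (by linarith)]
          have := Real.log_nonneg hn0
          linarith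
        have h4 : 0 ≤ ArithmeticFunction.vonMangoldt n := ArithmeticFunction.vonMangoldt_nonneg
        rw [norm_mul, norm_mul, Complex.norm_real, Complex.norm_real, Real.norm_eq_abs, Real.norm_eq_abs,
          abs_of_nonneg h4, abs_of_nonneg h2]
        calc ArithmeticFunction.vonMangoldt n * ‖χ (n : ZMod f)‖ * Real.log (x / n) ≤
            ArithmeticFunction.vonMangoldt n * 1 * Real.log (x / n) := by
              gcongr
              exact χ.norm_le_one _
          _ ≤ B * 1 * B := by gcongr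
          _ = B ^ 2 := by ring
    _ = ⌊x⌋₊ * B ^ 2 := by rw [sum_const, Nat.card_Icc, Nat.add_sub_cancel, nsmul_eq_mul]
    _ ≤ _ := mul_le_mul_of_nonneg_right (Nat.floor_le hx.le) (sq_nonneg B)

theorem psiLog_tele (x : ℝ) (hx : 0 < x) (f : ℕ) (χ : DirichletCharacter ℂ f) (J : ℕ) :
    psiLog x f χ = ∑ j ∈ range J, ((j : ℂ) + 1) * psiPhi χ (x * Real.exp (-((j : ℝ) + 2) / 2)) +
      ((J : ℂ) + 1) * psiLog (x * Real.exp (-(J : ℝ) / 2)) f χ - J * psiLog (x * Real.exp (-((J + 1 : ℕ) : ℝ) / 2)) f χ := by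
  have h := tele (fun j => psiLog (x * Real.exp (-(j : ℝ) / 2)) f χ) J
  simp only [Nat.cast_zero, neg_zero, zero_div, Real.exp_zero, mul_one] at h
  rw [h]
  congr 2
  refine sum_congr rfl fun j _ => ?_
  congr 1
  rw [LSBV.psiPhi_eq _ (by positivity)]
  have e1 : Real.exp (1 / 2) * (x * Real.exp (-((j : ℝ) + 2) / 2)) = x * Real.exp (-((j + 1 : ℕ) : ℝ) / 2) := by
    rw [mul_left_comm, ← Real.exp_add]
    congr 2
    push_cast
    ring
  have e2 : Real.exp 1 * (x * Real.exp (-((j : ℝ) + 2) / 2)) = x * Real.exp (-(j : ℝ) / 2) := by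
    rw [mul_left_comm, ← Real.exp_add]
    congr 2
    ring
  have e3 : x * Real.exp (-((j : ℝ) + 2) / 2) = x * Real.exp (-((j + 2 : ℕ) : ℝ) / 2) := by
    push_cast
    ring_nf
  rw [e1, e2, e3]
  ring

theorem ev_num (d C : ℝ) (hd : 0 < d) (hC : 0 ≤ C) : ∀ᶠ l : ℝ in atTop,
    768 * l ^ 80 * (l ^ 18 / d * Real.exp (-(d * l ^ 22 / 3)) + l ^ 18 / d * Real.exp (-l) + 4 * C * l ^ 80 * Real.exp (-(l / 2))) +
      (2 * l ^ 40 + 5) * (12 * Real.exp (l ^ 40 / 2) * (l ^ 40 + 3) ^ 2) / Real.exp (l ^ 40) ≤ Real.exp (-(l / 4)) := by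
  have h1 : ∀ᶠ l : ℝ in atTop, (1536 * (2 / d + 4 * C) + 2688) * l ^ 160 ≤ Real.exp (l / 4) := by
    have h2 := (isLittleO_pow_exp_pos_mul_atTop 160 (show (0 : ℝ) < 1 / 4 by norm_num)).bound
      (show (0 : ℝ) < 1 / (1536 * (2 / d + 4 * C) + 2688) by positivity)
    filter_upwards [h2, eventually_ge_atTop (0 : ℝ)] with l h3 h4
    rw [Real.norm_of_nonneg (by positivity), Real.norm_of_nonneg (Real.exp_pos _).le, div_mul_eq_mul_div, one_mul,
      le_div_iff₀ (by positivity)] at h3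
    have e : l / 4 = 1 / 4 * l := by ring
    rw [e]
    linarith
  filter_upwards [h1, eventually_ge_atTop (1 : ℝ), eventually_ge_atTop (3 / d)] with l h2 h3 h4
  have h5 : l ≤ d * l ^ 22 / 3 := by
    rw [div_le_iff₀ hd] at h4
    have h6 : 1 ≤ l ^ 20 := one_le_pow₀ h3
    have h7 : l * 3 ≤ l * (l * d) := mul_le_mul_of_nonneg_left h4 (by linarith)
    have h8 : l * (l * d) ≤ l * (l * d) * l ^ 20 := le_mul_of_one_le_right (by positivity) h6
    have h9 : l * (l * d) * l ^ 20 = d * l ^ 22 := by ring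
    linarith
  have h6 : Real.exp (-(d * l ^ 22 / 3)) ≤ Real.exp (-(l / 2)) := Real.exp_le_exp.2 (by linarith)
  have h7 : Real.exp (-l) ≤ Real.exp (-(l / 2)) := Real.exp_le_exp.2 (by linarith)
  have h8 : l ^ 18 ≤ l ^ 80 := pow_le_pow_right₀ h3 (by norm_num)
  have h9 : l ^ 18 / d ≤ l ^ 80 / d := by gcongr
  have e1 : l ^ 18 / d * Real.exp (-(d * l ^ 22 / 3)) + l ^ 18 / d * Real.exp (-l) + 4 * C * l ^ 80 * Real.exp (-(l / 2)) ≤
      (2 / d + 4 * C) * l ^ 80 * Real.exp (-(l / 2)) := by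
    calc _ ≤ l ^ 80 / d * Real.exp (-(l / 2)) + l ^ 80 / d * Real.exp (-(l / 2)) + 4 * C * l ^ 80 * Real.exp (-(l / 2)) := by
          gcongr
      _ = _ := by ring
  have e2 : (2 * l ^ 40 + 5) * (12 * Real.exp (l ^ 40 / 2) * (l ^ 40 + 3) ^ 2) / Real.exp (l ^ 40) ≤
      1344 * l ^ 160 * Real.exp (-(l / 2)) := by
    have h10 : (1 : ℝ) ≤ l ^ 40 := one_le_pow₀ h3
    have h11 : l ≤ l ^ 40 := le_self_pow₀ h3 (by norm_num)
    have h12 : Real.exp (l ^ 40 / 2) / Real.exp (l ^ 40) ≤ Real.exp (-(l / 2)) := by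
      rw [← Real.exp_sub]
      exact Real.exp_le_exp.2 (by linarith)
    have h13 : l ^ 120 ≤ l ^ 160 := pow_le_pow_right₀ h3 (by norm_num)
    have h14 : (2 * l ^ 40 + 5) * (12 * (l ^ 40 + 3) ^ 2) ≤ 1344 * l ^ 120 := by
      have q1 : 2 * l ^ 40 + 5 ≤ 7 * l ^ 40 := by linarith
      have q2 : (l ^ 40 + 3) ^ 2 ≤ (4 * l ^ 40) ^ 2 := pow_le_pow_left₀ (by positivity) (by linarith) 2
      calc (2 * l ^ 40 + 5) * (12 * (l ^ 40 + 3) ^ 2) ≤ (7 * l ^ 40) * (12 * (4 * l ^ 40) ^ 2) := by gcongr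
        _ = 1344 * l ^ 120 := by ring
    calc _ = ((2 * l ^ 40 + 5) * (12 * (l ^ 40 + 3) ^ 2)) * (Real.exp (l ^ 40 / 2) / Real.exp (l ^ 40)) := by ring
      _ ≤ (1344 * l ^ 160) * Real.exp (-(l / 2)) := by
          apply mul_le_mul (h14.trans (by linarith)) h12 (by positivity) (by positivity)
  have e3 : Real.exp (-(l / 2)) * Real.exp (l / 4) = Real.exp (-(l / 4)) := by
    rw [← Real.exp_add]; congr 1; ring
  calc _ ≤ 768 * l ^ 80 * ((2 / d + 4 * C) * l ^ 80 * Real.exp (-(l / 2))) + 1344 * l ^ 160 * Real.exp (-(l / 2)) := by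
        apply add_le_add _ e2
        apply mul_le_mul_of_nonneg_left e1 (by positivity)
    _ = Real.exp (-(l / 2)) * (1 / 2 * ((1536 * (2 / d + 4 * C) + 2688) * l ^ 160)) := by ring
    _ ≤ Real.exp (-(l / 2)) * Real.exp (l / 4) := by
        apply mul_le_mul_of_nonneg_left _ (Real.exp_pos _).le
        have : 0 ≤ (1536 * (2 / d + 4 * C) + 2688) * l ^ 160 := by positivity
        linarith
    _ = _ := e3

theorem psiLog_small : ∀ᶠ X : ℝ in atTop, ∃ fs : ℕ, ∀ f : ℕ, 1 < f → Real.log f ≤ (Real.log X) ^ (1 / 40 : ℝ) →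
    f ≠ fs → ∀ χ : DirichletCharacter ℂ f, χ.IsPrimitive → ∀ x : ℝ, X / 3 ≤ x → x ≤ 12 * X →
      ‖psiLog x f χ‖ ≤ X * Real.exp (-((Real.log X) ^ (1 / 40 : ℝ) / 4)) := by
  obtain ⟨d, hd0, hd2, hnzr⟩ := M1.nzr_exc
  obtain ⟨l0, hl0⟩ := hnzr 0
  obtain ⟨C, hC1, hC⟩ := M1.vM_sum_bound
  have hl : Tendsto (fun X : ℝ => (Real.log X) ^ (1 / 40 : ℝ)) atTop atTop :=
    (tendsto_rpow_atTop (by norm_num)).comp Real.tendsto_log_atTop
  filter_upwards [hl.eventually (ev_num d C hd0 (by linarith)), hl.eventually_ge_atTop l0, hl.eventually_ge_atTop 6,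
    hl.eventually_ge_atTop (1 / d), Real.tendsto_log_atTop.eventually_ge_atTop (100 : ℝ), eventually_ge_atTop (1 : ℝ)] with X hnum h1 h2 h3 h4 h5
  set L := Real.log X with hL
  set l := L ^ (1 / 40 : ℝ) with hldef
  have hX0 : 0 < X := by linarith
  have hL0 : 0 < L := by linarith
  have hlL : l ^ 40 = L := by
    rw [hldef, ← Real.rpow_natCast, ← Real.rpow_mul hL0.le]; norm_num
  have hexpL : Real.exp L = X := Real.exp_log hX0
  have hl0' : 0 < l := by linarith
  obtain ⟨fs, _, hmain⟩ := hl0 l h1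
  refine ⟨fs, ?_⟩
  intro f hf1 hfl hffs χ hχ x hx1 hx2
  have : NeZero f := ⟨by omega⟩
  have hx0 : 0 < x := by linarith
  have hχ1 : χ ≠ 1 := M1.primitive_ne_one hf1 hχ
  set δ : ℝ := d / l ^ 18 with hδ
  set M : ℝ := l ^ 18 / d with hM
  set T : ℝ := Real.exp (l / 2) with hT
  have hl18 : (1 : ℝ) ≤ l ^ 18 := one_le_pow₀ (by linarith)
  have hδ0 : 0 < δ := by positivity
  have hM0 : 0 ≤ M := by positivity
  have hδ4 : δ ≤ 1 / 4 := by
    rw [hδ, div_le_iff₀ (by positivity)]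
    have : (6 : ℝ) ^ 18 ≤ l ^ 18 := pow_le_pow_left₀ (by norm_num) h2 18
    norm_num at this
    linarith
  set c : ℝ := 1 + 1 / (2 * L) with hc
  have hc1 : 1 < c := by rw [hc]; have : 0 < 1 / (2 * L) := by positivity
                         linarith
  have hc2 : c ≤ 2 := by
    rw [hc]
    have : 1 / (2 * L) ≤ 1 := by rw [div_le_one (by positivity)]; linarith
    linarith
  have hcδ : c ≤ 1 + δ := by
    rw [hc]
    have e1 : 1 / (2 * L) ≤ δ := by
      rw [hδ, div_le_div_iff₀ (by positivity) (by positivity), ← hlL]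
      rw [div_le_iff₀ hd0] at h3
      have e2 : (1 : ℝ) ≤ l ^ 21 := one_le_pow₀ (by linarith)
      have e3 : 1 * l ^ 18 ≤ (l * d) * l ^ 18 := mul_le_mul_of_nonneg_right h3 (by positivity)
      have e4 : (l * d) * l ^ 18 ≤ (l * d) * l ^ 18 * l ^ 21 := le_mul_of_one_le_right (by positivity) e2
      have e5 : (l * d) * l ^ 18 * l ^ 21 = d * l ^ 40 := by ring
      have e6 : 0 ≤ d * l ^ 40 := by positivity
      linarith
    linarith
  have hA : ∑' n : ℕ, ArithmeticFunction.vonMangoldt n * (n : ℝ) ^ (-c) ≤ 4 * C * l ^ 80 := by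
    refine (hC c hc1 hc2).trans (le_of_eq ?_)
    have e1 : c - 1 = 1 / (2 * L) := by rw [hc]; ring
    have e2 : l ^ 80 = L ^ 2 := by rw [← hlL]; ring
    rw [e1, e2]
    field_simp
    norm_num
  have hT3 : 2 * T + 3 ≤ Real.exp l := by
    have e1 : Real.exp l = T * T := by rw [hT, ← Real.exp_add]; congr 1; ring
    have e2 : 3 ≤ T := by
      rw [hT]
      have := Real.add_one_le_exp (l / 2)
      linarith
    rw [e1]
    nlinarith
  have hlog12 : Real.log 12 ≤ 3 := by
    rw [Real.log_le_iff_le_exp (by norm_num)]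
    have e1 := Real.exp_one_gt_d9
    have e2 : Real.exp 3 = Real.exp 1 ^ 3 := by rw [← Real.exp_nat_mul]; norm_num
    rw [e2]
    have e3 : (2.7 : ℝ) ^ 3 ≤ Real.exp 1 ^ 3 := pow_le_pow_left₀ (by norm_num) (by linarith) 3
    norm_num at e3
    linarith
  have hlogx : Real.log x ≤ L + 3 := by
    calc Real.log x ≤ Real.log (12 * X) := Real.log_le_log hx0 hx2
      _ = Real.log 12 + L := Real.log_mul (by norm_num) hX0.ne'
      _ ≤ _ := by linarith
  have hlogx3 : L - 2 ≤ Real.log x := by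
    calc L - 2 ≤ L - Real.log 3 := by
          have : Real.log 3 ≤ 2 := by
            rw [Real.log_le_iff_le_exp (by norm_num)]
            have := Real.add_one_le_exp 2
            linarith
          linarith
      _ = Real.log (X / 3) := (Real.log_div hX0.ne' (by norm_num)).symm
      _ ≤ _ := Real.log_le_log (by positivity) hx1
  -- one term
  set J : ℕ := ⌈L⌉₊ with hJ
  have hJ1 : L ≤ J := Nat.le_ceil L
  have hJ2 : (J : ℝ) < L + 1 := Nat.ceil_lt_add_one hL0.le
  set e0 : ℝ := M * Real.exp (-(d * l ^ 22 / 3)) + M * Real.exp (-l) + 4 * C * l ^ 80 * Real.exp (-(l / 2)) with he0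
  have he00 : 0 ≤ e0 := by positivity
  have hterm : ∀ j ∈ range J, ‖((j : ℂ) + 1) * psiPhi χ (x * Real.exp (-((j : ℝ) + 2) / 2))‖ ≤ (J : ℝ) * (16 * (12 * X) * e0) := by
    intro j hj
    rw [mem_range] at hj
    have hjJ : (j : ℝ) + 1 ≤ J := by exact_mod_cast hj
    set y := x * Real.exp (-((j : ℝ) + 2) / 2) with hy
    have hy0 : 0 < y := by positivity
    have hy12 : y ≤ 12 * X := by
      calc y ≤ x * 1 := by
            apply mul_le_mul_of_nonneg_left _ hx0.le
            rw [Real.exp_le_one_iff]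
            have : (0 : ℝ) ≤ j := Nat.cast_nonneg j
            linarith
        _ ≤ _ := by linarith
    have hlogy : L / 3 ≤ Real.log y := by
      rw [hy, Real.log_mul hx0.ne' (Real.exp_ne_zero _), Real.log_exp]
      linarith
    have hlogy2 : Real.log y ≤ L + 3 := by
      calc Real.log y ≤ Real.log (12 * X) := Real.log_le_log hy0 hy12
        _ = Real.log 12 + L := Real.log_mul (by norm_num) hX0.ne'
        _ ≤ _ := by linarith
    have hy1 : 1 ≤ y := by
      have : 0 ≤ Real.log y := by linarith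
      by_contra hcon
      push Not at hcon
      have := Real.log_neg hy0 hcon
      linarith
    have hyc : y ^ c ≤ 3 * y := by
      rw [hc, Real.rpow_add hy0, Real.rpow_one, mul_comm]
      apply mul_le_mul_of_nonneg_right _ hy0.le
      rw [Real.rpow_def_of_pos hy0]
      have e1 : Real.log y * (1 / (2 * L)) ≤ 1 := by
        rw [mul_one_div, div_le_one (by positivity)]
        linarith
      have := Real.exp_one_lt_d9
      exact (Real.exp_le_exp.2 e1).trans (by linarith)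
    have hcont := M1.contour χ hχ1 hy1 hc1 hδ0 hδ4 hcδ hyc (by
      have := Real.one_le_exp (show (0 : ℝ) ≤ l / 2 by linarith)
      exact this : (1 : ℝ) ≤ T) hM0 hA (by
      intro s h1 h2
      refine hmain f hf1 hfl hffs χ hχ s h1 ?_
      rw [Real.log_le_iff_le_exp (by positivity)]
      linarith)
    have hyδ : y ^ (1 - δ) ≤ y * Real.exp (-(d * l ^ 22 / 3)) := by
      rw [sub_eq_add_neg, Real.rpow_add hy0, Real.rpow_one]
      apply mul_le_mul_of_nonneg_left _ hy0.le
      rw [Real.rpow_def_of_pos hy0]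
      apply Real.exp_le_exp.2
      have e1 : d * l ^ 22 / 3 = L / 3 * δ := by
        rw [hδ, ← hlL]; field_simp
      rw [e1]
      have := mul_le_mul_of_nonneg_right hlogy hδ0.le
      linarith
    have hTT : 1 / T ^ 2 = Real.exp (-l) := by
      rw [hT, ← Real.exp_nat_mul, Real.exp_neg, one_div]
      congr 2; push_cast; ring
    have hT1 : 1 / T = Real.exp (-(l / 2)) := by rw [hT, Real.exp_neg, one_div]
    have e2 : ‖psiPhi χ y‖ ≤ 16 * (12 * X) * e0 := by
      refine hcont.trans ?_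
      calc 16 * (y ^ (1 - δ) * M + y * M / T ^ 2 + y * (4 * C * l ^ 80) / T) ≤
          16 * (y * Real.exp (-(d * l ^ 22 / 3)) * M + y * M * Real.exp (-l) + y * (4 * C * l ^ 80) * Real.exp (-(l / 2))) := by
            rw [div_eq_mul_one_div (y * M), hTT, div_eq_mul_one_div (y * (4 * C * l ^ 80)), hT1]
            gcongr
        _ = 16 * y * e0 := by rw [he0]; ring
        _ ≤ 16 * (12 * X) * e0 := by gcongr
    rw [norm_mul]
    have e3 : ‖(j : ℂ) + 1‖ ≤ J := by
      refine (norm_add_le _ _).trans ?_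
      rw [Complex.norm_natCast, norm_one]
      exact hjJ
    exact mul_le_mul e3 e2 (norm_nonneg _) (Nat.cast_nonneg _)
  have hb : ∀ k : ℕ, J ≤ k → ‖psiLog (x * Real.exp (-(k : ℝ) / 2)) f χ‖ ≤ 12 * Real.exp (L / 2) * (L + 3) ^ 2 := by
    intro k hk
    have hk' : (J : ℝ) ≤ k := by exact_mod_cast hk
    have e1 : x * Real.exp (-(k : ℝ) / 2) ≤ 12 * Real.exp (L / 2) := by
      calc x * Real.exp (-(k : ℝ) / 2) ≤ (12 * X) * Real.exp (-L / 2) := by
            apply mul_le_mul hx2 (Real.exp_le_exp.2 (by linarith)) (Real.exp_pos _).le (by positivity)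
        _ = 12 * Real.exp (L / 2) := by
            rw [← hexpL, mul_assoc, ← Real.exp_add]
            congr 2
            ring
    refine (psiLog_triv _ (by positivity) f χ (L + 3) (by linarith) ?_).trans
      (mul_le_mul_of_nonneg_right e1 (by positivity))
    rw [Real.log_mul hx0.ne' (Real.exp_ne_zero _), Real.log_exp]
    have : (0 : ℝ) ≤ k := Nat.cast_nonneg k
    linarith
  rw [psiLog_tele x hx0 f χ J]
  have t1 : ‖∑ j ∈ range J, ((j : ℂ) + 1) * psiPhi χ (x * Real.exp (-((j : ℝ) + 2) / 2))‖ ≤ 768 * l ^ 80 * e0 * X := by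
    refine (norm_sum_le _ _).trans ((sum_le_sum hterm).trans ?_)
    rw [sum_const, card_range, nsmul_eq_mul]
    have e1 : (J : ℝ) * J ≤ (2 * L) * (2 * L) := mul_le_mul (by linarith) (by linarith) (Nat.cast_nonneg _) (by linarith)
    have e2 : l ^ 80 = L ^ 2 := by rw [← hlL]; ring
    rw [e2]
    calc (J : ℝ) * ((J : ℝ) * (16 * (12 * X) * e0)) = (J * J) * (16 * (12 * X) * e0) := by ring
      _ ≤ ((2 * L) * (2 * L)) * (16 * (12 * X) * e0) := mul_le_mul_of_nonneg_right e1 (by positivity)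
      _ = _ := by ring
  have t2 : ‖((J : ℂ) + 1) * psiLog (x * Real.exp (-(J : ℝ) / 2)) f χ‖ ≤ (L + 2) * (12 * Real.exp (L / 2) * (L + 3) ^ 2) := by
    rw [norm_mul]
    apply mul_le_mul _ (hb J le_rfl) (norm_nonneg _) (by linarith)
    refine (norm_add_le _ _).trans ?_
    rw [Complex.norm_natCast, norm_one]
    linarith
  have t3 : ‖(J : ℂ) * psiLog (x * Real.exp (-((J + 1 : ℕ) : ℝ) / 2)) f χ‖ ≤ (L + 1) * (12 * Real.exp (L / 2) * (L + 3) ^ 2) := by
    rw [norm_mul]
    apply mul_le_mul _ (hb (J + 1) (Nat.le_succ J)) (norm_nonneg _) (by linarith)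
    rw [Complex.norm_natCast]
    linarith
  have hfin : 768 * l ^ 80 * e0 * X + (L + 2) * (12 * Real.exp (L / 2) * (L + 3) ^ 2) + (L + 1) * (12 * Real.exp (L / 2) * (L + 3) ^ 2) ≤
      X * Real.exp (-(l / 4)) := by
    rw [hlL, hexpL] at hnum
    have e1 : (2 * L + 5) * (12 * Real.exp (L / 2) * (L + 3) ^ 2) / X * X = (2 * L + 5) * (12 * Real.exp (L / 2) * (L + 3) ^ 2) := by
      field_simp
    have e2 := mul_le_mul_of_nonneg_right hnum hX0.le
    rw [add_mul, e1] at e2
    have e3 : 0 ≤ 12 * Real.exp (L / 2) * (L + 3) ^ 2 := by positivity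
    linarith
  refine ((norm_sub_le _ _).trans (add_le_add ((norm_add_le _ _).trans (add_le_add t1 t2)) t3)).trans hfin

end Pool.Agent.W5h22.DM
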