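import Pool.Agent.W5h22.DM.A
import Pool.Agent.H343R2.EH.Unsmooth
import Pool.Agent.Helper601.PNT
import Pool.Agent.H378R2.M7m

/-! Primes in residue classes to all squarefree moduli up to `exp ((log X) ^ (1/50))`, with one exceptional prime. -/

set_option autoImplicit false

open Finset Filter Topology

namespace Pool.Agent.W5h22.DM

open Pool.Agent.H378R2 Pool.Agent.H410R2 Pool.Agent.H398R2.BV H343E

theorem ev_a (ε : ℝ) (hε : 0 < ε) : ∀ᶠ X : ℝ in atTop,
    Real.exp (2 * (Real.log X) ^ (1 / 50 : ℝ)) * Real.exp (-((Real.log X) ^ (1 / 40 : ℝ) / 4)) ≤ ε ∧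
    2 * Real.exp (2 * (Real.log X) ^ (1 / 50 : ℝ)) * (Real.log X + 3) ^ 2 ≤ ε * X ∧
    Real.exp ((Real.log X) ^ (1 / 50 : ℝ)) * (4 * Real.sqrt X * (Real.log X + 3)) ≤ ε * X ∧
    (Real.log X) ^ (1 / 50 : ℝ) ≤ (Real.log X) ^ (1 / 40 : ℝ) := by
  have h1 : Tendsto (fun L : ℝ => L ^ (1 / 200 : ℝ)) atTop atTop := tendsto_rpow_atTop (by norm_num)
  have h2 : Tendsto (fun L : ℝ => L ^ (1 / 50 : ℝ)) atTop atTop := tendsto_rpow_atTop (by norm_num)
  have h3 : Tendsto (fun L : ℝ => L ^ (49 / 50 : ℝ)) atTop atTop := tendsto_rpow_atTop (by norm_num)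
  have h4 := (isLittleO_pow_exp_pos_mul_atTop 2 (show (0 : ℝ) < 1 / 4 by norm_num)).bound
      (show (0 : ℝ) < ε / 32 by positivity)
  filter_upwards [Real.tendsto_log_atTop.eventually (h1.eventually_ge_atTop 12),
    Real.tendsto_log_atTop.eventually (h2.eventually_ge_atTop (-Real.log ε)),
    Real.tendsto_log_atTop.eventually (h3.eventually_ge_atTop 16), Real.tendsto_log_atTop.eventually h4,
    Real.tendsto_log_atTop.eventually_ge_atTop (3 : ℝ), eventually_gt_atTop (0 : ℝ)] with X g1 g2 g3 g4 g5 g6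
  set L := Real.log X with hL
  have hL0 : 0 < L := by linarith
  have hX : X = Real.exp L := (Real.exp_log g6).symm
  have e1 : L ^ (1 / 40 : ℝ) = L ^ (1 / 200 : ℝ) * L ^ (1 / 50 : ℝ) := by
    rw [← Real.rpow_add hL0]; norm_num
  have e2 : L = L ^ (49 / 50 : ℝ) * L ^ (1 / 50 : ℝ) := by
    rw [← Real.rpow_add hL0]; norm_num
  have hp : 0 < L ^ (1 / 50 : ℝ) := Real.rpow_pos_of_pos hL0 _
  rw [Real.norm_of_nonneg (by positivity), Real.norm_of_nonneg (Real.exp_pos _).le] at g4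
  have hL16 : 16 * L ^ (1 / 50 : ℝ) ≤ L := by
    conv_rhs => rw [e2]
    exact mul_le_mul_of_nonneg_right g3 hp.le
  have hsq : (L + 3) ^ 2 ≤ 4 * L ^ 2 := by
    have : (L + 3) ^ 2 ≤ (2 * L) ^ 2 := pow_le_pow_left₀ (by linarith) (by linarith) 2
    linarith
  have hlin : L + 3 ≤ 4 * L ^ 2 := by nlinarith
  refine ⟨?_, ?_, ?_, ?_⟩
  · rw [← Real.exp_add, ← Real.exp_log hε]
    apply Real.exp_le_exp.2
    have : L ^ (1 / 40 : ℝ) / 4 ≥ 3 * L ^ (1 / 50 : ℝ) := by
      rw [e1]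
      have := mul_le_mul_of_nonneg_right g1 hp.le
      linarith
    linarith
  · have e3 : Real.exp (2 * L ^ (1 / 50 : ℝ)) ≤ Real.exp (1 / 4 * L) := Real.exp_le_exp.2 (by linarith)
    calc 2 * Real.exp (2 * L ^ (1 / 50 : ℝ)) * (L + 3) ^ 2 ≤ 2 * Real.exp (1 / 4 * L) * (4 * (ε / 32 * Real.exp (1 / 4 * L))) := by
          gcongr
          exact hsq.trans (by linarith)
      _ = ε / 4 * Real.exp (1 / 2 * L) := by
          rw [show (1 / 2 : ℝ) * L = 1 / 4 * L + 1 / 4 * L by ring, Real.exp_add]; ring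
      _ ≤ ε * Real.exp L := by
          have q1 : Real.exp (1 / 2 * L) ≤ Real.exp L := Real.exp_le_exp.2 (by linarith)
          have q2 := Real.exp_pos L
          nlinarith
      _ = _ := by rw [← hX]
  · have e3 : Real.exp (L ^ (1 / 50 : ℝ)) ≤ Real.exp (1 / 4 * L) := Real.exp_le_exp.2 (by linarith)
    have e4 : Real.sqrt X = Real.exp (1 / 2 * L) := by
      rw [hX, Real.sqrt_eq_rpow, ← Real.exp_mul]; congr 1; ring
    rw [e4]
    calc Real.exp (L ^ (1 / 50 : ℝ)) * (4 * Real.exp (1 / 2 * L) * (L + 3)) ≤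
        Real.exp (1 / 4 * L) * (4 * Real.exp (1 / 2 * L) * (4 * (ε / 32 * Real.exp (1 / 4 * L)))) := by
          gcongr
          linarith
      _ = ε / 2 * Real.exp L := by
          rw [show Real.exp L = Real.exp (1 / 4 * L) * Real.exp (1 / 2 * L) * Real.exp (1 / 4 * L) by
            rw [← Real.exp_add, ← Real.exp_add]; congr 1; ring]
          ring
      _ ≤ ε * X := by rw [← hX]; nlinarith
  · rw [e1]
    nlinarith

theorem log_AP (ε : ℝ) (hε : 0 < ε) : ∀ᶠ X : ℝ in atTop, ∃ ps : ℕ, (ps = 1 ∨ ps.Prime) ∧ ∀ Q : ℕ, Squarefree Q →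
    Real.log Q ≤ (Real.log X) ^ (1 / 50 : ℝ) → Q.Coprime ps → ∀ b : ℕ, b.Coprime Q → ∀ y : ℝ, X / 3 ≤ y → y ≤ 12 * X →
      |psiLogAP y Q b - psiLog1 y / (Nat.totient Q : ℝ)| ≤ ε * X / Nat.totient Q := by
  filter_upwards [psiLog_small, ev_a (ε / 2) (by positivity), eventually_ge_atTop (3 : ℝ),
    Real.tendsto_log_atTop.eventually_ge_atTop (3 : ℝ)] with X h1 h2 h3 h4
  obtain ⟨fs, hfs⟩ := h1
  obtain ⟨g1, g2, _, g4⟩ := h2
  set L := Real.log X with hL
  -- the exceptional prime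
  obtain ⟨ps, hps, hps2⟩ := LSBV.exists_ps 0 (if fs ≤ 1 then 0 else fs) (by
    split_ifs with h
    · exact Or.inl rfl
    · right
      rw [primorial_zero]
      omega)
  refine ⟨ps, ?_, ?_⟩
  · rcases hps with h | h
    · exact Or.inl h
    · exact Or.inr h.1
  intro Q hQ hQL hQps b hb y hy1 hy2
  have hQ0 : Q ≠ 0 := hQ.ne_zero
  have hQ1 : 1 ≤ Q := Nat.one_le_iff_ne_zero.2 hQ0
  have hQr : (1 : ℝ) ≤ Q := by exact_mod_cast hQ1
  have hX0 : 0 < X := by linarith
  have hφ : (0 : ℝ) < Nat.totient Q := by exact_mod_cast Nat.totient_pos.2 hQ1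
  have hφQ : (Nat.totient Q : ℝ) ≤ Q := by exact_mod_cast Nat.totient_le Q
  have hy0 : 0 < y := by linarith
  have hQe : (Q : ℝ) ≤ Real.exp (L ^ (1 / 50 : ℝ)) := by
    rw [← Real.log_le_iff_le_exp (by linarith)]
    exact hQL
  have hQ2 : (Q : ℝ) * Q ≤ Real.exp (2 * L ^ (1 / 50 : ℝ)) := by
    calc (Q : ℝ) * Q ≤ Real.exp (L ^ (1 / 50 : ℝ)) * Real.exp (L ^ (1 / 50 : ℝ)) :=
          mul_le_mul hQe hQe (by linarith) (Real.exp_pos _).le
      _ = _ := by rw [← Real.exp_add]; congr 1; ring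
  refine (disc_le y (by linarith) Q b hQ1 hb).trans ?_
  have hsum : ∑ f ∈ Q.divisors.filter (fun f => f ≠ 1), ∑ ψ ∈ Prim f, ‖psiLog y f ψ‖ ≤
      (Q : ℝ) * Q * (X * Real.exp (-(L ^ (1 / 40 : ℝ) / 4))) := by
    have e1 : ∀ f ∈ Q.divisors.filter (fun f => f ≠ 1), ∑ ψ ∈ Prim f, ‖psiLog y f ψ‖ ≤
        (Q : ℝ) * (X * Real.exp (-(L ^ (1 / 40 : ℝ) / 4))) := by
      intro f hf
      rw [mem_filter, Nat.mem_divisors] at hf
      obtain ⟨⟨hfQ, _⟩, hf1⟩ := hf
      have hf0 : 0 < f := Nat.pos_of_dvd_of_pos hfQ hQ1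
      have hfsq : Squarefree f := hQ.squarefree_of_dvd hfQ
      have hfcop : f.Coprime ps := Nat.Coprime.coprime_dvd_left hfQ hQps
      have hfle : f ≤ Q := Nat.le_of_dvd hQ1 hfQ
      have hne : f ≠ fs := by
        have h5 := hps2 f (by omega) hfsq hfcop
        split_ifs at h5 with h6
        · omega
        · exact h5
      have hfl : Real.log f ≤ L ^ (1 / 40 : ℝ) := by
        refine le_trans (Real.log_le_log (by exact_mod_cast hf0) (by exact_mod_cast hfle)) (hQL.trans g4)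
      calc ∑ ψ ∈ Prim f, ‖psiLog y f ψ‖ ≤ ∑ ψ ∈ Prim f, X * Real.exp (-(L ^ (1 / 40 : ℝ) / 4)) := by
            refine sum_le_sum fun ψ hψ => ?_
            have hψ' : ψ.IsPrimitive := by
              classical
              unfold Prim at hψ
              exact (mem_filter.1 hψ).2
            exact hfs f (by omega) hfl hne ψ hψ' y hy1 hy2
        _ = ((Prim f).card : ℝ) * (X * Real.exp (-(L ^ (1 / 40 : ℝ) / 4))) := by rw [sum_const, nsmul_eq_mul]
        _ ≤ _ := by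
            apply mul_le_mul_of_nonneg_right _ (by positivity)
            refine (card_prim_le hf0).trans ?_
            exact_mod_cast (Nat.totient_le f).trans hfle
    refine (sum_le_sum e1).trans ?_
    rw [sum_const, nsmul_eq_mul, mul_assoc]
    apply mul_le_mul_of_nonneg_right _ (by positivity)
    have : (Q.divisors.filter (fun f => f ≠ 1)).card ≤ Q := (card_filter_le _ _).trans (Nat.card_divisors_le_self Q)
    exact_mod_cast this
  have hω : (Q.primeFactors.card : ℝ) ≤ Q := by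
    have : Q.primeFactors.card ≤ Q.divisors.card := card_le_card fun p hp => by
      rw [Nat.mem_divisors]
      exact ⟨Nat.dvd_of_mem_primeFactors hp, hQ0⟩
    exact_mod_cast this.trans (Nat.card_divisors_le_self Q)
  have hlogy : Real.log y ≤ L + 3 := by
    have hlog12 : Real.log 12 ≤ 3 := by
      rw [Real.log_le_iff_le_exp (by norm_num)]
      have e1 := Real.exp_one_gt_d9
      have e2 : Real.exp 3 = Real.exp 1 ^ 3 := by rw [← Real.exp_nat_mul]; norm_num
      rw [e2]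
      have e3 : (2.7 : ℝ) ^ 3 ≤ Real.exp 1 ^ 3 := pow_le_pow_left₀ (by norm_num) (by linarith) 3
      norm_num at e3
      linarith
    calc Real.log y ≤ Real.log (12 * X) := Real.log_le_log hy0 hy2
      _ = Real.log 12 + L := Real.log_mul (by norm_num) hX0.ne'
      _ ≤ _ := by linarith
  have hlogy0 : 0 ≤ Real.log y := Real.log_nonneg (by linarith)
  rw [mul_comm (1 / (Nat.totient Q : ℝ)), mul_one_div]
  have e5 : 2 * ((Q.primeFactors.card : ℝ) * Real.log y ^ 2) ≤ (ε / 2 * X) / Nat.totient Q := by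
    rw [le_div_iff₀ hφ]
    refine le_trans ?_ g2
    calc 2 * ((Q.primeFactors.card : ℝ) * Real.log y ^ 2) * Nat.totient Q ≤ 2 * ((Q : ℝ) * (L + 3) ^ 2) * Q := by
          gcongr
      _ = 2 * ((Q : ℝ) * Q) * (L + 3) ^ 2 := by ring
      _ ≤ _ := by gcongr
  have e6 : (∑ f ∈ Q.divisors.filter (fun f => f ≠ 1), ∑ ψ ∈ Prim f, ‖psiLog y f ψ‖) / Nat.totient Q ≤ (ε / 2 * X) / Nat.totient Q := by
    apply div_le_div_of_nonneg_right _ hφ.le
    refine hsum.trans ?_
    calc (Q : ℝ) * Q * (X * Real.exp (-(L ^ (1 / 40 : ℝ) / 4))) ≤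
        Real.exp (2 * L ^ (1 / 50 : ℝ)) * (X * Real.exp (-(L ^ (1 / 40 : ℝ) / 4))) := by gcongr
      _ = (Real.exp (2 * L ^ (1 / 50 : ℝ)) * Real.exp (-(L ^ (1 / 40 : ℝ) / 4))) * X := by ring
      _ ≤ _ := mul_le_mul_of_nonneg_right g1 hX0.le
  have e7 : (ε / 2 * X) / Nat.totient Q + (ε / 2 * X) / Nat.totient Q = ε * X / Nat.totient Q := by ring
  linarith

theorem psi1_eq' (x : ℝ) : psi1 x = Chebyshev.psi x := by
  unfold psi1 Chebyshev.psi
  rfl

theorem psi1_pnt (η : ℝ) (hη : 0 < η) : ∀ᶠ X : ℝ in atTop, ∀ y : ℝ, X / 3 ≤ y → y ≤ 12 * X → |psi1 y - y| ≤ η * X := by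
  have h1 := Pool.Agent.Helper601.PNT.psi_div_tendsto
  have h2 : ∀ᶠ x : ℝ in atTop, |Chebyshev.psi x / x - 1| < η / 12 := by
    have := (Metric.tendsto_nhds.1 h1) (η / 12) (by positivity)
    simpa [Real.dist_eq] using this
  obtain ⟨x0, hx0⟩ := eventually_atTop.1 h2
  filter_upwards [eventually_ge_atTop (3 * x0), eventually_gt_atTop (0 : ℝ)] with X h3 h4 y hy1 hy2
  have hy0 : 0 < y := by linarith
  have h5 := hx0 y (by linarith)
  rw [psi1_eq']
  have h6 : Chebyshev.psi y - y = (Chebyshev.psi y / y - 1) * y := by field_simp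
  rw [h6, abs_mul, abs_of_pos hy0]
  calc |Chebyshev.psi y / y - 1| * y ≤ η / 12 * (12 * X) := mul_le_mul h5.le hy2 hy0.le (by positivity)
    _ = _ := by ring

theorem psi_AP (ε : ℝ) (hε : 0 < ε) (hε1 : ε ≤ 1) : ∀ᶠ X : ℝ in atTop, ∃ ps : ℕ, (ps = 1 ∨ ps.Prime) ∧ ∀ Q : ℕ, Squarefree Q →
    Real.log Q ≤ (Real.log X) ^ (1 / 50 : ℝ) → Q.Coprime ps → ∀ b : ℕ, b.Coprime Q → ∀ x : ℝ, X ≤ x → x ≤ 4 * X →
      |psiAP x Q b - x / Nat.totient Q| ≤ ε * X / Nat.totient Q := by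
  set η : ℝ := ε / 60 with hη
  have hη0 : 0 < η := by positivity
  filter_upwards [log_AP (η * ε / 12) (by positivity), psi1_pnt η hη0, eventually_gt_atTop (0 : ℝ)] with X h1 h2 h3
  obtain ⟨ps, hps, h1⟩ := h1
  refine ⟨ps, hps, fun Q hQ hQL hQps b hb x hx1 hx2 => ?_⟩
  have hx0 : 0 < x := by linarith
  have hQ1 : 1 ≤ Q := Nat.one_le_iff_ne_zero.2 hQ.ne_zero
  have hφ : (0 : ℝ) < Nat.totient Q := by exact_mod_cast Nat.totient_pos.2 hQ1
  have he1 : Real.exp η ≤ 1 + 2 * η := by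
    have q1 := Real.add_one_le_exp (-η)
    have q2 : Real.exp (-η) * Real.exp η = 1 := by rw [← Real.exp_add]; simp
    have q3 := Real.exp_pos η
    have q4 : (1 - η) * Real.exp η ≤ 1 := by
      rw [← q2]
      exact mul_le_mul_of_nonneg_right (by linarith) q3.le
    by_contra hcon
    push Not at hcon
    have : (1 - η) * (1 + 2 * η) < (1 - η) * Real.exp η := mul_lt_mul_of_pos_left hcon (by linarith)
    nlinarith
  have he2 : 1 - η ≤ Real.exp (-η) := by
    have := Real.add_one_le_exp (-η)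
    linarith
  have he3 : Real.exp (-η) ≤ 1 := Real.exp_le_one_iff.2 (by linarith)
  have he4 : 1 ≤ Real.exp η := Real.one_le_exp hη0.le
  have hx3 : x * Real.exp η ≤ 12 * X := by nlinarith
  have hx4 : X / 3 ≤ x * Real.exp (-η) := by nlinarith
  have hx5 : x ≤ x * Real.exp η := le_mul_of_one_le_right hx0.le he4
  have hx6 : x * Real.exp (-η) ≤ x := mul_le_of_le_one_right hx0.le he3
  have a1 := h1 Q hQ hQL hQps b hb (x * Real.exp η) (by linarith) hx3
  have a2 := h1 Q hQ hQL hQps b hb x (by linarith) (by linarith)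
  have a3 := h1 Q hQ hQL hQps b hb (x * Real.exp (-η)) hx4 (by linarith)
  have b1 := abs_le.1 (h2 (x * Real.exp η) (by linarith) hx3)
  have b2 := abs_le.1 (h2 x (by linarith) (by linarith))
  have b3 := abs_le.1 (h2 (x * Real.exp (-η)) hx4 (by linarith))
  have hun := unsmooth_point hx0 hη0 Q b
  have c1 : (1 / η) * (|psiLogAP (x * Real.exp η) Q b - psiLog1 (x * Real.exp η) / (Nat.totient Q : ℝ)| +
        |psiLogAP x Q b - psiLog1 x / (Nat.totient Q : ℝ)| +
        |psiLogAP (x * Real.exp (-η)) Q b - psiLog1 (x * Real.exp (-η)) / (Nat.totient Q : ℝ)|) ≤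
      ε / 4 * X / Nat.totient Q := by
    calc _ ≤ (1 / η) * (η * ε / 12 * X / Nat.totient Q + η * ε / 12 * X / Nat.totient Q + η * ε / 12 * X / Nat.totient Q) := by
          apply mul_le_mul_of_nonneg_left _ (by positivity)
          linarith
      _ = _ := by field_simp; ring
  have c2 : (psi1 (x * Real.exp η) - psi1 (x * Real.exp (-η))) / (Nat.totient Q : ℝ) ≤ (14 * η * X) / Nat.totient Q := by
    apply div_le_div_of_nonneg_right _ hφ.le
    have q1 : x * Real.exp η - x * Real.exp (-η) ≤ 3 * η * x := by nlinarith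
    nlinarith [b1.2, b3.1]
  have c3 : |psi1 x / (Nat.totient Q : ℝ) - x / Nat.totient Q| ≤ (η * X) / Nat.totient Q := by
    rw [← sub_div, abs_div, abs_of_pos hφ]
    apply div_le_div_of_nonneg_right _ hφ.le
    exact abs_le.2 b2
  have c4 : |psiAP x Q b - x / Nat.totient Q| ≤ |psiAP x Q b - psi1 x / (Nat.totient Q : ℝ)| +
      |psi1 x / (Nat.totient Q : ℝ) - x / Nat.totient Q| := abs_sub_le _ _ _
  have c5 : ε / 4 * X / Nat.totient Q + (14 * η * X) / Nat.totient Q + (η * X) / Nat.totient Q = (ε / 2) * X / Nat.totient Q := by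
    rw [hη]; field_simp; ring
  have c6 : (ε / 2) * X / Nat.totient Q ≤ ε * X / Nat.totient Q := by
    apply div_le_div_of_nonneg_right _ hφ.le
    nlinarith
  linarith

/-- `∑ log p` over the primes `p ≤ x` in a class -/
noncomputable def TH (x : ℝ) (Q b : ℕ) : ℝ := ∑ n ∈ (Icc 1 ⌊x⌋₊).filter (fun n => n ≡ b [MOD Q]), th n

theorem th_le (n : ℕ) : th n ≤ ArithmeticFunction.vonMangoldt n := by
  unfold th
  split_ifs with h
  · rw [ArithmeticFunction.vonMangoldt_apply_prime h]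
  · exact ArithmeticFunction.vonMangoldt_nonneg

theorem TH_psi (x : ℝ) (hx : 1 ≤ x) (Q b : ℕ) : |psiAP x Q b - TH x Q b| ≤ 2 * Real.sqrt x * Real.log x := by
  have h1 : psiAP x Q b - TH x Q b = ∑ n ∈ (Icc 1 ⌊x⌋₊).filter (fun n => n ≡ b [MOD Q]),
      (ArithmeticFunction.vonMangoldt n - th n) := by
    unfold psiAP TH
    rw [sum_sub_distrib]
  have h2 : ∀ n, 0 ≤ ArithmeticFunction.vonMangoldt n - th n := fun n => by linarith [th_le n]
  rw [h1, abs_of_nonneg (sum_nonneg fun n _ => h2 n)]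
  calc ∑ n ∈ (Icc 1 ⌊x⌋₊).filter (fun n => n ≡ b [MOD Q]), (ArithmeticFunction.vonMangoldt n - th n) ≤
      ∑ n ∈ Icc 1 ⌊x⌋₊, (ArithmeticFunction.vonMangoldt n - th n) :=
        sum_le_sum_of_subset_of_nonneg (filter_subset _ _) fun n _ _ => h2 n
    _ = Chebyshev.psi x - Chebyshev.theta x := by
        rw [sum_sub_distrib]
        unfold Chebyshev.psi Chebyshev.theta th
        rw [sum_filter]
        rfl
    _ ≤ _ := Chebyshev.psi_sub_theta_le hx

theorem TH_main (ε : ℝ) (hε : 0 < ε) (hε1 : ε ≤ 1) : ∀ᶠ X : ℝ in atTop, ∃ ps : ℕ, (ps = 1 ∨ ps.Prime) ∧ ∀ Q : ℕ, Squarefree Q →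
    Real.log Q ≤ (Real.log X) ^ (1 / 50 : ℝ) → Q.Coprime ps → ∀ b : ℕ, b.Coprime Q → ∀ x : ℝ, X ≤ x → x ≤ 4 * X →
      |TH x Q b - x / Nat.totient Q| ≤ ε * X / Nat.totient Q := by
  filter_upwards [psi_AP (ε / 2) (by positivity) (by linarith), ev_a (ε / 2) (by positivity), eventually_ge_atTop (1 : ℝ),
    Real.tendsto_log_atTop.eventually_ge_atTop (1 : ℝ)] with X h1 h2 h3 h4
  obtain ⟨ps, hps, h1⟩ := h1
  obtain ⟨_, _, g3, _⟩ := h2
  refine ⟨ps, hps, fun Q hQ hQL hQps b hb x hx1 hx2 => ?_⟩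
  have hQ1 : 1 ≤ Q := Nat.one_le_iff_ne_zero.2 hQ.ne_zero
  have hQr : (1 : ℝ) ≤ Q := by exact_mod_cast hQ1
  have hφ : (0 : ℝ) < Nat.totient Q := by exact_mod_cast Nat.totient_pos.2 hQ1
  have hφQ : (Nat.totient Q : ℝ) ≤ Q := by exact_mod_cast Nat.totient_le Q
  have a1 := h1 Q hQ hQL hQps b hb x hx1 hx2
  have a2 := TH_psi x (by linarith) Q b
  have hQe : (Q : ℝ) ≤ Real.exp ((Real.log X) ^ (1 / 50 : ℝ)) := by
    rw [← Real.log_le_iff_le_exp (by linarith)]
    exact hQL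
  have hx0 : 0 < x := by linarith
  have hlogx : Real.log x ≤ Real.log X + 3 := by
    have hlog4 : Real.log 4 ≤ 3 := by
      rw [Real.log_le_iff_le_exp (by norm_num)]
      have := Real.add_one_le_exp 3
      linarith
    calc Real.log x ≤ Real.log (4 * X) := Real.log_le_log hx0 hx2
      _ = Real.log 4 + Real.log X := Real.log_mul (by norm_num) (by linarith)
      _ ≤ _ := by linarith
  have hsx : Real.sqrt x ≤ 2 * Real.sqrt X := by
    calc Real.sqrt x ≤ Real.sqrt (4 * X) := Real.sqrt_le_sqrt hx2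
      _ = 2 * Real.sqrt X := by
          rw [Real.sqrt_mul (by norm_num), show (4 : ℝ) = 2 ^ 2 by norm_num, Real.sqrt_sq (by norm_num)]
  have a3 : 2 * Real.sqrt x * Real.log x ≤ (ε / 2 * X) / Nat.totient Q := by
    rw [le_div_iff₀ hφ]
    refine le_trans ?_ g3
    have hl0 : 0 ≤ Real.log x := Real.log_nonneg (by linarith)
    calc 2 * Real.sqrt x * Real.log x * Nat.totient Q ≤ 2 * (2 * Real.sqrt X) * (Real.log X + 3) * Real.exp ((Real.log X) ^ (1 / 50 : ℝ)) := by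
          gcongr
          exact hφQ.trans hQe
      _ = _ := by ring
  have a4 : |TH x Q b - x / Nat.totient Q| ≤ |psiAP x Q b - TH x Q b| + |psiAP x Q b - x / Nat.totient Q| := by
    rw [← abs_neg (psiAP x Q b - TH x Q b)]
    have : TH x Q b - x / Nat.totient Q = -(psiAP x Q b - TH x Q b) + (psiAP x Q b - x / Nat.totient Q) := by ring
    rw [this]
    exact abs_add_le _ _
  have a5 : (ε / 2 * X) / Nat.totient Q + ε / 2 * X / Nat.totient Q = ε * X / Nat.totient Q := by ring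
  linarith

end Pool.Agent.W5h22.DM
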