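import Pool.Agent.W5h22.DM.B
import Pool.Agent.W5h22.JM.K

/-! Means over the multiples of `Q` in a window. -/

set_option autoImplicit false

open Finset Filter Topology

namespace Pool.Agent.W5h22.DM

open Pool.Agent.H378R2 Pool.Agent.W5h22.JM Pool.Agent.H510R2.Maier

/-- the multiples of `Q` in `(N, N']` -/
def mult (N N' Q : ℕ) : Finset ℕ := (Ioc N N').filter (fun m => Q ∣ m)

theorem mult_card (N N' Q : ℕ) (hN : N ≤ N') (hQ : 0 < Q) :
    |((mult N N' Q).card : ℝ) - ((N' : ℝ) - N) / Q| ≤ 1 := by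
  have h0 : (Ioc 0 N').filter (fun m => Q ∣ m) = (Ioc 0 N).filter (fun m => Q ∣ m) ∪ mult N N' Q := by
    unfold mult
    rw [← filter_union, Ioc_union_Ioc_eq_Ioc (Nat.zero_le _) hN]
  have hd : Disjoint ((Ioc 0 N).filter (fun m => Q ∣ m)) (mult N N' Q) := by
    rw [disjoint_left]
    intro x hx hx2
    unfold mult at hx2
    rw [mem_filter, mem_Ioc] at hx hx2
    omega
  have h1 := congrArg card h0
  rw [card_union_of_disjoint hd, Nat.Ioc_filter_dvd_card_eq_div, Nat.Ioc_filter_dvd_card_eq_div] at h1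
  have hQr : (0 : ℝ) < Q := by exact_mod_cast hQ
  have h2 : ((N' / Q : ℕ) : ℝ) = ((N / Q : ℕ) : ℝ) + ((mult N N' Q).card : ℝ) := by exact_mod_cast h1
  have a1 := @Nat.cast_div_le ℝ _ _ _ N' Q
  have a2 := @Nat.cast_div_le ℝ _ _ _ N Q
  have aux : ∀ M : ℕ, (M : ℝ) / Q < ((M / Q : ℕ) : ℝ) + 1 := by
    intro M
    rw [div_lt_iff₀ hQr]
    have e1 := Nat.div_add_mod M Q
    have e2 := Nat.mod_lt M hQ
    have e3 : M < (M / Q + 1) * Q := by
      rw [Nat.add_mul, one_mul, mul_comm (M / Q) Q]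
      omega
    exact_mod_cast e3
  have a3 := aux N'
  have a4 := aux N
  rw [abs_le, sub_div]
  constructor <;> linarith

theorem mult_th (N N' Q h : ℕ) (hN : N ≤ N') :
    ∑ m ∈ mult N N' Q, th (m + h) = TH ((N' + h : ℕ) : ℝ) Q h - TH ((N + h : ℕ) : ℝ) Q h := by
  have h0 : (Icc 1 (N' + h)).filter (fun n => n ≡ h [MOD Q]) =
      (Icc 1 (N + h)).filter (fun n => n ≡ h [MOD Q]) ∪ (Ioc (N + h) (N' + h)).filter (fun n => n ≡ h [MOD Q]) := by
    rw [← filter_union]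
    congr 1
    ext x
    rw [mem_union, mem_Icc, mem_Icc, mem_Ioc]
    omega
  have hd : Disjoint ((Icc 1 (N + h)).filter (fun n => n ≡ h [MOD Q])) ((Ioc (N + h) (N' + h)).filter (fun n => n ≡ h [MOD Q])) := by
    rw [disjoint_left]
    intro x hx hx2
    rw [mem_filter, mem_Icc] at hx
    rw [mem_filter, mem_Ioc] at hx2
    omega
  unfold TH
  rw [Nat.floor_natCast, Nat.floor_natCast, h0, sum_union hd, add_sub_cancel_left]
  unfold mult
  apply sum_nbij' (fun m => m + h) (fun n => n - h)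
  · intro m hm
    rw [mem_filter, mem_Ioc] at hm ⊢
    refine ⟨by omega, ?_⟩
    have : m ≡ 0 [MOD Q] := (Nat.modEq_zero_iff_dvd).2 hm.2
    simpa using this.add_right h
  · intro n hn
    rw [mem_filter, mem_Ioc] at hn ⊢
    refine ⟨by omega, ?_⟩
    have h1 : n = (n - h) + h := by omega
    have h2 := hn.2
    rw [h1] at h2
    have h3 : (n - h) + h ≡ 0 + h [MOD Q] := by rw [zero_add]; exact h2
    exact (Nat.modEq_zero_iff_dvd).1 (Nat.ModEq.add_right_cancel' h h3)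
  · intro m _; simp
  · intro n hn
    rw [mem_filter, mem_Ioc] at hn
    omega
  · intro m _; rfl

theorem mult_th_zero (N N' Q h : ℕ) (hc : ¬ h.Coprime Q) (hN : ∀ p : ℕ, p.Prime → p ∣ Q → p ≤ N) :
    ∑ m ∈ mult N N' Q, th (m + h) = 0 := by
  apply sum_eq_zero
  intro m hm
  unfold mult at hm
  rw [mem_filter, mem_Ioc] at hm
  obtain ⟨p, hpp, hp1, hp2⟩ := Nat.Prime.not_coprime_iff_dvd.1 hc
  unfold th
  rw [if_neg]
  intro hpr
  have hdvd : p ∣ m + h := dvd_add (hp2.trans hm.2) hp1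
  have heq : p = m + h := (Nat.prime_dvd_prime_iff_eq hpp hpr).1 hdvd
  have := hN p hpp hp2
  omega

/-- the mean over the multiples of `Q` in the window -/
noncomputable def EW (N N' Q : ℕ) (f : ℕ → ℝ) : ℝ := (∑ m ∈ mult N N' Q, f m) / (mult N N' Q).card

theorem win_th (κ ε : ℝ) (hκ : 0 < κ) (hε : 0 < ε) : ∀ᶠ X : ℝ in atTop, ∃ ps : ℕ, (ps = 1 ∨ ps.Prime) ∧
    ∀ Q : ℕ, Squarefree Q → Real.log Q ≤ (Real.log X) ^ (1 / 50 : ℝ) → Q.Coprime ps →
      (Q : ℝ) ≤ 2 * Nat.totient Q → ∀ N N' : ℕ, X ≤ N → N + κ * X ≤ N' → N' ≤ 2 * X →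
        κ * X / (2 * Q) ≤ (mult N N' Q).card ∧ ((mult N N' Q).card : ℝ) ≤ 2 * (N' - N) / Q ∧
        ∀ h : ℕ, (h : ℝ) ≤ X → |EW N N' Q (fun n => th (n + h)) - (if h.Coprime Q then (Q : ℝ) / Nat.totient Q else 0)| ≤ ε := by
  filter_upwards [TH_main (min 1 (κ * ε / 16)) (by positivity) (min_le_left _ _), ev_a (min (κ / 4) (κ * ε / 32)) (by positivity),
    Real.tendsto_log_atTop.eventually_ge_atTop (1 : ℝ), eventually_ge_atTop (1 : ℝ)] with X h1 h2 h3 h4
  obtain ⟨ps, hps, h1⟩ := h1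
  obtain ⟨_, g2, _, _⟩ := h2
  refine ⟨ps, hps, fun Q hQ hQL hQps hQφ N N' hN hNN' hN' => ?_⟩
  have hX0 : 0 < X := by linarith
  have hQ1 : 1 ≤ Q := Nat.one_le_iff_ne_zero.2 hQ.ne_zero
  have hQr : (1 : ℝ) ≤ Q := by exact_mod_cast hQ1
  have hφ : (0 : ℝ) < Nat.totient Q := by exact_mod_cast Nat.totient_pos.2 hQ1
  have hQe : (Q : ℝ) ≤ Real.exp ((Real.log X) ^ (1 / 50 : ℝ)) := by
    rw [← Real.log_le_iff_le_exp (by linarith)]
    exact hQL
  have hQQ : (Q : ℝ) * Q ≤ Real.exp (2 * (Real.log X) ^ (1 / 50 : ℝ)) := by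
    calc (Q : ℝ) * Q ≤ Real.exp ((Real.log X) ^ (1 / 50 : ℝ)) * Real.exp ((Real.log X) ^ (1 / 50 : ℝ)) :=
          mul_le_mul hQe hQe (by linarith) (Real.exp_pos _).le
      _ = _ := by rw [← Real.exp_add]; congr 1; ring
  have hQX : 32 * ((Q : ℝ) * Q) ≤ (min (κ / 4) (κ * ε / 32)) * X := by
    have e1 : 16 ≤ (Real.log X + 3) ^ 2 := by
      have : (4 : ℝ) ^ 2 ≤ (Real.log X + 3) ^ 2 := pow_le_pow_left₀ (by norm_num) (by linarith) 2
      linarith
    have e2 : 0 ≤ Real.exp (2 * (Real.log X) ^ (1 / 50 : ℝ)) := (Real.exp_pos _).le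
    nlinarith
  have hQXa : 32 * ((Q : ℝ) * Q) ≤ κ / 4 * X := hQX.trans (mul_le_mul_of_nonneg_right (min_le_left _ _) hX0.le)
  have hQXb : 32 * ((Q : ℝ) * Q) ≤ κ * ε / 32 * X := hQX.trans (mul_le_mul_of_nonneg_right (min_le_right _ _) hX0.le)
  have hQQ1 : (Q : ℝ) ≤ Q * Q := by nlinarith
  have hNN : N ≤ N' := by
    have : (N : ℝ) ≤ N' := by nlinarith
    exact_mod_cast this
  have hcard := abs_le.1 (mult_card N N' Q hNN (by omega))
  set c : ℝ := ((mult N N' Q).card : ℝ) with hc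
  have hQ0 : (0 : ℝ) < Q := by linarith
  have hD : κ * X ≤ (N' : ℝ) - N := by linarith
  have hDQ : 2 ≤ ((N' : ℝ) - N) / Q := by
    rw [le_div_iff₀ hQ0]
    nlinarith
  have hc1 : κ * X / (2 * Q) ≤ c := by
    have e1 : κ * X / (2 * Q) ≤ (((N' : ℝ) - N) / Q) / 2 := by
      rw [div_div, mul_comm (Q : ℝ) 2]
      apply div_le_div_of_nonneg_right hD (by positivity)
    linarith [hcard.1]
  have hc2 : c ≤ 2 * (N' - N) / Q := by
    have e1 : 2 * ((N' : ℝ) - N) / Q = 2 * (((N' : ℝ) - N) / Q) := by ring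
    rw [e1]
    linarith [hcard.2]
  refine ⟨hc1, hc2, fun h hh => ?_⟩
  have hc0 : 0 < c := lt_of_lt_of_le (by positivity) hc1
  unfold EW
  rw [← hc]
  split_ifs with hcop
  · rw [mult_th N N' Q h hNN]
    have b1 := abs_le.1 (h1 Q hQ hQL hQps h hcop ((N' + h : ℕ) : ℝ) (by push_cast; linarith) (by push_cast; linarith))
    have b2 := abs_le.1 (h1 Q hQ hQL hQps h hcop ((N + h : ℕ) : ℝ) (by push_cast; linarith [Nat.cast_nonneg (α := ℝ) h]) (by push_cast; nlinarith))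
    push_cast at b1 b2
    have e0 : (min 1 (κ * ε / 16)) * X / Nat.totient Q ≤ κ * ε / 16 * X / Nat.totient Q := by
      apply div_le_div_of_nonneg_right _ hφ.le
      exact mul_le_mul_of_nonneg_right (min_le_right _ _) hX0.le
    set S1 := TH ((N' : ℝ) + h) Q h
    set S2 := TH ((N : ℝ) + h) Q h
    have e1 : |S1 - S2 - ((N' : ℝ) - N) / Nat.totient Q| ≤ κ * ε / 8 * X / Nat.totient Q := by
      have q1 : ((N' : ℝ) - N) / Nat.totient Q = ((N' : ℝ) + h) / Nat.totient Q - ((N : ℝ) + h) / Nat.totient Q := by ring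
      have q2 : κ * ε / 8 * X / Nat.totient Q = κ * ε / 16 * X / Nat.totient Q + κ * ε / 16 * X / Nat.totient Q := by ring
      rw [q1, q2, abs_le]
      constructor <;> linarith [b1.1, b1.2, b2.1, b2.2]
    have e2 : |((N' : ℝ) - N) / Nat.totient Q - c * (Q / Nat.totient Q)| ≤ Q / Nat.totient Q := by
      have q1 : ((N' : ℝ) - N) / Nat.totient Q - c * (Q / Nat.totient Q) = -(c - ((N' : ℝ) - N) / Q) * (Q / Nat.totient Q) := by
        field_simp
        ring
      rw [q1, abs_mul, abs_neg, abs_of_pos (show (0 : ℝ) < Q / Nat.totient Q by positivity)]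
      calc |c - ((N' : ℝ) - N) / Q| * (Q / Nat.totient Q) ≤ 1 * (Q / Nat.totient Q) :=
            mul_le_mul_of_nonneg_right (abs_le.2 hcard) (by positivity)
        _ = _ := one_mul _
    have e3 : |S1 - S2 - c * (Q / Nat.totient Q)| ≤ κ * ε / 8 * X / Nat.totient Q + Q / Nat.totient Q :=
      (abs_sub_le _ _ _).trans (add_le_add e1 e2)
    have e4 : ((S1 - S2) / c - Q / Nat.totient Q) = (S1 - S2 - c * (Q / Nat.totient Q)) / c := by
      field_simp
    show |(TH ((N' + h : ℕ) : ℝ) Q h - TH ((N + h : ℕ) : ℝ) Q h) / c - Q / Nat.totient Q| ≤ ε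
    push_cast
    rw [e4, abs_div, abs_of_pos hc0, div_le_iff₀ hc0]
    refine e3.trans ?_
    calc κ * ε / 8 * X / Nat.totient Q + Q / Nat.totient Q = (κ * ε / 8 * X + Q) / Nat.totient Q := by ring
      _ ≤ (κ * ε / 4 * X) / Nat.totient Q := by
          apply div_le_div_of_nonneg_right _ hφ.le
          have : 0 ≤ κ * ε * X := by positivity
          nlinarith
      _ ≤ (κ * ε / 4 * X) * (2 / Q) := by
          rw [div_eq_mul_one_div]
          apply mul_le_mul_of_nonneg_left _ (by positivity)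
          rw [div_le_div_iff₀ hφ hQ0]
          linarith
      _ = ε * (κ * X / (2 * Q)) := by field_simp; ring
      _ ≤ ε * c := mul_le_mul_of_nonneg_left hc1 hε.le
  · rw [mult_th_zero N N' Q h hcop (by
      intro p _ hp2
      have e1 : (p : ℝ) ≤ Q := by exact_mod_cast Nat.le_of_dvd (by omega) hp2
      have e2 : (p : ℝ) ≤ N := by
        have : κ / 4 * X ≤ X * 32 ∨ True := Or.inr trivial
        have hκ1 : κ ≤ 1 := by
          by_contra hcon
          push Not at hcon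
          nlinarith
        nlinarith
      exact_mod_cast e2)]
    simp [hε.le]

end Pool.Agent.W5h22.DM
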