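import Pool.Agent.W5h22.DM.C

/-! The mean value of `R_a` for abstract means. -/

set_option autoImplicit false

open Finset Filter Topology

namespace Pool.Agent.W5h22.DM

open Pool.Agent.H378R2 Pool.Agent.W5h22.JM Pool.Agent.H510R2.Maier

theorem mean_abs (B : ℕ) (ε : ℝ) (hε : 0 < ε) : ∀ᶠ X : ℝ in atTop, ∀ s : Finset ℕ, (∀ p ∈ s, p.Prime) → 1 / 2 ≤ PP s →
    ∀ E : (ℕ → ℝ) → ℝ, (∀ f g : ℕ → ℝ, (∀ n : ℕ, X < n → (n : ℝ) < 3 * X → f n ≤ g n) → E f ≤ E g) →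
      (∀ (c : ℝ) (f : ℕ → ℝ), E (fun n => c * f n) = c * E f) →
      (∀ Y : ℕ, E (fun n => thw n Y) = ∑ h ∈ Icc 1 Y, E (fun n => th (n + h))) →
      (∀ h : ℕ, (h : ℝ) ≤ (2 * Real.log X) ^ B →
        |E (fun n => th (n + h)) - (if h.Coprime (∏ p ∈ s, p) then (PP s)⁻¹ else 0)| ≤ ε / 8) →
      ∀ a : ℝ, 1 ≤ a → a ≤ B → |E (fun n => ratio a n) - cX s (Real.log X) a| ≤ ε := by
  have ev2 : ∀ᶠ X : ℝ in atTop, 2 * ((Real.log (3 * X) / Real.log X) ^ B - 1 + 1 / Real.log X) +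
      ε / 8 * (Real.log (3 * X) / Real.log X) ^ B < ε := by
    have h1 : Tendsto (fun X : ℝ => 2 * ((Real.log (3 * X) / Real.log X) ^ B - 1 + 1 / Real.log X) +
        ε / 8 * (Real.log (3 * X) / Real.log X) ^ B) atTop (𝓝 (2 * (1 ^ B - 1 + 0) + ε / 8 * 1 ^ B)) :=
      ((((log3_lim.pow B).sub_const 1).add (tendsto_const_nhds.div_atTop Real.tendsto_log_atTop)).const_mul 2).add
        ((log3_lim.pow B).const_mul _)
    apply h1.eventually_lt_const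
    rw [one_pow]; linarith
  have ev3 : ∀ᶠ X : ℝ in atTop, 1 - ε / 4 < ((Real.log (3 * X) / Real.log X) ^ B)⁻¹ * (Real.log (3 * X) / (Real.log (3 * X) + 1)) := by
    have h1 := ((log3_lim.pow B).inv₀ (by rw [one_pow]; exact one_ne_zero)).mul log3_lim2
    apply h1.eventually_const_lt
    rw [one_pow, inv_one]; linarith
  have ev4 : ∀ᶠ X : ℝ in atTop, Real.log (3 * X) / Real.log X < 2 := log3_lim.eventually_lt_const (by norm_num)
  have ev5 : ∀ᶠ X : ℝ in atTop, (Real.log X) ^ B ≤ 3 * X := by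
    have h1 := (Real.isLittleO_pow_log_id_atTop (n := B)).bound (show (0 : ℝ) < 3 by norm_num)
    filter_upwards [h1, eventually_ge_atTop (1 : ℝ)] with X h2 h3
    rw [Real.norm_of_nonneg (pow_nonneg (Real.log_nonneg h3) B), id, Real.norm_of_nonneg (by linarith)] at h2
    linarith
  filter_upwards [ev2, ev3, ev4, ev5, eventually_ge_atTop (3 : ℝ), Real.tendsto_log_atTop.eventually_ge_atTop (1 : ℝ)] with
    X h2 h3 h4 h5 h6 h7 s hsp hP E hmono hmul hadd hth a ha haB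
  have hX0 : 0 < X := by linarith
  set L := Real.log X with hL
  set L3 := Real.log (3 * X) with hL3
  set Q := ∏ p ∈ s, p with hQ
  have hL0 : 0 < L := by linarith
  have hLL3 : L ≤ L3 := Real.log_le_log hX0 (by linarith)
  have hL30 : 0 < L3 := by linarith
  have hL32 : L3 ≤ 2 * L := by
    rw [div_lt_iff₀ hL0] at h4; exact h4.le
  have hP0 : 0 < PP s := by linarith
  have hPi : (PP s)⁻¹ ≤ 2 := by
    calc (PP s)⁻¹ ≤ (1 / 2 : ℝ)⁻¹ := inv_anti₀ (by norm_num) hP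
      _ = 2 := by norm_num
  have hPi0 : 0 < (PP s)⁻¹ := by positivity
  -- means of `thw`
  have hthw : ∀ y : ℝ, 0 ≤ y → y ≤ (2 * L) ^ B →
      |E (fun n => thw n ⌊y⌋₊) - cnt s ⌊y⌋₊ * (PP s)⁻¹| ≤ ε / 8 * y := by
    intro y hy hyB
    rw [hadd, ← cnt_cop s hsp, ← sum_sub_distrib]
    refine (abs_sum_le_sum_abs _ _).trans ?_
    calc _ ≤ ∑ _h ∈ Icc 1 ⌊y⌋₊, ε / 8 := by
          refine sum_le_sum fun h hh => ?_
          rw [mem_Icc] at hh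
          exact hth h ((le_trans (by exact_mod_cast hh.2) (Nat.floor_le hy)).trans hyB)
      _ = ⌊y⌋₊ * (ε / 8) := by rw [sum_const, Nat.card_Icc, Nat.add_sub_cancel, nsmul_eq_mul]
      _ ≤ y * (ε / 8) := mul_le_mul_of_nonneg_right (Nat.floor_le hy) (by positivity)
      _ = _ := by ring
  have hpow : ∀ t : ℝ, 1 ≤ t → t ≤ 2 * L → t ^ a ≤ (2 * L) ^ B := by
    intro t ht1 ht
    calc t ^ a ≤ (2 * L) ^ a := Real.rpow_le_rpow (by linarith) ht (by linarith)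
      _ ≤ (2 * L) ^ (B : ℝ) := Real.rpow_le_rpow_of_exponent_le (by linarith) haB
      _ = _ := Real.rpow_natCast _ _
  have hy : 0 < L ^ a := Real.rpow_pos_of_pos hL0 a
  have hy3 : 0 < L3 ^ a := Real.rpow_pos_of_pos hL30 a
  have hyy : L ^ a ≤ L3 ^ a := Real.rpow_le_rpow hL0.le hLL3 (by linarith)
  have hLa : L ≤ L ^ a := by
    calc L = L ^ (1 : ℝ) := (Real.rpow_one L).symm
      _ ≤ _ := Real.rpow_le_rpow_of_exponent_le h7 ha
  have hρ : L3 ^ a / L ^ a ≤ (L3 / L) ^ B := by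
    rw [← Real.div_rpow hL30.le hL0.le, ← Real.rpow_natCast]
    exact Real.rpow_le_rpow_of_exponent_le (by rw [le_div_iff₀ hL0]; linarith) haB
  have hρ1 : 1 ≤ L3 ^ a / L ^ a := by rw [le_div_iff₀ hy]; linarith
  obtain ⟨hc2, hc0⟩ := cX_le s L a hL0 hP
  have hcX : cX s L a = cnt s ⌊L ^ a⌋₊ * (PP s)⁻¹ / L ^ a := by
    unfold cX; field_simp
  rw [abs_le]
  constructor
  · -- lower bound
    have e1 := hmono (fun n => L3 / L3 ^ a / (L3 + 1) * thw n ⌊L ^ a⌋₊) (fun n => ratio a n)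
      (fun n hn hn3 => ratio_low X a n h6 ha hn hn3 (by
        calc L ^ a ≤ L ^ (B : ℝ) := Real.rpow_le_rpow_of_exponent_le h7 haB
          _ = L ^ B := Real.rpow_natCast _ _
          _ ≤ _ := h5))
    rw [hmul] at e1
    have e2 := (abs_le.1 (hthw (L ^ a) hy.le (hpow L h7 (by linarith)))).1
    have hθ0 : 0 ≤ L3 / L3 ^ a / (L3 + 1) := by positivity
    have e3 : L3 / L3 ^ a / (L3 + 1) * (L ^ a * (cX s L a - ε / 8)) ≤
        L3 / L3 ^ a / (L3 + 1) * E (fun n => thw n ⌊L ^ a⌋₊) := by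
      apply mul_le_mul_of_nonneg_left _ hθ0
      rw [hcX]
      have : L ^ a * (cnt s ⌊L ^ a⌋₊ * (PP s)⁻¹ / L ^ a - ε / 8) = cnt s ⌊L ^ a⌋₊ * (PP s)⁻¹ - ε / 8 * L ^ a := by
        field_simp
      rw [this]
      linarith
    set θ := L3 / L3 ^ a / (L3 + 1) * L ^ a with hθ
    have e4 : L3 / L3 ^ a / (L3 + 1) * (L ^ a * (cX s L a - ε / 8)) = θ * (cX s L a - ε / 8) := by rw [hθ]; ring
    have hθeq : θ = (L3 ^ a / L ^ a)⁻¹ * (L3 / (L3 + 1)) := by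
      rw [hθ]; field_simp
    have hθ1 : θ ≤ 1 := by
      rw [hθeq]
      have q1 : (L3 ^ a / L ^ a)⁻¹ ≤ 1 := inv_le_one_of_one_le₀ hρ1
      have q2 : L3 / (L3 + 1) ≤ 1 := by rw [div_le_one (by linarith)]; linarith
      have q3 : 0 ≤ (L3 ^ a / L ^ a)⁻¹ := by positivity
      have q4 : 0 ≤ L3 / (L3 + 1) := by positivity
      nlinarith
    have hθ2 : 1 - ε / 4 < θ := by
      rw [hθeq]
      refine lt_of_lt_of_le h3 ?_
      apply mul_le_mul_of_nonneg_right _ (by positivity)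
      exact inv_anti₀ (by positivity) hρ
    have hθ3 : 0 ≤ θ := by positivity
    rw [e4] at e3
    have e5 : θ * (cX s L a - ε / 8) = cX s L a - (1 - θ) * cX s L a - θ * (ε / 8) := by ring
    have e6 : (1 - θ) * cX s L a ≤ ε / 4 * 2 := mul_le_mul (by linarith) hc2 hc0 (by positivity)
    have e7 : θ * (ε / 8) ≤ 1 * (ε / 8) := mul_le_mul_of_nonneg_right hθ1 (by positivity)
    linarith
  · -- upper bound
    have e1 := hmono (fun n => ratio a n) (fun n => (L ^ a)⁻¹ * thw n ⌊L3 ^ a⌋₊)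
      (fun n hn hn3 => by
        have := ratio_up X a n h6 ha hn hn3
        rw [div_eq_inv_mul] at this
        exact this)
    rw [hmul] at e1
    have e2 := (abs_le.1 (hthw (L3 ^ a) hy3.le (hpow L3 (by linarith) hL32))).2
    have e3 := cnt_add s ⌊L ^ a⌋₊ ⌊L3 ^ a⌋₊ (Nat.floor_le_floor hyy)
    have e4 : (⌊L3 ^ a⌋₊ : ℝ) ≤ L3 ^ a := Nat.floor_le hy3.le
    have e5 : L ^ a < ⌊L ^ a⌋₊ + 1 := Nat.lt_floor_add_one _
    have e6 : E (fun n => thw n ⌊L3 ^ a⌋₊) ≤ cnt s ⌊L ^ a⌋₊ * (PP s)⁻¹ + (L3 ^ a - L ^ a + 1) * 2 + ε / 8 * L3 ^ a := by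
      have q1 : (cnt s ⌊L3 ^ a⌋₊ : ℝ) * (PP s)⁻¹ ≤ (cnt s ⌊L ^ a⌋₊ + (L3 ^ a - L ^ a + 1)) * (PP s)⁻¹ := by
        apply mul_le_mul_of_nonneg_right _ hPi0.le
        linarith
      have q2 : (L3 ^ a - L ^ a + 1) * (PP s)⁻¹ ≤ (L3 ^ a - L ^ a + 1) * 2 :=
        mul_le_mul_of_nonneg_left hPi (by linarith)
      rw [add_mul] at q1
      linarith
    have e7 : (L ^ a)⁻¹ * E (fun n => thw n ⌊L3 ^ a⌋₊) ≤
        (L ^ a)⁻¹ * (cnt s ⌊L ^ a⌋₊ * (PP s)⁻¹ + (L3 ^ a - L ^ a + 1) * 2 + ε / 8 * L3 ^ a) :=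
      mul_le_mul_of_nonneg_left e6 (by positivity)
    have e8 : (L ^ a)⁻¹ * (cnt s ⌊L ^ a⌋₊ * (PP s)⁻¹ + (L3 ^ a - L ^ a + 1) * 2 + ε / 8 * L3 ^ a) =
        cX s L a + 2 * (L3 ^ a / L ^ a - 1 + 1 / L ^ a) + ε / 8 * (L3 ^ a / L ^ a) := by
      rw [hcX]; field_simp
    have e9 : 1 / L ^ a ≤ 1 / L := one_div_le_one_div_of_le hL0 hLa
    have e10 : ε / 8 * (L3 ^ a / L ^ a) ≤ ε / 8 * (L3 / L) ^ B := mul_le_mul_of_nonneg_left hρ (by positivity)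
    linarith


end Pool.Agent.W5h22.DM
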