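import Pool.Agent.W5h22.DM.D

/-! The mean value of `R_a` over the multiples of `Q` in a window. -/

set_option autoImplicit false

open Finset Filter Topology

namespace Pool.Agent.W5h22.DM

open Pool.Agent.H378R2 Pool.Agent.W5h22.JM Pool.Agent.H510R2.Maier

theorem EW_mono (N N' Q : ℕ) (f g : ℕ → ℝ) (h : ∀ n ∈ mult N N' Q, f n ≤ g n) : EW N N' Q f ≤ EW N N' Q g := by
  unfold EW
  exact div_le_div_of_nonneg_right (sum_le_sum h) (Nat.cast_nonneg _)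

theorem EW_mul (N N' Q : ℕ) (c : ℝ) (f : ℕ → ℝ) : EW N N' Q (fun n => c * f n) = c * EW N N' Q f := by
  unfold EW
  rw [← mul_sum, mul_div_assoc]

theorem EW_sub (N N' Q : ℕ) (f g : ℕ → ℝ) : EW N N' Q (fun n => f n - g n) = EW N N' Q f - EW N N' Q g := by
  unfold EW
  rw [sum_sub_distrib, sub_div]

theorem EW_thw (N N' Q Y : ℕ) : EW N N' Q (fun n => thw n Y) = ∑ h ∈ Icc 1 Y, EW N N' Q (fun n => th (n + h)) := by
  unfold EW thw
  rw [← sum_div, sum_comm]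

theorem mem_mult {N N' Q n : ℕ} : n ∈ mult N N' Q ↔ (N < n ∧ n ≤ N') ∧ Q ∣ n := by
  unfold mult
  rw [mem_filter, mem_Ioc]

theorem core2 (u v : ℝ) (hu : 0 < u) (huv : u < v) (hv : v < 1 / 50) (hlog : Real.log (v / u) ≤ 1 / 4) (B : ℕ) (κ ε : ℝ)
    (hκ : 0 < κ) (hε : 0 < ε) : ∀ᶠ X : ℝ in atTop, ∃ s : Finset ℕ, (∀ p ∈ s, p.Prime) ∧
      (∀ p ∈ s, (Real.log X) ^ u < p ∧ (p : ℝ) ≤ (Real.log X) ^ v) ∧ Real.log (v / u) / 2 ≤ ee s 1 ∧
      ee s 1 ≤ 2 * Real.log (v / u) ∧ 1 / 2 ≤ PP s ∧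
      ∀ N N' : ℕ, X ≤ N → N + κ * X ≤ N' → N' ≤ 2 * X →
        κ * X / (2 * ((∏ p ∈ s, p : ℕ) : ℝ)) ≤ (mult N N' (∏ p ∈ s, p)).card ∧
        ((mult N N' (∏ p ∈ s, p)).card : ℝ) ≤ 2 * (N' - N) / ((∏ p ∈ s, p : ℕ) : ℝ) ∧
        ∀ a : ℝ, 1 ≤ a → a ≤ B → |EW N N' (∏ p ∈ s, p) (fun n => ratio a n) - cX s (Real.log X) a| ≤ ε := by
  have hl0 : 0 < Real.log (v / u) := Real.log_pos (by rw [lt_div_iff₀ hu]; linarith)
  have hv0 : 0 < v := by linarith
  have ev1 : ∀ᶠ L : ℝ in atTop, 2 * L ^ v ≤ L ^ (1 / 50 : ℝ) := by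
    have h1 : Tendsto (fun L : ℝ => L ^ (1 / 50 - v)) atTop atTop := tendsto_rpow_atTop (by linarith)
    filter_upwards [h1.eventually_ge_atTop 2, eventually_gt_atTop (0 : ℝ)] with L h2 h3
    have h4 : L ^ (1 / 50 : ℝ) = L ^ (1 / 50 - v) * L ^ v := by rw [← Real.rpow_add h3]; congr 1; ring
    rw [h4]
    exact mul_le_mul_of_nonneg_right h2 (Real.rpow_nonneg h3.le v)
  have ev2 : ∀ᶠ X : ℝ in atTop, (2 * Real.log X) ^ B ≤ X := by
    have h1 := (Real.isLittleO_pow_log_id_atTop (n := B)).bound (show (0 : ℝ) < 1 / 2 ^ B by positivity)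
    filter_upwards [h1, eventually_ge_atTop (1 : ℝ)] with X h2 h3
    rw [Real.norm_of_nonneg (pow_nonneg (Real.log_nonneg h3) B), id, Real.norm_of_nonneg (by linarith),
      div_mul_eq_mul_div, one_mul, le_div_iff₀ (by positivity)] at h2
    rw [mul_pow]
    linarith
  filter_upwards [mean_abs B ε hε, mertens_sX u v (Real.log (v / u) / 2) hu huv (by linarith) (by positivity),
    win_th κ (ε / 8) hκ (by positivity), Real.tendsto_log_atTop.eventually ev1, ev2,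
    Real.tendsto_log_atTop.eventually_ge_atTop (1 : ℝ), eventually_ge_atTop (1 : ℝ)] with X h1 h2 h3 h4 h5 h6 h7
  obtain ⟨ps, hps, h3⟩ := h3
  have hX0 : 0 < X := by linarith
  have hgood : GoodS X ∅ := by
    constructor
    · intro q hq; simp at hq
    · rw [sum_empty]; positivity
  have h8 := abs_le.1 (h2 ps ∅ hgood)
  set s := sX X ps ∅ u v with hs
  have hsPW : s ⊆ PW X ∅ ps := filter_subset _ _
  have hsp : ∀ p ∈ s, p.Prime := fun p hp => (mem_PW.1 (hsPW hp)).2.1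
  have hsr : ∀ p ∈ s, (Real.log X) ^ u < p ∧ (p : ℝ) ≤ (Real.log X) ^ v := by
    intro p hp
    rw [hs, sX, mem_filter] at hp
    exact hp.2
  have hPP : 1 / 2 ≤ PP s := by
    have h5 := bonf_prod s hsp 1 le_rfl
    rw [sum_range_one, pow_zero, ee_zero] at h5
    have h6 := (abs_le.1 h5).1
    unfold PP
    linarith [h8.2]
  have hQ0 : 0 < ∏ p ∈ s, p := prod_ne s hsp (Subset.refl s)
  have hsq : Squarefree (∏ p ∈ s, p) := by
    apply (WW_squarefree X ∅ ps).squarefree_of_dvd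
    unfold WW
    exact prod_dvd_prod_of_subset _ _ _ hsPW
  have hcop : (∏ p ∈ s, p).Coprime ps := by
    rcases hps with h | h
    · rw [h]; exact Nat.coprime_one_right _
    · apply Nat.Coprime.prod_left
      intro p hp
      exact (Nat.coprime_primes (hsp p hp) h).2 (mem_PW.1 (hsPW hp)).2.2.2
  have hQl : Real.log ((∏ p ∈ s, p : ℕ) : ℝ) ≤ (Real.log X) ^ (1 / 50 : ℝ) := by
    have e1 := Q_le s hsp ((Real.log X) ^ v) (Real.rpow_nonneg (by linarith) v) fun p hp => (hsr p hp).2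
    have hQr : (0 : ℝ) < ((∏ p ∈ s, p : ℕ) : ℝ) := by exact_mod_cast hQ0
    rw [Real.log_le_iff_le_exp hQr]
    exact e1.trans (Real.exp_le_exp.2 h4)
  have hQr : (0 : ℝ) < ((∏ p ∈ s, p : ℕ) : ℝ) := by exact_mod_cast hQ0
  have hφ : (0 : ℝ) < ((∏ p ∈ s, p : ℕ).totient : ℝ) := by exact_mod_cast Nat.totient_pos.2 hQ0
  have hPPφ : (((∏ p ∈ s, p : ℕ) : ℝ)) ≤ 2 * ((∏ p ∈ s, p : ℕ).totient : ℝ) := by
    unfold PP at hPP
    rw [le_div_iff₀ hQr] at hPP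
    linarith
  refine ⟨s, hsp, hsr, by linarith [h8.1], by linarith [h8.2], hPP, fun N N' hN hNN' hN' => ?_⟩
  obtain ⟨g1, g2, g3⟩ := h3 (∏ p ∈ s, p) hsq hQl hcop hPPφ N N' hN hNN' hN'
  refine ⟨g1, g2, fun a ha haB => ?_⟩
  apply h1 s hsp hPP (EW N N' (∏ p ∈ s, p)) _ (EW_mul N N' _) (EW_thw N N' _) _ a ha haB
  · intro f g hfg
    apply EW_mono
    intro n hn
    rw [mem_mult] at hn
    have e1 : (N : ℝ) < n := by exact_mod_cast hn.1.1
    have e2 : (n : ℝ) ≤ N' := by exact_mod_cast hn.1.2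
    exact hfg n (by linarith) (by linarith)
  · intro h hh
    have := g3 h (hh.trans h5)
    have e1 : (PP s)⁻¹ = ((∏ p ∈ s, p : ℕ) : ℝ) / ((∏ p ∈ s, p : ℕ).totient : ℝ) := by
      unfold PP
      rw [inv_div]
    rw [e1]
    exact this

end Pool.Agent.W5h22.DM
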