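import Pool.Agent.W5h22.DM.E
import Pool.Agent.Y949.DK.SV
import Pool.Agent.Y185.DK.Avg

/-! The second moment of `R_a` over the multiples of `Q` in a window. -/

set_option autoImplicit false

open Finset Filter Topology

namespace Pool.Agent.W5h22.DM

open Pool.Agent.H378R2 Pool.Agent.W5h22.JM Pool.Agent.H510R2.Maier Pool.Agent.Y851.DK

theorem sg_zero : sg 0 = 0 := by unfold sg; simp

theorem sg_mul (a b : ℕ) : sg (a * b) ≤ sg a + sg b := by
  rcases Nat.eq_zero_or_pos a with h | ha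
  · rw [h, zero_mul, sg_zero, zero_add]
    unfold sg
    exact sum_nonneg fun p _ => by positivity
  rcases Nat.eq_zero_or_pos b with h | hb
  · rw [h, mul_zero, sg_zero, add_zero]
    unfold sg
    exact sum_nonneg fun p _ => by positivity
  unfold sg
  rw [Nat.primeFactors_mul ha.ne' hb.ne']
  calc ∑ p ∈ a.primeFactors ∪ b.primeFactors, (1 : ℝ) / p ≤
      ∑ p ∈ a.primeFactors ∪ b.primeFactors, (1 : ℝ) / p + ∑ p ∈ a.primeFactors ∩ b.primeFactors, (1 : ℝ) / p :=
        le_add_of_nonneg_right (sum_nonneg fun p _ => by positivity)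
    _ = _ := sum_union_inter

theorem sg_nonneg (a : ℕ) : 0 ≤ sg a := by
  unfold sg
  exact sum_nonneg fun p _ => by positivity

theorem sum_sg (c : ℝ) (hc : 0 < c) : ∃ C : ℝ, 1 ≤ C ∧ ∀ᶠ H : ℕ in atTop, ∑ x ∈ Icc 1 H, Real.exp (c * sg x) ≤ C * H := by
  obtain ⟨C, hC, h⟩ := Pool.Agent.Y185.DK.AV.t_AVG c 1 hc one_pos
  refine ⟨C, hC, ?_⟩
  filter_upwards [tendsto_natCast_atTop_atTop.eventually h, eventually_ge_atTop 1] with H h1 h2
  have hH : (1 : ℝ) ≤ H := by exact_mod_cast h2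
  have h3 := h1 H (by rw [Real.rpow_one]) le_rfl 1 0 le_rfl (by
    simp only [Nat.cast_one]
    nlinarith) (by simp only [Nat.cast_zero]; positivity)
  refine le_trans (le_of_eq (sum_congr rfl fun x _ => ?_)) h3
  congr 2
  unfold sg sgn
  have e1 : ((((1 : ℕ) : ℤ) * (x : ℤ) - ((0 : ℕ) : ℤ)).natAbs) = x := by simp
  rw [e1]
  congr 1
  symm
  apply filter_true_of_mem
  intro p hp hd
  have := (Nat.prime_of_mem_primeFactors hp).one_lt
  have := Nat.le_of_dvd one_pos hd
  omega

/-- the pairs at bounded distance -/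
theorem pair_sum (c : ℝ) (hc : 0 < c) : ∃ C : ℝ, 1 ≤ C ∧ ∀ᶠ H : ℕ in atTop,
    ∑ h1 ∈ Icc 1 H, ∑ h2 ∈ (Icc 1 H).erase h1, Real.exp (c * sg ((h2 : ℤ) - h1).natAbs) ≤ C * (H : ℝ) ^ 2 := by
  obtain ⟨C, hC, h⟩ := sum_sg c hc
  refine ⟨2 * C, by linarith, ?_⟩
  filter_upwards [h] with H hH
  have h1 : ∀ h1 ∈ Icc 1 H, ∑ h2 ∈ (Icc 1 H).erase h1, Real.exp (c * sg ((h2 : ℤ) - h1).natAbs) ≤
      2 * ∑ x ∈ Icc 1 H, Real.exp (c * sg x) := by
    intro h1 hh1
    rw [mem_Icc] at hh1
    have e1 : (Icc 1 H).erase h1 = Ico 1 h1 ∪ Ioc h1 H := by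
      ext x
      rw [mem_erase, mem_Icc, mem_union, mem_Ico, mem_Ioc]
      omega
    have e2 : Disjoint (Ico 1 h1) (Ioc h1 H) := by
      rw [disjoint_left]
      intro x hx hx2
      rw [mem_Ico] at hx
      rw [mem_Ioc] at hx2
      omega
    rw [e1, sum_union e2, two_mul]
    apply add_le_add
    · have e3 : ∑ x ∈ Ico 1 h1, Real.exp (c * sg ((x : ℤ) - h1).natAbs) = ∑ y ∈ Ico 1 h1, Real.exp (c * sg y) := by
        apply sum_nbij' (fun x => h1 - x) (fun y => h1 - y)
        · intro x hx; rw [mem_Ico] at hx ⊢; omega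
        · intro x hx; rw [mem_Ico] at hx ⊢; omega
        · intro x hx; rw [mem_Ico] at hx; omega
        · intro x hx; rw [mem_Ico] at hx; omega
        · intro x hx
          rw [mem_Ico] at hx
          congr 3
          omega
      rw [e3]
      apply sum_le_sum_of_subset_of_nonneg
      · intro x hx; rw [mem_Ico] at hx; rw [mem_Icc]; omega
      · intro _ _ _; exact (Real.exp_pos _).le
    · have e3 : ∑ x ∈ Ioc h1 H, Real.exp (c * sg ((x : ℤ) - h1).natAbs) = ∑ y ∈ Icc 1 (H - h1), Real.exp (c * sg y) := by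
        apply sum_nbij' (fun x => x - h1) (fun y => y + h1)
        · intro x hx; rw [mem_Ioc] at hx; rw [mem_Icc]; omega
        · intro x hx; rw [mem_Icc] at hx; rw [mem_Ioc]; omega
        · intro x hx; rw [mem_Ioc] at hx; omega
        · intro x hx; rw [mem_Icc] at hx; omega
        · intro x hx
          rw [mem_Ioc] at hx
          congr 3
          omega
      rw [e3]
      apply sum_le_sum_of_subset_of_nonneg
      · intro x hx; rw [mem_Icc] at hx ⊢; omega
      · intro _ _ _; exact (Real.exp_pos _).le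
  refine (sum_le_sum h1).trans ?_
  rw [sum_const, Nat.card_Icc, Nat.add_sub_cancel, nsmul_eq_mul]
  have hH0 : (0 : ℝ) ≤ H := Nat.cast_nonneg H
  nlinarith

theorem mult_count (N N' Q : ℕ) (hN : N ≤ N') (hQ : 0 < Q) (P : ℕ → Prop) [DecidablePred P] :
    ((mult N N' Q).filter P).card = ((Icc 1 (mult N N' Q).card).filter (fun k => P (Q * (N / Q + k)))).card := by
  have hcard : (mult N N' Q).card = N' / Q - N / Q := by
    have h0 : (Ioc 0 N').filter (fun m => Q ∣ m) = (Ioc 0 N).filter (fun m => Q ∣ m) ∪ mult N N' Q := by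
      unfold mult
      rw [← filter_union, Ioc_union_Ioc_eq_Ioc (Nat.zero_le _) hN]
    have hd : Disjoint ((Ioc 0 N).filter (fun m => Q ∣ m)) (mult N N' Q) := by
      rw [disjoint_left]
      intro x hx hx2
      unfold mult at hx2
      rw [mem_filter, mem_Ioc] at hx hx2
      omega
    have h1 := congrArg card h0
    rw [card_union_of_disjoint hd, Nat.Ioc_filter_dvd_card_eq_div, Nat.Ioc_filter_dvd_card_eq_div] at h1
    omega
  rw [hcard]
  have hle : N / Q ≤ N' / Q := Nat.div_le_div_right hN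
  symm
  apply card_bij (fun k _ => Q * (N / Q + k))
  · intro k hk
    rw [mem_filter, mem_Icc] at hk
    rw [mem_filter, mem_mult]
    refine ⟨⟨⟨?_, ?_⟩, dvd_mul_right _ _⟩, hk.2⟩
    · have h1 := Nat.div_add_mod N Q
      have h2 := Nat.mod_lt N hQ
      have h3 : Q * (N / Q + 1) ≤ Q * (N / Q + k) := Nat.mul_le_mul_left _ (by omega)
      rw [Nat.mul_add, mul_one] at h3
      omega
    · have h3 : Q * (N / Q + k) ≤ Q * (N' / Q) := Nat.mul_le_mul_left _ (by omega)
      exact h3.trans (Nat.mul_div_le N' Q)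
  · intro a _ b _ h
    have := Nat.eq_of_mul_eq_mul_left hQ h
    omega
  · intro m hm
    rw [mem_filter, mem_mult] at hm
    obtain ⟨⟨⟨h1, h2⟩, ⟨j, rfl⟩⟩, h3⟩ := hm
    have e1 : N / Q < j := by
      rw [Nat.div_lt_iff_lt_mul hQ, mul_comm]
      exact h1
    have e2 : j ≤ N' / Q := by
      rw [Nat.le_div_iff_mul_le hQ, mul_comm]
      exact h2
    have e3 : N / Q + (j - N / Q) = j := by omega
    refine ⟨j - N / Q, ?_, by rw [e3]⟩
    rw [mem_filter, mem_Icc, e3]
    exact ⟨by omega, h3⟩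

end Pool.Agent.W5h22.DM
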