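import Pool.Agent.W5h22.DM.F

/-! The second moment of `R_a` over the multiples of `Q` in a window, part 2. -/

set_option autoImplicit false

open Finset Filter Topology

namespace Pool.Agent.W5h22.DM

open Pool.Agent.H378R2 Pool.Agent.W5h22.JM Pool.Agent.H510R2.Maier Pool.Agent.Y851.DK

theorem sieve1 : ∃ C : ℝ, 1 ≤ C ∧ ∀ᶠ Y : ℕ in atTop, ∀ Q m0 h : ℕ, 0 < Q → sg Q ≤ 1 / 2 →
    (((Icc 1 Y).filter (fun k => (Q * (m0 + k) + h).Prime)).card : ℝ) ≤ C * (Y / Real.log Y) := by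
  obtain ⟨C, hC, hev⟩ := Pool.Agent.Y949.DK.t_SV 1
  refine ⟨C * Real.exp C, ?_, ?_⟩
  · have := Real.one_le_exp (show 0 ≤ C by linarith)
    nlinarith
  filter_upwards [tendsto_natCast_atTop_atTop.eventually hev, eventually_ge_atTop 1] with Y h1 h2 Q m0 h hQ hsg
  have hY0 : 0 ≤ (Y : ℝ) / Real.log Y := div_nonneg (Nat.cast_nonneg _) (Real.log_natCast_nonneg _)
  have h3 := h1 {((Q : ℤ), (Q * m0 + h : ℤ))} (card_singleton _) (by
    intro f hf
    rw [mem_singleton] at hf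
    rw [hf]
    show (Q : ℤ) ≠ 0
    exact_mod_cast hQ.ne') (by
    intro f hf g hg hfg
    rw [mem_singleton] at hf hg
    exact absurd (hf.trans hg.symm) hfg)
  rw [Nat.floor_natCast, sum_singleton, sum_singleton, sum_singleton, pow_one] at h3
  have e1 : (((Q : ℤ), (Q * m0 + h : ℤ)).1 * ((Q : ℤ), (Q * m0 + h : ℤ)).2 - ((Q : ℤ), (Q * m0 + h : ℤ)).1 * ((Q : ℤ), (Q * m0 + h : ℤ)).2).natAbs = 0 := by
    simp
  rw [e1, sg_zero, add_zero] at h3
  have e2 : (Icc 1 Y).filter (fun k => (Q * (m0 + k) + h).Prime) =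
      (Icc 1 Y).filter (fun n : ℕ => ∀ f ∈ ({((Q : ℤ), (Q * m0 + h : ℤ))} : Finset (ℤ × ℤ)), (f.1 * (n : ℤ) + f.2).toNat.Prime) := by
    apply filter_congr
    intro k _
    have e3 : ((Q : ℤ) * (k : ℤ) + (Q * m0 + h : ℤ)).toNat = Q * (m0 + k) + h := by
      have : (Q : ℤ) * (k : ℤ) + (Q * m0 + h : ℤ) = ((Q * (m0 + k) + h : ℕ) : ℤ) := by push_cast; ring
      rw [this, Int.toNat_natCast]
    constructor
    · intro hp f hf
      rw [mem_singleton] at hf
      rw [hf, e3]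
      exact hp
    · intro hp
      have := hp _ (mem_singleton_self _)
      rw [e3] at this
      exact this
  rw [e2]
  refine h3.trans ?_
  apply mul_le_mul_of_nonneg_right _ hY0
  apply mul_le_mul_of_nonneg_left _ (by linarith)
  apply Real.exp_le_exp.2
  have e4 : sg ((Q : ℤ), (Q * m0 + h : ℤ)).1.natAbs = sg Q := by simp
  rw [e4]
  nlinarith

theorem sieve2 : ∃ C : ℝ, 1 ≤ C ∧ ∀ᶠ Y : ℕ in atTop, ∀ Q m0 h1 h2 : ℕ, 0 < Q → sg Q ≤ 1 / 2 → h1 ≠ h2 →
    (((Icc 1 Y).filter (fun k => (Q * (m0 + k) + h1).Prime ∧ (Q * (m0 + k) + h2).Prime)).card : ℝ) ≤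
      C * Real.exp (C * sg ((h2 : ℤ) - h1).natAbs) * (Y / Real.log Y ^ 2) := by
  obtain ⟨C, hC, hev⟩ := Pool.Agent.Y949.DK.t_SV 2
  refine ⟨C * Real.exp (2 * C) + 2 * C, ?_, ?_⟩
  · have := Real.exp_pos (2 * C)
    nlinarith
  filter_upwards [tendsto_natCast_atTop_atTop.eventually hev, eventually_ge_atTop 1] with Y hY h2' Q m0 h1 h2 hQ hsg hne
  have hY0 : 0 ≤ (Y : ℝ) / Real.log Y ^ 2 := div_nonneg (Nat.cast_nonneg _) (by positivity)
  set f1 : ℤ × ℤ := ((Q : ℤ), (Q * m0 + h1 : ℤ)) with hf1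
  set f2 : ℤ × ℤ := ((Q : ℤ), (Q * m0 + h2 : ℤ)) with hf2
  have hff : f1 ≠ f2 := by
    intro h
    have := congrArg Prod.snd h
    simp only [hf1, hf2] at this
    omega
  have hd12 : f1.1 * f2.2 - f2.1 * f1.2 = (Q : ℤ) * ((h2 : ℤ) - h1) := by
    simp only [hf1, hf2]; ring
  have hd21 : f2.1 * f1.2 - f1.1 * f2.2 = -((Q : ℤ) * ((h2 : ℤ) - h1)) := by
    simp only [hf1, hf2]; ring
  have hdne : (Q : ℤ) * ((h2 : ℤ) - h1) ≠ 0 := by
    apply mul_ne_zero
    · exact_mod_cast hQ.ne'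
    · omega
  have h3 := hY {f1, f2} (card_pair hff) (by
    intro f hf
    rw [mem_insert, mem_singleton] at hf
    have hQz : (Q : ℤ) ≠ 0 := by exact_mod_cast hQ.ne'
    rcases hf with h | h <;> rw [h] <;> exact hQz) (by
    intro f hf g hg hfg
    rw [mem_insert, mem_singleton] at hf hg
    rcases hf with h | h <;> rcases hg with h' | h'
    · exact absurd (h.trans h'.symm) hfg
    · rw [h, h', hd12]; exact hdne
    · rw [h, h', hd21]; exact neg_ne_zero.2 hdne
    · exact absurd (h.trans h'.symm) hfg)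
  rw [Nat.floor_natCast, sum_pair hff, sum_pair hff, sum_pair hff, sum_pair hff, sub_self, sub_self, hd12, hd21, Int.natAbs_neg,
    Int.natAbs_mul, Int.natAbs_zero, sg_zero] at h3
  have e4 : sg f1.1.natAbs = sg Q := by simp [hf1]
  have e6 : (Q : ℤ).natAbs = Q := Int.natAbs_natCast Q
  have e5 : sg f2.1.natAbs = sg Q := by simp [hf2]
  simp only [e4, e5, e6] at h3
  have e7 := sg_mul Q ((h2 : ℤ) - h1).natAbs
  have e8 := sg_nonneg ((h2 : ℤ) - h1).natAbs
  have e2 : (Icc 1 Y).filter (fun k => (Q * (m0 + k) + h1).Prime ∧ (Q * (m0 + k) + h2).Prime) =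
      (Icc 1 Y).filter (fun n : ℕ => ∀ f ∈ ({f1, f2} : Finset (ℤ × ℤ)), (f.1 * (n : ℤ) + f.2).toNat.Prime) := by
    apply filter_congr
    intro k _
    have e3 : ∀ h : ℕ, ((Q : ℤ) * (k : ℤ) + (Q * m0 + h : ℤ)).toNat = Q * (m0 + k) + h := by
      intro h
      have : (Q : ℤ) * (k : ℤ) + (Q * m0 + h : ℤ) = ((Q * (m0 + k) + h : ℕ) : ℤ) := by push_cast; ring
      rw [this, Int.toNat_natCast]
    constructor
    · intro hp f hf
      rw [mem_insert, mem_singleton] at hf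
      rcases hf with h | h
      · rw [h, hf1]; simp only; rw [e3]; exact hp.1
      · rw [h, hf2]; simp only; rw [e3]; exact hp.2
    · intro hp
      have q1 := hp f1 (mem_insert_self _ _)
      have q2 := hp f2 (mem_insert_of_mem (mem_singleton_self _))
      simp only [hf1, hf2, e3] at q1 q2
      exact ⟨q1, q2⟩
  rw [e2]
  refine h3.trans ?_
  apply mul_le_mul_of_nonneg_right _ hY0
  set S := sg ((h2 : ℤ) - h1).natAbs with hS
  calc C * Real.exp (C * (sg Q + sg Q + (0 + sg (Q * ((h2 : ℤ) - h1).natAbs) + (sg (Q * ((h2 : ℤ) - h1).natAbs) + 0)))) ≤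
      C * Real.exp (2 * C + 2 * C * S) := by
        apply mul_le_mul_of_nonneg_left _ (by linarith)
        apply Real.exp_le_exp.2
        nlinarith
    _ = (C * Real.exp (2 * C)) * Real.exp (2 * C * S) := by rw [Real.exp_add]; ring
    _ ≤ (C * Real.exp (2 * C) + 2 * C) * Real.exp ((C * Real.exp (2 * C) + 2 * C) * S) := by
        have q1 := Real.exp_pos (2 * C)
        apply mul_le_mul (by linarith) _ (Real.exp_pos _).le (by positivity)
        apply Real.exp_le_exp.2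
        apply mul_le_mul_of_nonneg_right _ e8
        nlinarith

end Pool.Agent.W5h22.DM
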