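import Pool.Agent.W5h22.DM.G

/-! The second moment of `R_a` over the multiples of `Q` in a window, part 3. -/

set_option autoImplicit false

open Finset Filter Topology

namespace Pool.Agent.W5h22.DM

open Pool.Agent.H378R2 Pool.Agent.W5h22.JM Pool.Agent.H510R2.Maier Pool.Agent.Y851.DK

/-- number of primes at distance at most `H` -/
noncomputable def ww (H n : ℕ) : ℝ := ∑ h ∈ Icc 1 H, if (n + h).Prime then (1 : ℝ) else 0

theorem ww_nonneg (H n : ℕ) : 0 ≤ ww H n := sum_nonneg fun h _ => by split_ifs <;> norm_num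

theorem sum_ww_sq (S : Finset ℕ) (H : ℕ) : ∑ n ∈ S, ww H n ^ 2 =
    ∑ h ∈ Icc 1 H, ((S.filter (fun n => (n + h).Prime)).card : ℝ) +
    ∑ h1 ∈ Icc 1 H, ∑ h2 ∈ (Icc 1 H).erase h1, ((S.filter (fun n => (n + h1).Prime ∧ (n + h2).Prime)).card : ℝ) := by
  have e1 : ∀ n, ww H n ^ 2 = ∑ h1 ∈ Icc 1 H, ∑ h2 ∈ Icc 1 H, if (n + h1).Prime ∧ (n + h2).Prime then (1 : ℝ) else 0 := by
    intro n
    unfold ww
    rw [sq, sum_mul_sum]
    refine sum_congr rfl fun h1 _ => sum_congr rfl fun h2 _ => ?_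
    by_cases q1 : (n + h1).Prime <;> by_cases q2 : (n + h2).Prime <;> simp [q1, q2]
  rw [sum_congr rfl fun n _ => e1 n, sum_comm, ← sum_add_distrib]
  refine sum_congr rfl fun h1 hh1 => ?_
  rw [sum_comm, ← add_sum_erase _ _ hh1]
  congr 1
  · rw [← sum_filter, sum_const, nsmul_eq_mul, mul_one]
    congr 2
    apply filter_congr
    intro n _
    exact and_self_iff
  · refine sum_congr rfl fun h2 _ => ?_
    rw [← sum_filter, sum_const, nsmul_eq_mul, mul_one]

theorem second (B : ℕ) : ∃ C : ℝ, 0 < C ∧ ∀ᶠ X : ℝ in atTop, ∀ Q N N' : ℕ, 0 < Q → sg Q ≤ 1 / 2 → N ≤ N' → X ≤ N → N' ≤ 2 * X →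
    Real.sqrt X ≤ (mult N N' Q).card → ∀ a : ℝ, 1 ≤ a → a ≤ B → EW N N' Q (fun n => ratio a n ^ 2) ≤ C := by
  obtain ⟨C1, hC1, ev1⟩ := sieve1
  obtain ⟨C2, hC2, ev2⟩ := sieve2
  obtain ⟨C3, hC3, ev3⟩ := pair_sum C2 (by linarith)
  refine ⟨2 ^ (B + 1) * C1 + 4 ^ (B + 1) * C2 * C3, by positivity, ?_⟩
  obtain ⟨Y0, hY0⟩ := eventually_atTop.1 (ev1.and ev2)
  obtain ⟨H0, hH0⟩ := eventually_atTop.1 ev3
  have evs : ∀ᶠ X : ℝ in atTop, (Y0 : ℝ) ≤ Real.sqrt X := Real.tendsto_sqrt_atTop.eventually_ge_atTop _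
  filter_upwards [evs, Real.tendsto_log_atTop.eventually_ge_atTop ((H0 : ℝ) + 2), eventually_ge_atTop (4 : ℝ)] with
    X g1 g2 g3 Q N N' hQ hsg hNN hN hN' hc a ha haB
  have hX0 : 0 < X := by linarith
  set L := Real.log X with hL
  have hH00 : (0 : ℝ) ≤ H0 := Nat.cast_nonneg _
  have hL0 : 0 < L := by linarith
  set c := (mult N N' Q).card with hcdef
  have hsX : 0 < Real.sqrt X := Real.sqrt_pos.2 hX0
  have hc0 : (0 : ℝ) < c := by linarith
  have hcY : Y0 ≤ c := by exact_mod_cast g1.trans hc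
  obtain ⟨s1, s2⟩ := hY0 c hcY
  have hlogc : L / 2 ≤ Real.log c := by
    have e1 : Real.log (Real.sqrt X) = L / 2 := by rw [Real.log_sqrt hX0.le]
    rw [← e1]
    exact Real.log_le_log hsX hc
  set H := ⌊(2 * L) ^ a⌋₊ with hH
  have h2La : 2 * L ≤ (2 * L) ^ a := by
    calc 2 * L = (2 * L) ^ (1 : ℝ) := (Real.rpow_one _).symm
      _ ≤ _ := Real.rpow_le_rpow_of_exponent_le (by linarith) ha
  have hHH0 : H0 ≤ H := by
    apply Nat.le_floor
    linarith
  have hHle : (H : ℝ) ≤ 2 ^ B * L ^ a := by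
    calc (H : ℝ) ≤ (2 * L) ^ a := Nat.floor_le (by positivity)
      _ = 2 ^ a * L ^ a := Real.mul_rpow (by norm_num) hL0.le
      _ ≤ 2 ^ B * L ^ a := by
          apply mul_le_mul_of_nonneg_right _ (by positivity)
          calc (2 : ℝ) ^ a ≤ 2 ^ (B : ℝ) := Real.rpow_le_rpow_of_exponent_le (by norm_num) haB
            _ = 2 ^ B := Real.rpow_natCast _ _
  have hLa : 0 < L ^ a := Real.rpow_pos_of_pos hL0 a
  have hLLa : L ≤ L ^ a := by
    calc L = L ^ (1 : ℝ) := (Real.rpow_one _).symm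
      _ ≤ _ := Real.rpow_le_rpow_of_exponent_le (by linarith) ha
  -- pointwise
  have hpt : ∀ n ∈ mult N N' Q, ratio a n ^ 2 ≤ (L / L ^ a) ^ 2 * ww H n ^ 2 := by
    intro n hn
    rw [mem_mult] at hn
    have hn1 : (N : ℝ) < n := by exact_mod_cast hn.1.1
    have hn2 : (n : ℝ) ≤ N' := by exact_mod_cast hn.1.2
    have hn0 : (0 : ℝ) < n := by linarith
    have l1 : L ≤ Real.log n := Real.log_le_log hX0 (by linarith)
    have l2 : Real.log n ≤ 2 * L := by
      calc Real.log n ≤ Real.log (X * X) := Real.log_le_log hn0 (by nlinarith)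
        _ = 2 * L := by rw [Real.log_mul hX0.ne' hX0.ne']; ring
    have l0 : 0 < Real.log n := by linarith
    rw [← mul_pow]
    apply pow_le_pow_left₀ (ratio_bd a n).1
    rw [ratio_nat]
    apply mul_le_mul
    · rw [div_le_div_iff₀ (Real.rpow_pos_of_pos l0 a) hLa]
      -- log n * L^a ≤ L * (log n)^a
      have e1 : (Real.log n / L) ≤ (Real.log n / L) ^ a := by
        calc (Real.log n / L) = (Real.log n / L) ^ (1 : ℝ) := (Real.rpow_one _).symm
          _ ≤ _ := Real.rpow_le_rpow_of_exponent_le (by rw [le_div_iff₀ hL0]; linarith) ha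
      rw [Real.div_rpow l0.le hL0.le, div_le_div_iff₀ hL0 hLa] at e1
      linarith
    · unfold ww
      apply sum_le_sum_of_subset_of_nonneg
      · apply Icc_subset_Icc_right
        apply Nat.floor_le_floor
        exact Real.rpow_le_rpow l0.le l2 (by linarith)
      · intro h _ _
        split_ifs <;> norm_num
    · exact sum_nonneg fun h _ => by split_ifs <;> norm_num
    · positivity
  have hsum : ∑ n ∈ mult N N' Q, ww H n ^ 2 ≤ H * (C1 * (c / Real.log c)) + C2 * (c / Real.log c ^ 2) * (C3 * (H : ℝ) ^ 2) := by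
    rw [sum_ww_sq]
    apply add_le_add
    · calc ∑ h ∈ Icc 1 H, (((mult N N' Q).filter (fun n => (n + h).Prime)).card : ℝ) ≤ ∑ _h ∈ Icc 1 H, C1 * (c / Real.log c) := by
            refine sum_le_sum fun h _ => ?_
            rw [mult_count N N' Q hNN hQ]
            exact s1 Q (N / Q) h hQ hsg
        _ = _ := by rw [sum_const, Nat.card_Icc, Nat.add_sub_cancel, nsmul_eq_mul]
    · calc _ ≤ ∑ h1 ∈ Icc 1 H, ∑ h2 ∈ (Icc 1 H).erase h1, C2 * Real.exp (C2 * sg ((h2 : ℤ) - h1).natAbs) * (c / Real.log c ^ 2) := by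
            refine sum_le_sum fun h1 _ => sum_le_sum fun h2 hh2 => ?_
            rw [mult_count N N' Q hNN hQ]
            exact s2 Q (N / Q) h1 h2 hQ hsg (by rw [mem_erase] at hh2; exact fun h => hh2.1 h.symm)
        _ = C2 * (c / Real.log c ^ 2) * ∑ h1 ∈ Icc 1 H, ∑ h2 ∈ (Icc 1 H).erase h1, Real.exp (C2 * sg ((h2 : ℤ) - h1).natAbs) := by
            rw [mul_sum]
            refine sum_congr rfl fun h1 _ => ?_
            rw [mul_sum]
            refine sum_congr rfl fun h2 _ => ?_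
            ring
        _ ≤ _ := mul_le_mul_of_nonneg_left (hH0 H hHH0) (by positivity)
  unfold EW
  rw [← hcdef, div_le_iff₀ hc0]
  refine (sum_le_sum hpt).trans ?_
  rw [← mul_sum]
  have hl0 : 0 < Real.log c := by linarith
  have e1 : (c : ℝ) / Real.log c ≤ 2 * c / L := by
    rw [div_le_div_iff₀ hl0 hL0]
    nlinarith
  have e2 : (c : ℝ) / Real.log c ^ 2 ≤ 4 * c / L ^ 2 := by
    rw [div_le_div_iff₀ (by positivity) (by positivity)]
    have : (L / 2) ^ 2 ≤ Real.log c ^ 2 := pow_le_pow_left₀ (by linarith) hlogc 2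
    nlinarith
  have e3 : (L / L ^ a) ^ 2 * ∑ n ∈ mult N N' Q, ww H n ^ 2 ≤
      (L / L ^ a) ^ 2 * ((2 ^ B * L ^ a) * (C1 * (2 * c / L)) + C2 * (4 * c / L ^ 2) * (C3 * (2 ^ B * L ^ a) ^ 2)) := by
    apply mul_le_mul_of_nonneg_left _ (by positivity)
    refine hsum.trans ?_
    gcongr
  refine e3.trans ?_
  have e4 : (L / L ^ a) ^ 2 * ((2 ^ B * L ^ a) * (C1 * (2 * c / L)) + C2 * (4 * c / L ^ 2) * (C3 * (2 ^ B * L ^ a) ^ 2)) =
      2 ^ (B + 1) * C1 * c * (L / L ^ a) + 4 ^ (B + 1) * C2 * C3 * c := by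
    have e5 : (4 : ℝ) ^ (B + 1) = 4 * (2 ^ B) ^ 2 := by
      rw [← pow_mul, mul_comm B 2, pow_mul, pow_succ]
      norm_num
      ring
    rw [e5]
    field_simp
    ring
  rw [e4]
  have e6 : L / L ^ a ≤ 1 := by rw [div_le_one hLa]; exact hLLa
  have e7 : 2 ^ (B + 1) * C1 * c * (L / L ^ a) ≤ 2 ^ (B + 1) * C1 * c * 1 := mul_le_mul_of_nonneg_left e6 (by positivity)
  linarith

end Pool.Agent.W5h22.DM
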