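import Pool.Agent.W5h22.DM.H

/-! A positive proportion of the multiples of `Q` in every window have a large value. -/

set_option autoImplicit false

open Finset Filter Topology MeasureTheory

namespace Pool.Agent.W5h22.DM

open Pool.Agent.H378R2 Pool.Agent.W5h22.JM Pool.Agent.H510R2.Maier Pool.Agent.Y851.DK

/-- the signed average -/
noncomputable def ff (μ ν : Measure ℝ) (x : ℝ) : ℝ := ∫ a, ratio a x ∂μ - ∫ a, ratio a x ∂ν

theorem EW_int (N N' Q : ℕ) (μ : Measure ℝ) (g : ℝ → ℕ → ℝ) (hg : ∀ n, Integrable (fun a => g a n) μ) :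
    EW N N' Q (fun n => ∫ a, g a n ∂μ) = ∫ a, EW N N' Q (fun n => g a n) ∂μ ∧
    Integrable (fun a => EW N N' Q (fun n => g a n)) μ := by
  constructor
  · unfold EW
    rw [integral_div, integral_finsetSum _ fun n _ => hg n]
  · unfold EW
    exact (integrable_finsetSum _ fun n _ => hg n).div_const _

theorem ratio_sq_int (n : ℕ) (μ : Measure ℝ) [IsFiniteMeasure μ] : Integrable (fun a => ratio a n ^ 2) μ := by
  refine Integrable.of_bound ((ratio_meas n).pow_const 2).aestronglyMeasurable (Real.log n ^ 2) (Eventually.of_forall fun a => ?_)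
  obtain ⟨h1, h2⟩ := ratio_bd a n
  rw [Real.norm_eq_abs, abs_of_nonneg (by positivity)]
  exact pow_le_pow_left₀ h1 h2 2

theorem sg_prod (s : Finset ℕ) (hs : ∀ p ∈ s, p.Prime) : sg (∏ p ∈ s, p) = ee s 1 := by
  unfold sg
  rw [ee_one, Nat.primeFactors_prod hs]
  exact sum_congr rfl fun p _ => one_div _

theorem good_prop (A B : ℝ) (hA : 1 < A) (μ ν lam : Measure ℝ) [IsFiniteMeasure μ] [IsFiniteMeasure ν] [IsFiniteMeasure lam]
    (hμ : μ (Set.Icc A B)ᶜ = 0) (hν : ν (Set.Icc A B)ᶜ = 0) (hlam : lam (Set.Icc A B)ᶜ = 0) (hne : μ ≠ ν)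
    (ε0 : ℝ) (hε0 : 0 < ε0) :
    ∃ δ p0 K1 : ℝ, 0 < δ ∧ 0 < p0 ∧ 0 < K1 ∧ ∀ κ : ℝ, 0 < κ → ∀ K0 : ℝ, ∀ᶠ X : ℝ in atTop, ∃ Q : ℕ, 1 ≤ Q ∧ K0 ≤ Q ∧
      (Q : ℝ) ≤ Real.exp ((Real.log X) ^ ε0) ∧
      ∀ N N' : ℕ, X ≤ N → N + κ * X ≤ N' → N' ≤ 2 * X → p0 * ((N' - N) / Q) ≤
        (((mult N N' Q).filter (fun m : ℕ => μ.real Set.univ - ν.real Set.univ + δ ≤ ff μ ν m ∧
          ∫ a, ratio a m ∂lam ≤ K1)).card : ℝ) := by
  classical
  have hsub : Set.Iio A ⊆ (Set.Icc A B)ᶜ := by
    intro x hx h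
    exact absurd h.1 (not_le.2 hx)
  obtain ⟨u, v, δ, hu, huv, hv, hvε, hδ, hlog, hmodel⟩ := model μ ν A hA (measure_mono_null hsub hμ)
    (measure_mono_null hsub hν) hne (min ε0 (1 / 50)) (by positivity)
  have hv50 : v < 1 / 50 := lt_of_lt_of_le hvε (min_le_right _ _)
  have hvε0 : v < ε0 := lt_of_lt_of_le hvε (min_le_left _ _)
  have hv0 : 0 < v := by linarith
  set σ := μ.real Set.univ + ν.real Set.univ with hσ
  have hμ0 : 0 ≤ μ.real Set.univ := measureReal_nonneg
  have hν0 : 0 ≤ ν.real Set.univ := measureReal_nonneg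
  have hσ0 : 0 ≤ σ := by positivity
  set B' : ℕ := ⌈B⌉₊ with hB'
  have hBB : B ≤ B' := Nat.le_ceil B
  set ε := δ / (2 * (σ + 1)) with hε
  have hεpos : 0 < ε := by positivity
  have hεσ : ε * σ ≤ δ / 2 := by
    calc ε * σ ≤ ε * (σ + 1) := mul_le_mul_of_nonneg_left (by linarith) hεpos.le
      _ = δ / 2 := by rw [hε]; field_simp
  obtain ⟨C, hC, hsec⟩ := second B'
  set K : ℝ := 2 * C * μ.real Set.univ / δ + 1 with hK
  have hK0 : 0 < K := by positivity
  set τ : ℝ := μ.real Set.univ - ν.real Set.univ + δ / 4 with hτ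
  set D : ℝ := K * μ.real Set.univ + |τ| + 1 with hD
  have hD0 : 0 < D := by positivity
  have hlam0 : 0 ≤ lam.real Set.univ := measureReal_nonneg
  set p1 : ℝ := (δ / 8) / D with hp1
  have hp10 : 0 < p1 := by positivity
  set K1 : ℝ := 2 * ((1 + C) * lam.real Set.univ) / p1 + 1 with hK1
  have hK10 : 0 < K1 := by positivity
  refine ⟨δ / 4, p1 / 4, K1, by positivity, by positivity, hK10, fun κ hκ K0 => ?_⟩
  have evK : ∀ᶠ L : ℝ in atTop, K0 ≤ L ^ u := (tendsto_rpow_atTop hu).eventually_ge_atTop _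
  filter_upwards [core2 u v hu huv hv50 hlog B' κ ε hκ hεpos, Real.tendsto_log_atTop.eventually hmodel, hsec,
    eventually_gt_atTop (1 : ℝ), ev_cnt v ε0 1 hv0 hvε0 one_pos, ev_cnt v (1 / 2) (2 / κ) hv0 (by linarith) (by positivity),
    Real.tendsto_log_atTop.eventually_ge_atTop (4 : ℝ), Real.tendsto_log_atTop.eventually evK] with X hcore hmod hsecX hX hcnt1 hcnt2 hL4 hK0X
  obtain ⟨s, hsp, hsr, hs1, hs2, hPP, hwin⟩ := hcore
  have hm := hmod s hsp hsr hs1 hs2
  have hX0 : 0 < X := by linarith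
  set L := Real.log X with hLdef
  have hL : 0 < L := Real.log_pos hX
  set Q := ∏ p ∈ s, p with hQdef
  have hQ1 : 0 < Q := prod_ne s hsp (Subset.refl s)
  have hQ0 : (0 : ℝ) < (Q : ℝ) := by exact_mod_cast hQ1
  have hQ := Q_le s hsp (L ^ v) (Real.rpow_nonneg hL.le v) fun p hp => (hsr p hp).2
  have hlog3 : 0 ≤ Real.log (3 * X) := Real.log_nonneg (by linarith)
  have hE : 0 < Real.exp (2 * L ^ v) := Real.exp_pos _
  have hQa : (Q : ℝ) ≤ Real.exp (L ^ ε0) := by
    refine hQ.trans ?_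
    calc Real.exp (2 * L ^ v) ≤ 1 * (Real.log (3 * X) + 1) * Real.exp (2 * L ^ v) := by
          nlinarith
      _ ≤ _ := hcnt1
  have hsqrt : (2 / κ) * Q ≤ Real.sqrt X := by
    calc (2 / κ) * Q ≤ (2 / κ) * Real.exp (2 * L ^ v) := mul_le_mul_of_nonneg_left hQ (by positivity)
      _ ≤ (2 / κ) * (Real.log (3 * X) + 1) * Real.exp (2 * L ^ v) := by
          apply mul_le_mul_of_nonneg_right _ hE.le
          have : 0 < 2 / κ := by positivity
          nlinarith
      _ ≤ Real.exp (L ^ (1 / 2 : ℝ)) := hcnt2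
      _ ≤ Real.exp (L / 2) := by
          apply Real.exp_le_exp.2
          rw [← Real.sqrt_eq_rpow]
          have h1 := Real.sq_sqrt hL.le
          have h2 : 2 ≤ Real.sqrt L := by
            rw [show (2 : ℝ) = Real.sqrt 4 by rw [show (4 : ℝ) = 2 ^ 2 by norm_num, Real.sqrt_sq (by norm_num)]]
            exact Real.sqrt_le_sqrt hL4
          nlinarith
      _ = Real.sqrt X := by
          rw [Real.sqrt_eq_rpow, Real.rpow_def_of_pos hX0]
          congr 1
          ring
  have hsgQ : sg Q ≤ 1 / 2 := by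
    rw [hQdef, sg_prod s hsp]
    linarith
  have hQK : K0 ≤ Q := by
    have hl0 : 0 < Real.log (v / u) := Real.log_pos (by rw [lt_div_iff₀ hu]; linarith)
    have hne : s.Nonempty := by
      rw [nonempty_iff_ne_empty]
      intro h
      rw [h, ee_one, sum_empty] at hs1
      linarith
    obtain ⟨p, hp⟩ := hne
    have h1 : p ≤ Q := Nat.le_of_dvd hQ1 (by rw [hQdef]; exact dvd_prod_of_mem _ hp)
    have h2 : (p : ℝ) ≤ Q := by exact_mod_cast h1
    linarith [(hsr p hp).1]
  refine ⟨Q, hQ1, hQK, hQa, fun N N' hN hNN' hN' => ?_⟩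
  obtain ⟨g1, g2, hmean⟩ := hwin N N' hN hNN' hN'
  have hNN : N ≤ N' := by
    have : (N : ℝ) ≤ N' := by nlinarith
    exact_mod_cast this
  have hsX : 0 < Real.sqrt X := Real.sqrt_pos.2 hX0
  have hss : Real.sqrt X * Real.sqrt X = X := Real.mul_self_sqrt hX0.le
  have hcs : Real.sqrt X ≤ (mult N N' Q).card := by
    refine le_trans ?_ g1
    rw [le_div_iff₀ (by positivity)]
    have h1 : 2 * Q ≤ κ * Real.sqrt X := by
      have h2 := mul_le_mul_of_nonneg_left hsqrt hκ.le
      have h3 : κ * (2 / κ * Q) = 2 * Q := by field_simp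
      linarith
    calc Real.sqrt X * (2 * Q) ≤ Real.sqrt X * (κ * Real.sqrt X) := mul_le_mul_of_nonneg_left h1 hsX.le
      _ = κ * (Real.sqrt X * Real.sqrt X) := by ring
      _ = κ * X := by rw [hss]
  have hsec' := hsecX Q N N' hQ1 hsgQ hNN hN hN' hcs
  set c : ℝ := ((mult N N' Q).card : ℝ) with hc
  have hc0 : 0 < c := by linarith
  have hae : ∀ ρ : Measure ℝ, ρ (Set.Icc A B)ᶜ = 0 → ∀ᵐ a : ℝ ∂ρ, 1 ≤ a ∧ a ≤ (B' : ℝ) := by
    intro ρ hρ
    have h1 : ∀ᵐ a ∂ρ, a ∈ Set.Icc A B := by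
      rw [ae_iff]
      exact hρ
    filter_upwards [h1] with a ha
    exact ⟨by linarith [ha.1], ha.2.trans hBB⟩
  obtain ⟨iμ1, iμ2⟩ := EW_int N N' Q μ (fun a n => ratio a n) (fun n => ratio_int n μ)
  obtain ⟨iν1, iν2⟩ := EW_int N N' Q ν (fun a n => ratio a n) (fun n => ratio_int n ν)
  obtain ⟨is1, is2⟩ := EW_int N N' Q μ (fun a n => ratio a n ^ 2) (fun n => ratio_sq_int n μ)
  have e1 : ∫ a, cX s L a ∂μ - ε * μ.real Set.univ ≤ ∫ a, EW N N' Q (fun n => ratio a n) ∂μ := by
    have h1 : ∫ a, (cX s L a - ε) ∂μ = ∫ a, cX s L a ∂μ - ε * μ.real Set.univ := by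
      rw [integral_sub (cX_int s hsp _ hL μ) (integrable_const ε), integral_const, smul_eq_mul, mul_comm]
    rw [← h1]
    apply integral_mono_ae ((cX_int s hsp _ hL μ).sub (integrable_const ε)) iμ2
    filter_upwards [hae μ hμ] with a ha
    have := (abs_le.1 (hmean a ha.1 ha.2)).1
    show cX s L a - ε ≤ _
    linarith
  have e2 : ∫ a, EW N N' Q (fun n => ratio a n) ∂ν ≤ ∫ a, cX s L a ∂ν + ε * ν.real Set.univ := by
    have h1 : ∫ a, (cX s L a + ε) ∂ν = ∫ a, cX s L a ∂ν + ε * ν.real Set.univ := by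
      rw [integral_add (cX_int s hsp _ hL ν) (integrable_const ε), integral_const, smul_eq_mul, mul_comm (ν.real _)]
    rw [← h1]
    apply integral_mono_ae iν2 ((cX_int s hsp _ hL ν).add (integrable_const ε))
    filter_upwards [hae ν hν] with a ha
    have := (abs_le.1 (hmean a ha.1 ha.2)).2
    show _ ≤ cX s L a + ε
    linarith
  have e3 : ε * σ = ε * μ.real Set.univ + ε * ν.real Set.univ := by rw [hσ]; ring
  have hfEW : EW N N' Q (fun n => ff μ ν n) = ∫ a, EW N N' Q (fun n => ratio a n) ∂μ - ∫ a, EW N N' Q (fun n => ratio a n) ∂ν := by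
    rw [← iμ1, ← iν1, ← EW_sub]
    rfl
  have e4 : τ + δ / 4 ≤ EW N N' Q (fun n => ff μ ν n) := by
    rw [hfEW]
    linarith
  have e5 : ∫ a, EW N N' Q (fun n => ratio a n ^ 2) ∂μ ≤ C * μ.real Set.univ := by
    have h1 : ∫ _a, C ∂μ = C * μ.real Set.univ := by rw [integral_const, smul_eq_mul, mul_comm]
    rw [← h1]
    apply integral_mono_ae is2 (integrable_const C)
    filter_upwards [hae μ hμ] with a ha
    exact hsec' a ha.1 ha.2
  -- pointwise
  set G := (mult N N' Q).filter (fun m : ℕ => τ ≤ ff μ ν m) with hG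
  have hpt : ∀ n ∈ mult N N' Q, ff μ ν n - τ ≤ (if n ∈ G then D else 0) + (1 / (4 * K)) * ∫ a, ratio a n ^ 2 ∂μ := by
    intro n hn
    have q0 : 0 ≤ (1 / (4 * K)) * ∫ a, ratio a n ^ 2 ∂μ := mul_nonneg (by positivity) (integral_nonneg fun a => sq_nonneg _)
    split_ifs with hnG
    · have q1 : ∫ a, ratio a n ∂μ ≤ ∫ a, (K + (1 / (4 * K)) * ratio a n ^ 2) ∂μ := by
        apply integral_mono (ratio_int n μ) ((integrable_const K).add ((ratio_sq_int n μ).const_mul _))
        intro a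
        show ratio a n ≤ K + (1 / (4 * K)) * ratio a n ^ 2
        have q2 : K + (1 / (4 * K)) * ratio a n ^ 2 - ratio a n = (1 / (4 * K)) * (ratio a n - 2 * K) ^ 2 := by
          field_simp
          ring
        have q3 : 0 ≤ (1 / (4 * K)) * (ratio a n - 2 * K) ^ 2 := by positivity
        linarith
      rw [integral_add (integrable_const K) ((ratio_sq_int n μ).const_mul _), integral_const_mul, integral_const, smul_eq_mul] at q1
      have q2 : 0 ≤ ∫ a, ratio a n ∂ν := integral_nonneg fun a => (ratio_bd a n).1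
      have q3 := neg_abs_le τ
      unfold ff
      rw [hD]
      nlinarith
    · have q1 : ff μ ν n < τ := by
        by_contra hcon
        push Not at hcon
        exact hnG (by rw [hG, mem_filter]; exact ⟨hn, hcon⟩)
      linarith
  have hsum : δ / 4 * c ≤ D * G.card + (1 / (4 * K)) * (C * μ.real Set.univ) * c := by
    have h1 : EW N N' Q (fun n => ff μ ν n) * c = ∑ n ∈ mult N N' Q, ff μ ν n := by
      unfold EW
      rw [← hc]
      field_simp
    have h2 : ∑ n ∈ mult N N' Q, (ff μ ν n - τ) = EW N N' Q (fun n => ff μ ν n) * c - τ * c := by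
      rw [sum_sub_distrib, sum_const, nsmul_eq_mul, ← hc, h1]
      ring
    have h3 : ∑ n ∈ mult N N' Q, ((if n ∈ G then D else 0) + (1 / (4 * K)) * ∫ a, ratio a n ^ 2 ∂μ) =
        D * G.card + (1 / (4 * K)) * (EW N N' Q (fun n => ∫ a, ratio a n ^ 2 ∂μ) * c) := by
      rw [sum_add_distrib, ← mul_sum]
      congr 1
      · rw [← sum_filter, sum_const, nsmul_eq_mul, mul_comm]
        congr 3
        ext n
        rw [mem_filter]
        exact ⟨fun h => h.2, fun h => ⟨(mem_filter.1 h).1, h⟩⟩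
      · congr 1
        unfold EW
        rw [← hc]
        field_simp
    have h4 := sum_le_sum hpt
    rw [h2, h3, is1] at h4
    have h5 : (1 / (4 * K)) * ((∫ a, EW N N' Q (fun n => ratio a n ^ 2) ∂μ) * c) ≤ (1 / (4 * K)) * (C * μ.real Set.univ) * c := by
      rw [mul_assoc]
      apply mul_le_mul_of_nonneg_left _ (by positivity)
      exact mul_le_mul_of_nonneg_right e5 hc0.le
    have h6 : (τ + δ / 4) * c ≤ EW N N' Q (fun n => ff μ ν n) * c := mul_le_mul_of_nonneg_right e4 hc0.le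
    linarith
  have hKC : (1 / (4 * K)) * (C * μ.real Set.univ) ≤ δ / 8 := by
    rw [one_div, inv_mul_le_iff₀ (by positivity)]
    have : 4 * K * (δ / 8) = C * μ.real Set.univ + δ / 2 := by
      rw [hK]; field_simp; ring
    rw [this]
    linarith
  have hfin : δ / 8 * c ≤ D * G.card := by
    have := mul_le_mul_of_nonneg_right hKC hc0.le
    linarith
  have hcard := abs_le.1 (mult_card N N' Q hNN hQ1)
  rw [← hc] at hcard
  have hDQ : 2 ≤ ((N' : ℝ) - N) / Q := by
    rw [le_div_iff₀ hQ0]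
    have h1 : 2 * Q ≤ κ * Real.sqrt X := by
      have h2 := mul_le_mul_of_nonneg_left hsqrt hκ.le
      have h3 : κ * (2 / κ * Q) = 2 * Q := by field_simp
      linarith
    have h2 : Real.sqrt X ≤ X := by
      have h3 : 1 ≤ Real.sqrt X := by
        rw [Real.one_le_sqrt]; exact hX.le
      nlinarith
    nlinarith
  have hc2 : ((N' : ℝ) - N) / Q / 2 ≤ c := by linarith [hcard.1]
  have hGc : (δ / 8) / D * c ≤ G.card := by
    rw [div_mul_eq_mul_div, div_le_iff₀ hD0]
    linarith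
  -- the points with a large value of the third integral
  set Bd := (mult N N' Q).filter (fun m : ℕ => ¬ ∫ a, ratio a m ∂lam ≤ K1) with hBd
  obtain ⟨il1, il2⟩ := EW_int N N' Q lam (fun a n => ratio a n) (fun n => ratio_int n lam)
  have e6 : EW N N' Q (fun n => ∫ a, ratio a n ∂lam) ≤ (1 + C) * lam.real Set.univ := by
    rw [il1]
    have h1 : ∫ _a, (1 + C) ∂lam = (1 + C) * lam.real Set.univ := by rw [integral_const, smul_eq_mul, mul_comm]
    rw [← h1]
    apply integral_mono_ae il2 (integrable_const (1 + C))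
    filter_upwards [hae lam hlam] with a ha
    have h2 := hsec' a ha.1 ha.2
    have h3 : EW N N' Q (fun n => ratio a n) ≤ 1 + EW N N' Q (fun n => ratio a n ^ 2) := by
      unfold EW
      rw [← hc, ← sub_le_iff_le_add, ← sub_div, div_le_one hc0, ← sum_sub_distrib]
      calc ∑ n ∈ mult N N' Q, (ratio a n - ratio a n ^ 2) ≤ ∑ _n ∈ mult N N' Q, (1 : ℝ) := by
            apply sum_le_sum
            intro n _
            nlinarith [sq_nonneg (ratio a n - 1), sq_nonneg (ratio a n)]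
        _ = c := by rw [sum_const, nsmul_eq_mul, mul_one]
    show EW N N' Q (fun n => ratio a n) ≤ 1 + C
    linarith
  have hBdc : K1 * Bd.card ≤ (1 + C) * lam.real Set.univ * c := by
    calc K1 * Bd.card = ∑ _n ∈ Bd, K1 := by rw [sum_const, nsmul_eq_mul, mul_comm]
      _ ≤ ∑ n ∈ Bd, ∫ a, ratio a n ∂lam := by
          apply sum_le_sum
          intro n hn
          rw [hBd, mem_filter, not_le] at hn
          exact hn.2.le
      _ ≤ ∑ n ∈ mult N N' Q, ∫ a, ratio a n ∂lam := by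
          apply sum_le_sum_of_subset_of_nonneg (filter_subset _ _)
          intro n _ _
          exact integral_nonneg fun a => (ratio_bd a n).1
      _ = EW N N' Q (fun n => ∫ a, ratio a n ∂lam) * c := by
          unfold EW
          rw [← hc]
          field_simp
      _ ≤ _ := mul_le_mul_of_nonneg_right e6 hc0.le
  have hBd2 : (Bd.card : ℝ) ≤ p1 / 2 * c := by
    have h1 : (1 + C) * lam.real Set.univ ≤ K1 * (p1 / 2) := by
      rw [hK1]
      have : (2 * ((1 + C) * lam.real Set.univ) / p1 + 1) * (p1 / 2) = (1 + C) * lam.real Set.univ + p1 / 2 := by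
        field_simp
      rw [this]
      linarith
    have h2 : K1 * Bd.card ≤ K1 * (p1 / 2 * c) := by
      calc K1 * Bd.card ≤ (1 + C) * lam.real Set.univ * c := hBdc
        _ ≤ K1 * (p1 / 2) * c := mul_le_mul_of_nonneg_right h1 hc0.le
        _ = _ := by ring
    exact le_of_mul_le_mul_left h2 hK10
  have hGB : (G.card : ℝ) ≤ (((mult N N' Q).filter (fun m : ℕ => μ.real Set.univ - ν.real Set.univ + δ / 4 ≤ ff μ ν m ∧
          ∫ a, ratio a m ∂lam ≤ K1)).card : ℝ) + Bd.card := by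
    have h1 : G ⊆ ((mult N N' Q).filter (fun m : ℕ => μ.real Set.univ - ν.real Set.univ + δ / 4 ≤ ff μ ν m ∧
          ∫ a, ratio a m ∂lam ≤ K1)) ∪ Bd := by
      intro m hm
      rw [hG, mem_filter] at hm
      rw [mem_union, mem_filter, hBd, mem_filter]
      by_cases h : ∫ a, ratio a m ∂lam ≤ K1
      · exact Or.inl ⟨hm.1, hm.2, h⟩
      · exact Or.inr ⟨hm.1, h⟩
    have h2 := (card_le_card h1).trans (card_union_le _ _)
    exact_mod_cast h2
  have hfin2 : p1 / 2 * c ≤ (((mult N N' Q).filter (fun m : ℕ => μ.real Set.univ - ν.real Set.univ + δ / 4 ≤ ff μ ν m ∧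
          ∫ a, ratio a m ∂lam ≤ K1)).card : ℝ) := by linarith
  calc p1 / 4 * (((N' : ℝ) - N) / Q) = p1 / 2 * (((N' : ℝ) - N) / Q / 2) := by ring
    _ ≤ p1 / 2 * c := mul_le_mul_of_nonneg_left hc2 (by positivity)
    _ ≤ _ := hfin2

end Pool.Agent.W5h22.DM
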