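import Pool.Agent.W5h22.DM.I

/-! `R_a` at real points. -/

set_option autoImplicit false

open Finset Filter Topology MeasureTheory

namespace Pool.Agent.W5h22.DM

open Pool.Agent.H378R2 Pool.Agent.W5h22.JM Pool.Agent.H510R2.Maier

theorem pow_near (r b y : ℝ) (hr : 1 ≤ r) (hb : 0 ≤ b) (hy : b * (r - 1) ≤ y) (hy1 : y ≤ 1) : r ^ b ≤ 1 + 2 * y := by
  have hr0 : 0 < r := by linarith
  have h1 : r ≤ Real.exp (r - 1) := by have := Real.add_one_le_exp (r - 1); linarith
  have h2 : r ^ b ≤ Real.exp (b * (r - 1)) := by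
    calc r ^ b ≤ (Real.exp (r - 1)) ^ b := Real.rpow_le_rpow hr0.le h1 hb
      _ = Real.exp ((r - 1) * b) := (Real.exp_mul _ _).symm
      _ = _ := by rw [mul_comm]
  have hy0 : 0 ≤ y := le_trans (mul_nonneg hb (by linarith)) hy
  have h3 : Real.exp y ≤ 1 + 2 * y := by
    have h4 := Real.abs_exp_sub_one_le (x := y) (by rw [abs_of_nonneg hy0]; exact hy1)
    rw [abs_of_nonneg hy0] at h4
    have := le_abs_self (Real.exp y - 1)
    linarith
  exact (h2.trans (Real.exp_le_exp.2 hy)).trans h3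

theorem ratio_step (A B : ℝ) (hA : 1 < A) (η : ℝ) (hη : 0 < η) : ∀ᶠ X : ℝ in atTop, ∀ n : ℕ, X ≤ n → ∀ x : ℝ,
    (n : ℝ) ≤ x → x < n + 1 → ∀ a : ℝ, A ≤ a → a ≤ B → |ratio a x - ratio a n| ≤ η := by
  by_cases hAB : A ≤ B
  swap
  · exact Eventually.of_forall fun X n _ x _ _ a ha hb => absurd (ha.trans hb) hAB
  have hB1 : 1 < B := by linarith
  have ev1 : ∀ᶠ X : ℝ in atTop, 3 * (Real.log X) ^ (1 - A) < η / 2 := by
    have h1 : Tendsto (fun L : ℝ => L ^ (-(A - 1))) atTop (𝓝 0) := tendsto_rpow_neg_atTop (by linarith)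
    have h2 := (h1.comp Real.tendsto_log_atTop).const_mul 3
    rw [mul_zero] at h2
    have h3 := h2.eventually_lt_const (show (0 : ℝ) < η / 2 by positivity)
    filter_upwards [h3] with X h4
    simp only [Function.comp] at h4
    have : 1 - A = -(A - 1) := by ring
    rw [this]
    exact h4
  have ev2 : ∀ᶠ X : ℝ in atTop, ∀ y : ℝ, X ≤ y → 2 * B * (Real.log y) ^ B ≤ y := by
    have h1 := (isLittleO_log_rpow_rpow_atTop B (show (0 : ℝ) < 1 by norm_num)).bound (show (0 : ℝ) < 1 / (2 * B) by positivity)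
    obtain ⟨x0, hx0⟩ := eventually_atTop.1 h1
    filter_upwards [eventually_ge_atTop (max x0 1)] with X hX y hy
    have h2 := hx0 y ((le_max_left _ _).trans (hX.trans hy))
    have hy1 : 1 ≤ y := (le_max_right _ _).trans (hX.trans hy)
    rw [Real.norm_of_nonneg (Real.rpow_nonneg (Real.log_nonneg hy1) _), Real.rpow_one, Real.norm_of_nonneg (by linarith),
      div_mul_eq_mul_div, one_mul, le_div_iff₀ (by positivity)] at h2
    linarith
  filter_upwards [ev1, ev2, eventually_ge_atTop (4 * B / η), eventually_ge_atTop B, eventually_ge_atTop (3 : ℝ),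
    Real.tendsto_log_atTop.eventually_ge_atTop (1 : ℝ)] with X h1 h2 h3 h4 h5 h6 n hn x hx1 hx2 a ha haB
  have hX0 : 0 < X := by linarith
  have hn0 : (0 : ℝ) < n := by linarith
  have hx0 : 0 < x := by linarith
  set ln := Real.log (n : ℝ) with hln
  set lx := Real.log x with hlx
  have hln1 : 1 ≤ ln := h6.trans (Real.log_le_log hX0 hn)
  have hln0 : 0 < ln := by linarith
  have hll : ln ≤ lx := Real.log_le_log hn0 hx1
  have hlx0 : 0 < lx := by linarith
  have hlx2 : lx ≤ ln + 1 / n := by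
    have e1 : x = n * (x / n) := by field_simp
    have e2 : Real.log (x / n) ≤ x / n - 1 := Real.log_le_sub_one_of_pos (by positivity)
    have e3 : x / n - 1 ≤ 1 / n := by
      rw [div_sub_one hn0.ne']
      apply div_le_div_of_nonneg_right _ hn0.le
      linarith
    have e4 : lx = ln + Real.log (x / n) := by
      rw [hlx, hln, ← Real.log_mul hn0.ne' (by positivity), ← e1]
    linarith
  set r := lx / ln with hr
  have hr1 : 1 ≤ r := by rw [hr, le_div_iff₀ hln0]; linarith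
  have hr2 : r - 1 ≤ 1 / (n * ln) := by
    rw [hr, div_sub_one hln0.ne', div_le_div_iff₀ hln0 (by positivity)]
    have e1 : lx - ln ≤ 1 / n := by linarith
    have e2 := mul_le_mul_of_nonneg_right e1 (show 0 ≤ n * ln by positivity)
    have e3 : 1 / (n : ℝ) * (n * ln) = 1 * ln := by field_simp
    linarith
  have hy1 : B / (n * ln) ≤ 1 := by
    rw [div_le_one (by positivity)]
    nlinarith
  have ha1 : 1 < a := by linarith
  have hpowa : r ^ a ≤ 1 + 2 * (B / (n * ln)) := by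
    apply pow_near r a _ hr1 (by linarith) _ hy1
    calc a * (r - 1) ≤ B * (1 / (n * ln)) := mul_le_mul haB hr2 (by linarith) (by linarith)
      _ = _ := by ring
  have hpowb : r ^ (a - 1) ≤ 1 + 2 * (B / (n * ln)) := by
    apply pow_near r (a - 1) _ hr1 (by linarith) _ hy1
    calc (a - 1) * (r - 1) ≤ B * (1 / (n * ln)) := mul_le_mul (by linarith) hr2 (by linarith) (by linarith)
      _ = _ := by ring
  have hna : 0 < ln ^ a := Real.rpow_pos_of_pos hln0 a
  have hxa : 0 < lx ^ a := Real.rpow_pos_of_pos hlx0 a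
  have hnx : ln ^ a ≤ lx ^ a := Real.rpow_le_rpow hln0.le hll (by linarith)
  have hlxr : lx = ln * r := by rw [hr]; field_simp
  have hxn1 : lx ^ a ≤ ln ^ a + 1 := by
    have e1 : lx ^ a = ln ^ a * r ^ a := by rw [hlxr, Real.mul_rpow hln0.le (by linarith)]
    have e2 : ln ^ a ≤ ln ^ B := Real.rpow_le_rpow_of_exponent_le hln1 haB
    have e3 := h2 n hn
    have e4 : ln ^ a * (2 * (B / (n * ln))) ≤ 1 := by
      have e5 : ln ^ a * (2 * (B / (n * ln))) = (2 * B * ln ^ a) / (n * ln) := by ring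
      rw [e5, div_le_one (by positivity)]
      calc 2 * B * ln ^ a ≤ 2 * B * ln ^ B := by gcongr
        _ ≤ n := e3
        _ ≤ n * ln := le_mul_of_one_le_right hn0.le hln1
    rw [e1]
    calc ln ^ a * r ^ a ≤ ln ^ a * (1 + 2 * (B / (n * ln))) := mul_le_mul_of_nonneg_left hpowa hna.le
      _ = ln ^ a + ln ^ a * (2 * (B / (n * ln))) := by ring
      _ ≤ _ := by linarith
  -- the weights
  set gn := ln / ln ^ a with hgn
  set gx := lx / lx ^ a with hgx
  have hgn0 : 0 < gn := by positivity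
  have hgx0 : 0 < gx := by positivity
  have hgnx : gn = gx * r ^ (a - 1) := by
    rw [hgn, hgx, hlxr, Real.mul_rpow hln0.le (by linarith), Real.rpow_sub (by linarith), Real.rpow_one]
    have : 0 < r ^ a := by positivity
    field_simp
  have hgle : gx ≤ gn := by
    rw [hgnx]
    exact le_mul_of_one_le_right hgx0.le (Real.one_le_rpow hr1 (by linarith))
  have hgdiff : gn - gx ≤ gx * (2 * (B / (n * ln))) := by
    have := mul_le_mul_of_nonneg_left hpowb hgx0.le
    rw [← hgnx] at this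
    linarith
  have hgn1 : gn ≤ (Real.log X) ^ (1 - A) := by
    have e1 : gn = ln ^ (1 - a) := by rw [hgn, Real.rpow_sub hln0, Real.rpow_one]
    rw [e1]
    calc ln ^ (1 - a) ≤ ln ^ (1 - A) := Real.rpow_le_rpow_of_exponent_le hln1 (by linarith)
      _ ≤ (Real.log X) ^ (1 - A) := Real.rpow_le_rpow_of_nonpos (by linarith) (Real.log_le_log hX0 hn) (by linarith)
  -- the counts
  have hfl : ⌊x⌋₊ = n := by
    rw [Nat.floor_eq_iff hx0.le]
    exact ⟨hx1, hx2⟩
  set Px : ℝ := (Nat.primeCounting ⌊x + lx ^ a⌋₊ : ℝ) - Nat.primeCounting n with hPx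
  set Pn : ℝ := (Nat.primeCounting ⌊(n : ℝ) + ln ^ a⌋₊ : ℝ) - Nat.primeCounting n with hPn
  have hmono : Pn ≤ Px := by
    have : Nat.primeCounting ⌊(n : ℝ) + ln ^ a⌋₊ ≤ Nat.primeCounting ⌊x + lx ^ a⌋₊ :=
      Nat.monotone_primeCounting (Nat.floor_le_floor (by linarith))
    have h' : (Nat.primeCounting ⌊(n : ℝ) + ln ^ a⌋₊ : ℝ) ≤ Nat.primeCounting ⌊x + lx ^ a⌋₊ := by exact_mod_cast this
    linarith
  have hup : Px ≤ Pn + 3 := by
    have e1 : ⌊x + lx ^ a⌋₊ ≤ ⌊(n : ℝ) + ln ^ a⌋₊ + 3 := by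
      have q1 : (⌊x + lx ^ a⌋₊ : ℝ) ≤ x + lx ^ a := Nat.floor_le (by positivity)
      have q2 : (n : ℝ) + ln ^ a < ⌊(n : ℝ) + ln ^ a⌋₊ + 1 := Nat.lt_floor_add_one _
      have q3 : (⌊x + lx ^ a⌋₊ : ℝ) < ⌊(n : ℝ) + ln ^ a⌋₊ + 4 := by linarith
      have q4 : ⌊x + lx ^ a⌋₊ < ⌊(n : ℝ) + ln ^ a⌋₊ + 4 := by exact_mod_cast q3
      omega
    have e2 : Nat.primeCounting ⌊x + lx ^ a⌋₊ ≤ Nat.primeCounting (⌊(n : ℝ) + ln ^ a⌋₊ + 3) := Nat.monotone_primeCounting e1
    have e3 := pc ⌊(n : ℝ) + ln ^ a⌋₊ 3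
    have e4 : ∑ h ∈ Icc 1 3, (if (⌊(n : ℝ) + ln ^ a⌋₊ + h).Prime then (1 : ℝ) else 0) ≤ 3 := by
      calc _ ≤ ∑ _h ∈ Icc 1 3, (1 : ℝ) := sum_le_sum fun h _ => by split_ifs <;> norm_num
        _ = 3 := by simp
    have e5 : (Nat.primeCounting ⌊x + lx ^ a⌋₊ : ℝ) ≤ Nat.primeCounting (⌊(n : ℝ) + ln ^ a⌋₊ + 3) := by exact_mod_cast e2
    linarith
  have hPn0 : 0 ≤ Pn := by
    have : Nat.primeCounting n ≤ Nat.primeCounting ⌊(n : ℝ) + ln ^ a⌋₊ :=
      Nat.monotone_primeCounting (Nat.le_floor (by linarith))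
    have h' : (Nat.primeCounting n : ℝ) ≤ Nat.primeCounting ⌊(n : ℝ) + ln ^ a⌋₊ := by exact_mod_cast this
    linarith
  have hrn : ratio a n = gn * Pn := by
    unfold ratio
    rw [Nat.floor_natCast]
  have hrx : ratio a x = gx * Px := by
    unfold ratio
    rw [hfl]
  have hbd := (ratio_bd a n).2
  rw [hrn] at hbd
  rw [hrn, hrx, abs_le]
  have hX' : 1 / (n : ℝ) ≤ η / (4 * B) := by
    rw [div_le_div_iff₀ hn0 (by positivity)]
    have := h3.trans hn
    rw [div_le_iff₀ hη] at this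
    linarith
  have hkey : gx * (2 * (B / (n * ln))) * Pn ≤ η / 2 := by
    calc gx * (2 * (B / (n * ln))) * Pn = (2 * (B / (n * ln))) * (gx * Pn) := by ring
      _ ≤ (2 * (B / (n * ln))) * (gn * Pn) := by gcongr
      _ ≤ (2 * (B / (n * ln))) * ln := by gcongr
      _ = 2 * B * (1 / n) := by field_simp
      _ ≤ 2 * B * (η / (4 * B)) := by gcongr
      _ = η / 2 := by field_simp; ring
  constructor
  · have q1 : (gn - gx) * Pn ≤ gx * (2 * (B / (n * ln))) * Pn := mul_le_mul_of_nonneg_right hgdiff hPn0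
    have q2 : gx * Pn ≤ gx * Px := mul_le_mul_of_nonneg_left hmono hgx0.le
    linarith
  · have q1 : gx * Px ≤ gx * (Pn + 3) := mul_le_mul_of_nonneg_left hup hgx0.le
    have q2 : gx * Pn ≤ gn * Pn := mul_le_mul_of_nonneg_right hgle hPn0
    have q3 : gx * 3 ≤ 3 * (Real.log X) ^ (1 - A) := by linarith
    linarith

theorem ff_step (A B : ℝ) (hA : 1 < A) (μ ν : Measure ℝ) [IsFiniteMeasure μ] [IsFiniteMeasure ν]
    (hμ : μ (Set.Icc A B)ᶜ = 0) (hν : ν (Set.Icc A B)ᶜ = 0) (η : ℝ) (hη : 0 < η) : ∀ᶠ X : ℝ in atTop, ∀ n : ℕ, X ≤ n → ∀ x : ℝ,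
    (n : ℝ) ≤ x → x < n + 1 → |ff μ ν x - ff μ ν n| ≤ η := by
  set σ := μ.real Set.univ + ν.real Set.univ + 1 with hσ
  have hμ0 : 0 ≤ μ.real Set.univ := measureReal_nonneg
  have hν0 : 0 ≤ ν.real Set.univ := measureReal_nonneg
  have hσ0 : 0 < σ := by linarith
  filter_upwards [ratio_step A B hA (η / σ) (by positivity)] with X hX n hn x hx1 hx2
  have key : ∀ ρ : Measure ℝ, [IsFiniteMeasure ρ] → ρ (Set.Icc A B)ᶜ = 0 →
      |∫ a, ratio a x ∂ρ - ∫ a, ratio a n ∂ρ| ≤ η / σ * ρ.real Set.univ := by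
    intro ρ _ hρ
    have h1 : ∀ᵐ a ∂ρ, a ∈ Set.Icc A B := by
      rw [ae_iff]
      exact hρ
    have h2 : ∀ᵐ a ∂ρ, ‖ratio a x - ratio a n‖ ≤ η / σ := by
      filter_upwards [h1] with a ha
      exact hX n hn x hx1 hx2 a ha.1 ha.2
    have h3 : Integrable (fun a => ratio a x - ratio a n) ρ :=
      Integrable.of_bound ((ratio_meas x).sub (ratio_meas n)).aestronglyMeasurable (η / σ) h2
    have h4 : Integrable (fun a => ratio a x) ρ := by
      have := h3.add (ratio_int n ρ)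
      refine this.congr (Eventually.of_forall fun a => ?_)
      simp
    rw [← integral_sub h4 (ratio_int n ρ)]
    have h5 := norm_integral_le_of_norm_le_const h2
    rw [Real.norm_eq_abs] at h5
    exact h5
  have k1 := abs_le.1 (key μ hμ)
  have k2 := abs_le.1 (key ν hν)
  have k3 : η / σ * μ.real Set.univ + η / σ * ν.real Set.univ ≤ η := by
    have : η / σ * μ.real Set.univ + η / σ * ν.real Set.univ = η * ((μ.real Set.univ + ν.real Set.univ) / σ) := by
      field_simp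
    rw [this]
    have h2 : (μ.real Set.univ + ν.real Set.univ) / σ ≤ 1 := by rw [div_le_one hσ0]; linarith
    nlinarith
  unfold ff
  rw [abs_le]
  constructor <;> linarith [k1.1, k1.2, k2.1, k2.2]

end Pool.Agent.W5h22.DM
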