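import Pool.Agent.H639R3.K.Second

/-! Dilates of a set of real numbers and thick sets of multiples of `Q`: the measure theoretic part. -/

set_option autoImplicit false

open Finset Filter Topology MeasureTheory

namespace Pool.Agent.W5h22.DM

theorem cover_real (S : Set ℝ) (K : Finset ℤ) (I : ℤ → Set ℝ) (hS : S ⊆ ⋃ k ∈ K, I k) (c : ℝ)
    (hI : ∀ k ∈ K, volume.real (I k) ≤ c) (hfin : ∀ k ∈ K, volume (I k) ≠ ⊤) : volume.real S ≤ K.card * c := by
  have h1 : volume (⋃ k ∈ K, I k) ≠ ⊤ :=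
    ne_top_of_le_ne_top (ENNReal.sum_ne_top.2 hfin) (measure_biUnion_finset_le _ _)
  calc volume.real S ≤ volume.real (⋃ k ∈ K, I k) := measureReal_mono hS h1
    _ ≤ ∑ k ∈ K, volume.real (I k) := measureReal_biUnion_finset_le _ _
    _ ≤ ∑ _k ∈ K, c := sum_le_sum hI
    _ = _ := by rw [sum_const, nsmul_eq_mul]

theorem card_Icc_int (a b y : ℝ) (h : b - a + 1 ≤ y) (hy : 0 ≤ y) : ((Icc ⌈a⌉ ⌊b⌋).card : ℝ) ≤ y := by
  rw [Int.card_Icc]
  have h1 : a ≤ ⌈a⌉ := Int.le_ceil a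
  have h2 : (⌊b⌋ : ℝ) ≤ b := Int.floor_le b
  rcases le_or_gt (⌊b⌋ + 1 - ⌈a⌉) 0 with h3 | h3
  · rw [Int.toNat_of_nonpos h3]
    simpa using hy
  · have h4 : (((⌊b⌋ + 1 - ⌈a⌉).toNat : ℕ) : ℝ) = (⌊b⌋ : ℝ) + 1 - ⌈a⌉ := by
      have : (((⌊b⌋ + 1 - ⌈a⌉).toNat : ℤ)) = ⌊b⌋ + 1 - ⌈a⌉ := Int.toNat_of_nonneg h3.le
      exact_mod_cast this
    rw [h4]
    linarith

/-- the points of `[s, t]` for which `α lam` is at distance less than `1` to the right of a multiple of `Q` -/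
def hit (Q : ℕ) (s t lam : ℝ) : Set ℝ := {α | s ≤ α ∧ α ≤ t ∧ ∃ k : ℤ, 0 ≤ α * lam - Q * k ∧ α * lam - Q * k < 1}

theorem volV (Q : ℕ) (hQ : 1 ≤ Q) (s t lam : ℝ) (hst : s ≤ t) (hl : 0 < lam) :
    volume.real (hit Q s t lam) ≤ (t - s) / Q + 2 / lam := by
  have hQ1 : (1 : ℝ) ≤ Q := by exact_mod_cast hQ
  have hQ0 : (0 : ℝ) < Q := by linarith
  have h1 := cover_real (hit Q s t lam) (Icc ⌈(s * lam - 1) / Q⌉ ⌊t * lam / Q⌋) (fun k => Set.Icc (Q * k / lam) ((Q * k + 1) / lam))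
    (by
      rintro α ⟨h1, h2, k, h3, h4⟩
      rw [Set.mem_iUnion₂]
      refine ⟨k, ?_, ?_⟩
      · rw [mem_Icc, Int.ceil_le, Int.le_floor, div_le_iff₀ hQ0, le_div_iff₀ hQ0]
        constructor <;> nlinarith
      · rw [Set.mem_Icc, div_le_iff₀ hl, le_div_iff₀ hl]
        constructor <;> linarith) (1 / lam) (by
      intro k _
      rw [measureReal_def, Real.volume_Icc, ENNReal.toReal_ofReal (by
        rw [← sub_div]
        apply div_nonneg _ hl.le
        linarith), ← sub_div]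
      apply le_of_eq
      congr 1
      ring) (by
      intro k _
      rw [Real.volume_Icc]
      exact ENNReal.ofReal_ne_top)
  refine h1.trans ?_
  have h2 : ((Icc ⌈(s * lam - 1) / Q⌉ ⌊t * lam / Q⌋).card : ℝ) ≤ (t - s) * lam / Q + 2 := by
    apply card_Icc_int
    · have e1 : t * lam / Q - (s * lam - 1) / Q + 1 = (t - s) * lam / Q + (1 / Q + 1) := by ring
      rw [e1]
      have : 1 / (Q : ℝ) ≤ 1 := by rw [div_le_one hQ0]; exact hQ1
      linarith
    · have : 0 ≤ (t - s) * lam / Q := div_nonneg (mul_nonneg (by linarith) hl.le) hQ0.le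
      linarith
  calc _ ≤ ((t - s) * lam / Q + 2) * (1 / lam) := mul_le_mul_of_nonneg_right h2 (by positivity)
    _ = _ := by field_simp

theorem hit_fin (Q : ℕ) (s t lam : ℝ) : volume (hit Q s t lam) ≠ ⊤ := by
  have h1 : hit Q s t lam ⊆ Set.Icc s t := fun α h => ⟨h.1, h.2.1⟩
  refine ne_top_of_le_ne_top ?_ (measure_mono h1)
  rw [Real.volume_Icc]
  exact ENNReal.ofReal_ne_top

theorem volW (Q : ℕ) (hQ : 1 ≤ Q) (s t lam lam' : ℝ) (hst : s ≤ t) (hl : 0 < lam) (hD : lam < lam') :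
    volume.real (hit Q s t lam ∩ hit Q s t lam') ≤
      ((t - s) * (lam' - lam) / Q + 3) * (2 / ((lam' - lam) * Q) + 2 / lam) := by
  have hQ1 : (1 : ℝ) ≤ Q := by exact_mod_cast hQ
  have hQ0 : (0 : ℝ) < Q := by linarith
  set D := lam' - lam with hDdef
  have hD0 : 0 < D := by linarith
  have h1 := cover_real (hit Q s t lam ∩ hit Q s t lam') (Icc ⌈(s * D - 1) / Q⌉ ⌊(t * D + 1) / Q⌋)
    (fun k => hit Q ((Q * k - 1) / D) ((Q * k + 1) / D) lam)
    (by
      rintro α ⟨⟨h1, h2, k, h3, h4⟩, ⟨_, _, k', h5, h6⟩⟩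
      have e1 : α * D = α * lam' - α * lam := by rw [hDdef]; ring
      rw [Set.mem_iUnion₂]
      refine ⟨k' - k, ?_, ?_, ?_, k, h3, h4⟩
      · rw [mem_Icc, Int.ceil_le, Int.le_floor, div_le_iff₀ hQ0, le_div_iff₀ hQ0]
        push_cast
        constructor <;> nlinarith
      · rw [div_le_iff₀ hD0, e1]
        push_cast
        linarith
      · rw [le_div_iff₀ hD0, e1]
        push_cast
        linarith) (2 / (D * Q) + 2 / lam) (by
      intro k _
      refine (volV Q hQ _ _ lam ?_ hl).trans (le_of_eq ?_)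
      · apply div_le_div_of_nonneg_right _ hD0.le
        linarith
      · congr 1
        field_simp
        ring) (fun k _ => hit_fin _ _ _ _)
  refine h1.trans ?_
  apply mul_le_mul_of_nonneg_right _ (by positivity)
  apply card_Icc_int
  · have e1 : (t * D + 1) / Q - (s * D - 1) / Q + 1 = (t - s) * D / Q + (2 / Q + 1) := by ring
    rw [e1]
    have : 2 / (Q : ℝ) ≤ 2 := by rw [div_le_iff₀ hQ0]; linarith
    linarith
  · have : 0 ≤ (t - s) * D / Q := div_nonneg (mul_nonneg (by linarith) hD0.le) hQ0.le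
    linarith

theorem sep_card (S : Finset ℝ) (a b : ℝ) (hab : a ≤ b) (hS : ∀ x ∈ S, a ≤ x ∧ x ≤ b)
    (hsep : ∀ x ∈ S, ∀ y ∈ S, x ≠ y → 1 ≤ |x - y|) : (S.card : ℝ) ≤ b - a + 2 := by
  classical
  have h1 : (S.image (fun x => ⌊x⌋)).card = S.card := by
    apply card_image_of_injOn
    intro x hx y hy hxy
    by_contra hne
    have h2 := hsep x hx y hy hne
    have h3 := Int.abs_sub_lt_one_of_floor_eq_floor hxy
    linarith
  have h2 : S.image (fun x => ⌊x⌋) ⊆ Icc ⌊a⌋ ⌊b⌋ := by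
    intro k hk
    rw [mem_image] at hk
    obtain ⟨x, hx, rfl⟩ := hk
    rw [mem_Icc]
    exact ⟨Int.floor_le_floor (hS x hx).1, Int.floor_le_floor (hS x hx).2⟩
  rw [← h1]
  have h3 : ((S.image (fun x => ⌊x⌋)).card : ℝ) ≤ (Icc ⌊a⌋ ⌊b⌋).card := by exact_mod_cast card_le_card h2
  refine h3.trans ?_
  rw [Int.card_Icc]
  have h4 : (0 : ℤ) ≤ ⌊b⌋ + 1 - ⌊a⌋ := by
    have := Int.floor_le_floor hab
    omega
  have h5 : (((⌊b⌋ + 1 - ⌊a⌋).toNat : ℕ) : ℝ) = (⌊b⌋ : ℝ) + 1 - ⌊a⌋ := by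
    have : (((⌊b⌋ + 1 - ⌊a⌋).toNat : ℤ)) = ⌊b⌋ + 1 - ⌊a⌋ := Int.toNat_of_nonneg h4
    exact_mod_cast this
  rw [h5]
  have h6 := Int.floor_le b
  have h7 := Int.lt_floor_add_one a
  linarith

/-- the dilations which send `lam` to a point of `[m, m + 1)`, `m ∈ G` -/
def AA (G : Finset ℕ) (s t lam : ℝ) : Set ℝ := ⋃ m ∈ G, (Set.Icc s t ∩ Set.Ico ((m : ℝ) / lam) (((m : ℝ) + 1) / lam))

theorem AA_meas (G : Finset ℕ) (s t lam : ℝ) : MeasurableSet (AA G s t lam) :=
  Finset.measurableSet_biUnion _ fun _ _ => measurableSet_Icc.inter measurableSet_Ico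

theorem AA_sub (G : Finset ℕ) (Q : ℕ) (hG : ∀ m ∈ G, Q ∣ m) (s t lam : ℝ) (hl : 0 < lam) : AA G s t lam ⊆ hit Q s t lam := by
  intro α hα
  unfold AA at hα
  rw [Set.mem_iUnion₂] at hα
  obtain ⟨m, hm, h1, h2⟩ := hα
  obtain ⟨k, rfl⟩ := hG m hm
  rw [Set.mem_Ico, div_le_iff₀ hl, lt_div_iff₀ hl] at h2
  push_cast at h2
  refine ⟨h1.1, h1.2, (k : ℤ), ?_, ?_⟩
  · push_cast; linarith [h2.1]
  · push_cast; linarith [h2.2]

theorem AA_low (G : Finset ℕ) (s t lam : ℝ) (hl : 0 < lam) :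
    ((G.filter (fun m : ℕ => s * lam ≤ m ∧ (m : ℝ) + 1 ≤ t * lam)).card : ℝ) * (1 / lam) ≤ volume.real (AA G s t lam) := by
  set G' := G.filter (fun m : ℕ => s * lam ≤ m ∧ (m : ℝ) + 1 ≤ t * lam) with hG'
  have hsub : (⋃ m ∈ G', Set.Ico ((m : ℝ) / lam) (((m : ℝ) + 1) / lam)) ⊆ AA G s t lam := by
    intro α hα
    rw [Set.mem_iUnion₂] at hα
    obtain ⟨m, hm, h1⟩ := hα
    rw [hG', mem_filter] at hm
    unfold AA
    rw [Set.mem_iUnion₂]
    refine ⟨m, hm.1, ⟨?_, ?_⟩, h1⟩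
    · refine le_trans ?_ h1.1
      rw [le_div_iff₀ hl]
      exact hm.2.1
    · refine h1.2.le.trans ?_
      rw [div_le_iff₀ hl]
      exact hm.2.2
  have hfin : volume (AA G s t lam) ≠ ⊤ := by
    have h1 : AA G s t lam ⊆ Set.Icc s t := by
      intro α hα
      unfold AA at hα
      rw [Set.mem_iUnion₂] at hα
      obtain ⟨m, hm, h1, h2⟩ := hα
      exact h1
    refine ne_top_of_le_ne_top ?_ (measure_mono h1)
    rw [Real.volume_Icc]
    exact ENNReal.ofReal_ne_top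
  refine le_trans ?_ (measureReal_mono hsub hfin)
  rw [measureReal_biUnion_finset (h := fun m _ => by rw [Real.volume_Ico]; exact ENNReal.ofReal_ne_top)]
  · have e1 : ∀ m ∈ G', volume.real (Set.Ico ((m : ℝ) / lam) (((m : ℝ) + 1) / lam)) = 1 / lam := by
      intro m _
      rw [measureReal_def, Real.volume_Ico, ENNReal.toReal_ofReal (by
        rw [← sub_div]
        apply div_nonneg _ hl.le
        linarith), ← sub_div]
      congr 1
      ring
    rw [sum_congr rfl e1, sum_const, nsmul_eq_mul]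
  · intro m _ m' _ hmm
    show Disjoint (Set.Ico ((m : ℝ) / lam) (((m : ℝ) + 1) / lam)) (Set.Ico ((m' : ℝ) / lam) (((m' : ℝ) + 1) / lam))
    rw [Set.disjoint_left]
    rintro α ⟨h1, h2⟩ ⟨h3, h4⟩
    rw [div_le_iff₀ hl] at h1 h3
    rw [lt_div_iff₀ hl] at h2 h4
    have q1 : (m : ℝ) < m' + 1 := by linarith
    have q2 : (m' : ℝ) < m + 1 := by linarith
    have q3 : m < m' + 1 := by exact_mod_cast q1
    have q4 : m' < m + 1 := by exact_mod_cast q2
    exact hmm (by omega)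
  · intro m _
    exact measurableSet_Ico

theorem meas_core (Q : ℕ) (hQ : 1 ≤ Q) (G : Finset ℕ) (hG : ∀ m ∈ G, Q ∣ m) (s t : ℝ) (hst : s < t) (T : Finset ℝ)
    (y : ℝ) (hy : 0 < y) (hT : ∀ x ∈ T, y ≤ x ∧ x ≤ y + y / Q) (hsep : ∀ x ∈ T, ∀ x' ∈ T, x ≠ x' → 1 ≤ |x - x'|)
    (hM : 8 * (Q : ℝ) ^ 3 ≤ T.card) (hJQ : 3 ≤ (t - s) * Q) (hyJ : 2 * Q ≤ y * (t - s)) (p : ℝ) (hp : 0 < p)
    (hcount : ∀ x ∈ T, p * (t - s) * x / Q ≤ ((G.filter (fun m : ℕ => s * x ≤ m ∧ (m : ℝ) + 1 ≤ t * x)).card : ℝ)) :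
    p ^ 2 * (t - s) / 9 ≤ volume.real (⋃ x ∈ T, AA G s t x) := by
  classical
  have hQ1 : (1 : ℝ) ≤ Q := by exact_mod_cast hQ
  have hQ0 : (0 : ℝ) < Q := by linarith
  set j := t - s with hj
  have hj0 : 0 < j := by linarith
  set M : ℝ := (T.card : ℝ) with hMdef
  have hM0 : 0 < M := lt_of_lt_of_le (by positivity) hM
  have hxpos : ∀ x ∈ T, 0 < x := fun x hx => lt_of_lt_of_le hy (hT x hx).1
  have hAfin : ∀ x ∈ T, volume (AA G s t x) ≠ ⊤ := fun x hx =>
    ne_top_of_le_ne_top (hit_fin Q s t x) (measure_mono (AA_sub G Q hG s t x (hxpos x hx)))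
  -- first moment
  have hS1 : M * (p * j / Q) ≤ ∑ x ∈ T, volume.real (AA G s t x) := by
    calc M * (p * j / Q) = ∑ _x ∈ T, (p * j / Q) := by rw [sum_const, nsmul_eq_mul]
      _ ≤ _ := by
          refine sum_le_sum fun x hx => ?_
          have hx0 := hxpos x hx
          refine le_trans ?_ (AA_low G s t x hx0)
          have := mul_le_mul_of_nonneg_right (hcount x hx) (show 0 ≤ 1 / x by positivity)
          refine le_trans (le_of_eq ?_) this
          field_simp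
  -- second moment
  have hsingle : ∀ x ∈ T, volume.real (AA G s t x) ≤ 2 * j / Q := by
    intro x hx
    have hx0 := hxpos x hx
    refine (measureReal_mono (AA_sub G Q hG s t x hx0) (hit_fin Q s t x)).trans ?_
    refine (volV Q hQ s t x hst.le hx0).trans ?_
    have : 2 / x ≤ j / Q := by
      rw [div_le_div_iff₀ hx0 hQ0]
      have := mul_le_mul_of_nonneg_right (hT x hx).1 hj0.le
      linarith
    have e : 2 * j / Q = j / Q + j / Q := by ring
    rw [e]
    linarith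
  have hfar : ∀ x ∈ T, ∀ x' ∈ T, (Q : ℝ) ^ 2 ≤ x' - x → volume.real (AA G s t x ∩ AA G s t x') ≤ 8 * j / Q ^ 2 := by
    intro x hx x' hx' hD
    have hx0 := hxpos x hx
    have hQ2 : 0 < (Q : ℝ) ^ 2 := by positivity
    have hD0 : 0 < x' - x := by linarith
    have hfin : volume (hit Q s t x ∩ hit Q s t x') ≠ ⊤ :=
      ne_top_of_le_ne_top (hit_fin Q s t x) (measure_mono Set.inter_subset_left)
    refine (measureReal_mono (Set.inter_subset_inter (AA_sub G Q hG s t x hx0) (AA_sub G Q hG s t x' (hxpos x' hx'))) hfin).trans ?_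
    refine (volW Q hQ s t x x' hst.le hx0 (by linarith)).trans ?_
    rw [← hj]
    set D := x' - x with hDdef
    have a1 : 3 ≤ j * D / Q := by
      rw [le_div_iff₀ hQ0]
      calc 3 * (Q : ℝ) ≤ (j * Q) * Q := mul_le_mul_of_nonneg_right hJQ hQ0.le
        _ = j * Q ^ 2 := by ring
        _ ≤ j * D := mul_le_mul_of_nonneg_left hD hj0.le
    have a2 : D ≤ y / Q := by
      have := (hT x' hx').2
      have := (hT x hx).1
      linarith
    have a3 : 2 / x ≤ 2 / (D * Q) := by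
      apply div_le_div_of_nonneg_left (by norm_num) (by positivity)
      rw [le_div_iff₀ hQ0] at a2
      linarith [(hT x hx).1]
    calc (j * D / Q + 3) * (2 / (D * Q) + 2 / x) ≤ (j * D / Q + j * D / Q) * (2 / (D * Q) + 2 / (D * Q)) := by
          gcongr
      _ = 8 * j / Q ^ 2 := by field_simp; ring
  have hpair : ∀ x ∈ T, ∑ x' ∈ T, volume.real (AA G s t x ∩ AA G s t x') ≤ 9 * M * j / Q ^ 2 := by
    intro x hx
    rw [← sum_filter_add_sum_filter_not T (fun x' => |x' - x| < (Q : ℝ) ^ 2)]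
    have b1 : ∑ x' ∈ T.filter (fun x' => |x' - x| < (Q : ℝ) ^ 2), volume.real (AA G s t x ∩ AA G s t x') ≤ M * j / Q ^ 2 := by
      have c1 : ((T.filter (fun x' => |x' - x| < (Q : ℝ) ^ 2)).card : ℝ) ≤ 2 * Q ^ 2 + 2 := by
        have := sep_card (T.filter (fun x' => |x' - x| < (Q : ℝ) ^ 2)) (x - Q ^ 2) (x + Q ^ 2) (by
          have : 0 < (Q : ℝ) ^ 2 := by positivity
          linarith) (by
          intro z hz
          rw [mem_filter, abs_lt] at hz
          constructor <;> linarith [hz.2.1, hz.2.2]) (by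
          intro z hz w hw hzw
          exact hsep z (mem_filter.1 hz).1 w (mem_filter.1 hw).1 hzw)
        linarith
      calc _ ≤ ∑ x' ∈ T.filter (fun x' => |x' - x| < (Q : ℝ) ^ 2), 2 * j / Q := by
            refine sum_le_sum fun x' _ => ?_
            exact (measureReal_mono Set.inter_subset_left (hAfin x hx)).trans (hsingle x hx)
        _ = ((T.filter (fun x' => |x' - x| < (Q : ℝ) ^ 2)).card : ℝ) * (2 * j / Q) := by rw [sum_const, nsmul_eq_mul]
        _ ≤ (2 * Q ^ 2 + 2) * (2 * j / Q) := mul_le_mul_of_nonneg_right c1 (by positivity)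
        _ ≤ (4 * Q ^ 2) * (2 * j / Q) := by
            apply mul_le_mul_of_nonneg_right _ (by positivity)
            have : (1 : ℝ) ≤ Q ^ 2 := one_le_pow₀ hQ1
            linarith
        _ = (8 * Q ^ 3) * j / Q ^ 2 := by field_simp; ring
        _ ≤ M * j / Q ^ 2 := by gcongr
    have b2 : ∑ x' ∈ T.filter (fun x' => ¬ |x' - x| < (Q : ℝ) ^ 2), volume.real (AA G s t x ∩ AA G s t x') ≤ M * (8 * j / Q ^ 2) := by
      calc _ ≤ ∑ x' ∈ T.filter (fun x' => ¬ |x' - x| < (Q : ℝ) ^ 2), 8 * j / Q ^ 2 := by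
            refine sum_le_sum fun x' hx' => ?_
            rw [mem_filter, not_lt] at hx'
            rcases le_total x x' with h | h
            · rw [abs_of_nonneg (by linarith)] at hx'
              exact hfar x hx x' hx'.1 hx'.2
            · rw [abs_of_nonpos (by linarith)] at hx'
              rw [Set.inter_comm]
              exact hfar x' hx'.1 x hx (by linarith [hx'.2])
        _ = ((T.filter (fun x' => ¬ |x' - x| < (Q : ℝ) ^ 2)).card : ℝ) * (8 * j / Q ^ 2) := by rw [sum_const, nsmul_eq_mul]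
        _ ≤ _ := by
            apply mul_le_mul_of_nonneg_right _ (by positivity)
            rw [hMdef]
            exact_mod_cast card_filter_le T _
    have e : 9 * M * j / Q ^ 2 = M * j / Q ^ 2 + M * (8 * j / Q ^ 2) := by ring
    rw [e]
    exact add_le_add b1 b2
  have hS2 : ∑ x ∈ T, ∑ x' ∈ T, volume.real (AA G s t x ∩ AA G s t x') ≤ 9 * M ^ 2 * j / Q ^ 2 := by
    refine (sum_le_sum hpair).trans (le_of_eq ?_)
    rw [sum_const, nsmul_eq_mul]
    ring
  have hwsm := Pool.Agent.H639R3.K.weighted_second_moment (volume : Measure ℝ) T (fun x => AA G s t x)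
    (fun x _ => AA_meas G s t x) hAfin (fun _ => 1) (Q * p / (9 * M))
  simp only [one_mul] at hwsm
  refine le_trans ?_ hwsm
  have hlam : 0 ≤ Q * p / (9 * M) := by positivity
  have c1 := mul_le_mul_of_nonneg_left hS1 (show 0 ≤ 2 * (Q * p / (9 * M)) by positivity)
  have c2 := mul_le_mul_of_nonneg_left hS2 (show 0 ≤ (Q * p / (9 * M)) ^ 2 by positivity)
  have c3 : 2 * (Q * p / (9 * M)) * (M * (p * j / Q)) = 2 * p ^ 2 * j / 9 := by field_simp
  have c4 : (Q * p / (9 * M)) ^ 2 * (9 * M ^ 2 * j / Q ^ 2) = p ^ 2 * j / 9 := by field_simp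
  rw [c3] at c1
  rw [c4] at c2
  have c5 : 2 * p ^ 2 * j / 9 = p ^ 2 * j / 9 + p ^ 2 * j / 9 := by ring
  linarith

end Pool.Agent.W5h22.DM
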