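import Pool.Agent.W5h22.DM.K

/-! Lebesgue density and pigeonhole. -/

set_option autoImplicit false

open Finset Filter Topology MeasureTheory

namespace Pool.Agent.W5h22.DM

theorem null_real (S : Set ℝ) (hS : S ⊆ Set.Ioi 0) (η : ℝ) (hη : 0 < η)
    (h : ∀ s t : ℝ, 0 < s → s < t → t ≤ 3 / 2 * s → ∃ G : Set ℝ, MeasurableSet G ∧ G ⊆ Set.Icc s t ∧ (∀ x ∈ G, x ∉ S) ∧
      η * (t - s) ≤ volume.real G) : volume S = 0 := by
  have hball : ∀ (x r : ℝ), 0 < r → r ≤ x / 5 →
      volume (S ∩ Metric.closedBall x r) / volume (Metric.closedBall x r) ≤ ENNReal.ofReal (1 - η) := by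
    intro x r hr hrx
    obtain ⟨G, hGm, hGsub, hGS, hGvol⟩ := h (x - r) (x + r) (by linarith) (by linarith) (by linarith)
    rw [Real.closedBall_eq_Icc]
    have hvol : volume (Set.Icc (x - r) (x + r)) = ENNReal.ofReal (2 * r) := by
      rw [Real.volume_Icc]; congr 1; ring
    have hfin : volume (Set.Icc (x - r) (x + r)) ≠ ⊤ := by rw [hvol]; exact ENNReal.ofReal_ne_top
    have hsub : S ∩ Set.Icc (x - r) (x + r) ⊆ Set.Icc (x - r) (x + r) \ G := by
      rintro z ⟨hz1, hz2⟩
      exact ⟨hz2, fun hzG => hGS z hzG hz1⟩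
    have hfinG : volume G ≠ ⊤ := ne_top_of_le_ne_top hfin (measure_mono hGsub)
    have e0 : x + r - (x - r) = 2 * r := by ring
    rw [e0] at hGvol
    have h1 : volume (S ∩ Set.Icc (x - r) (x + r)) ≤ ENNReal.ofReal (2 * r - η * (2 * r)) := by
      refine (measure_mono hsub).trans ?_
      rw [measure_sdiff hGsub hGm.nullMeasurableSet hfinG, hvol, ENNReal.ofReal_sub _ (by positivity)]
      apply tsub_le_tsub_left
      exact ENNReal.ofReal_le_of_le_toReal hGvol
    rw [hvol]
    apply ENNReal.div_le_of_le_mul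
    refine h1.trans ?_
    rw [← ENNReal.ofReal_mul' (by positivity)]
    apply ENNReal.ofReal_le_ofReal
    rw [sub_mul, one_mul]
  have hlim := Besicovitch.ae_tendsto_measure_inter_div (volume : Measure ℝ) S
  have hpos : ∀ᵐ x ∂(volume.restrict S), x ∈ Set.Ioi (0 : ℝ) :=
    ae_restrict_of_ae_restrict_of_subset hS (ae_restrict_mem measurableSet_Ioi)
  have hfalse : ∀ᵐ x ∂(volume.restrict S), False := by
    filter_upwards [hlim, hpos] with x hx hx0
    rw [Set.mem_Ioi] at hx0
    have h1 : ∀ᶠ r : ℝ in nhdsWithin 0 (Set.Ioi 0),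
        volume (S ∩ Metric.closedBall x r) / volume (Metric.closedBall x r) ≤ ENNReal.ofReal (1 - η) := by
      filter_upwards [self_mem_nhdsWithin, Ioo_mem_nhdsGT (show (0 : ℝ) < x / 5 by positivity)] with r hr hr2
      exact hball x r hr hr2.2.le
    have h2 := le_of_tendsto hx h1
    have h3 : ENNReal.ofReal (1 - η) < 1 := by
      rw [ENNReal.ofReal_lt_one]
      linarith
    exact absurd h3 (not_lt.2 h2)
  have h0 : volume.restrict S = 0 := by
    rw [Filter.eventually_false_iff_eq_bot, ae_eq_bot] at hfalse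
    exact hfalse
  exact Measure.restrict_eq_zero.1 h0

theorem pigeon (T : Finset ℝ) (a l : ℝ) (hl : 0 < l) (n : ℕ) (hn : 1 ≤ n) (hT : ∀ x ∈ T, a ≤ x ∧ x ≤ a + l) :
    ∃ j < n, T.card ≤ n * (T.filter (fun x => a + j * (l / n) ≤ x ∧ x ≤ a + (j + 1) * (l / n))).card := by
  classical
  by_contra hcon
  push Not at hcon
  have hn0 : (0 : ℝ) < n := by exact_mod_cast hn
  have hln : 0 < l / n := by positivity
  have h1 : T ⊆ (range n).biUnion (fun j : ℕ => T.filter (fun x => a + j * (l / n) ≤ x ∧ x ≤ a + (j + 1) * (l / n))) := by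
    intro x hx
    obtain ⟨h2, h3⟩ := hT x hx
    rw [mem_biUnion]
    by_cases hj : ⌊(x - a) / (l / n)⌋₊ < n
    · refine ⟨⌊(x - a) / (l / n)⌋₊, mem_range.2 hj, ?_⟩
      rw [mem_filter]
      refine ⟨hx, ?_, ?_⟩
      · have := Nat.floor_le (show 0 ≤ (x - a) / (l / n) by apply div_nonneg _ hln.le; linarith)
        rw [le_div_iff₀ hln] at this
        linarith
      · have := Nat.lt_floor_add_one ((x - a) / (l / n))
        rw [div_lt_iff₀ hln] at this
        linarith
    · push Not at hj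
      refine ⟨n - 1, mem_range.2 (by omega), ?_⟩
      rw [mem_filter]
      have e1 : (((n - 1 : ℕ)) : ℝ) + 1 = n := by
        have : ((n - 1 + 1 : ℕ) : ℝ) = n := by congr 1; omega
        push_cast at this
        exact this
      have e2 : (n : ℝ) * (l / n) = l := by field_simp
      have e3 : (n : ℝ) ≤ (x - a) / (l / n) :=
        le_trans (by exact_mod_cast hj) (Nat.floor_le (by apply div_nonneg _ hln.le; linarith))
      rw [le_div_iff₀ hln, e2] at e3
      refine ⟨hx, ?_, ?_⟩
      · have : (((n - 1 : ℕ)) : ℝ) * (l / n) ≤ n * (l / n) := mul_le_mul_of_nonneg_right (by linarith) hln.le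
        linarith
      · rw [e1, e2]
        exact h3
  have h2 := card_le_card h1
  have h3 : ((range n).biUnion (fun j : ℕ => T.filter (fun x => a + j * (l / n) ≤ x ∧ x ≤ a + (j + 1) * (l / n)))).card ≤
      ∑ j ∈ range n, (T.filter (fun x => a + j * (l / n) ≤ x ∧ x ≤ a + (j + 1) * (l / n))).card := card_biUnion_le
  have h4 : n * ∑ j ∈ range n, (T.filter (fun x => a + j * (l / n) ≤ x ∧ x ≤ a + (j + 1) * (l / n))).card < n * T.card := by
    rw [mul_sum]
    calc _ < ∑ _j ∈ range n, T.card := by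
          apply sum_lt_sum_of_nonempty ⟨0, mem_range.2 hn⟩
          intro j hj
          exact hcon j (mem_range.1 hj)
      _ = n * T.card := by rw [sum_const, card_range, smul_eq_mul]
  have h5 := Nat.mul_le_mul_left n (h2.trans h3)
  omega

end Pool.Agent.W5h22.DM
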