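import Pool.Agent.W5h22.DM.J
import Pool.Agent.W5h22.DM.L

/-! Large values along almost all dilates of a thick set. -/

set_option autoImplicit false

open Finset Filter Topology MeasureTheory

namespace Pool.Agent.W5h22.DM

open Pool.Agent.H378R2 Pool.Agent.W5h22.JM Pool.Agent.H510R2.Maier

theorem ev_size (e0 c1 θ : ℝ) (he0 : 0 < e0) (hec : e0 < c1) (he1 : e0 < 1) (hθ : 0 < θ) : ∀ᶠ Y : ℝ in atTop,
    32 * Real.exp (4 * (2 * Real.log Y) ^ e0) ≤ Real.exp ((Real.log Y) ^ c1) ∧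
    2 * Real.exp ((2 * Real.log Y) ^ e0) ≤ Y * θ := by
  have h1 : Tendsto (fun L : ℝ => L ^ (c1 - e0)) atTop atTop := tendsto_rpow_atTop (by linarith)
  have h2 : Tendsto (fun L : ℝ => L ^ (1 - e0)) atTop atTop := tendsto_rpow_atTop (by linarith)
  have h3 : Tendsto (fun L : ℝ => L ^ e0) atTop atTop := tendsto_rpow_atTop he0
  filter_upwards [Real.tendsto_log_atTop.eventually (h1.eventually_ge_atTop 9),
    Real.tendsto_log_atTop.eventually (h2.eventually_ge_atTop 3),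
    Real.tendsto_log_atTop.eventually (h3.eventually_ge_atTop (Real.log 32)),
    Real.tendsto_log_atTop.eventually (h3.eventually_ge_atTop (Real.log (2 / θ))),
    Real.tendsto_log_atTop.eventually_ge_atTop (1 : ℝ), eventually_gt_atTop (0 : ℝ)] with Y g1 g2 g3 g4 g5 g6
  set L := Real.log Y with hL
  have hL0 : 0 < L := by linarith
  have hp : 0 < L ^ e0 := Real.rpow_pos_of_pos hL0 _
  have e1 : (2 * L) ^ e0 ≤ 2 * L ^ e0 := by
    rw [Real.mul_rpow (by norm_num) hL0.le]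
    apply mul_le_mul_of_nonneg_right _ hp.le
    calc (2 : ℝ) ^ e0 ≤ 2 ^ (1 : ℝ) := Real.rpow_le_rpow_of_exponent_le (by norm_num) he1.le
      _ = 2 := Real.rpow_one 2
  have e2 : L ^ c1 = L ^ (c1 - e0) * L ^ e0 := by rw [← Real.rpow_add hL0]; congr 1; ring
  have e3 : L = L ^ (1 - e0) * L ^ e0 := by
    rw [← Real.rpow_add hL0, sub_add_cancel, Real.rpow_one]
  have e4 : 9 * L ^ e0 ≤ L ^ c1 := by
    rw [e2]
    exact mul_le_mul_of_nonneg_right g1 hp.le
  have e5 : 3 * L ^ e0 ≤ L := by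
    conv_rhs => rw [e3]
    exact mul_le_mul_of_nonneg_right g2 hp.le
  constructor
  · calc 32 * Real.exp (4 * (2 * L) ^ e0) = Real.exp (Real.log 32 + 4 * (2 * L) ^ e0) := by
          rw [Real.exp_add, Real.exp_log (by norm_num)]
      _ ≤ _ := Real.exp_le_exp.2 (by linarith)
  · have e6 : 2 / θ * Real.exp ((2 * L) ^ e0) ≤ Y := by
      calc 2 / θ * Real.exp ((2 * L) ^ e0) = Real.exp (Real.log (2 / θ) + (2 * L) ^ e0) := by
            rw [Real.exp_add, Real.exp_log (by positivity)]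
        _ ≤ Real.exp L := Real.exp_le_exp.2 (by linarith)
        _ = Y := Real.exp_log g6
    have e7 := mul_le_mul_of_nonneg_right e6 hθ.le
    have e8 : 2 / θ * Real.exp ((2 * L) ^ e0) * θ = 2 * Real.exp ((2 * L) ^ e0) := by field_simp
    linarith

/-- the conclusion of `good_prop` -/
def Good (μ ν lam : Measure ℝ) (ε0 δ p0 K1 : ℝ) : Prop :=
  ∀ κ : ℝ, 0 < κ → ∀ K0 : ℝ, ∀ᶠ X : ℝ in atTop, ∃ Q : ℕ, 1 ≤ Q ∧ K0 ≤ Q ∧
      (Q : ℝ) ≤ Real.exp ((Real.log X) ^ ε0) ∧
      ∀ N N' : ℕ, X ≤ N → N + κ * X ≤ N' → N' ≤ 2 * X → p0 * ((N' - N) / Q) ≤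
        (((mult N N' Q).filter (fun m : ℕ => μ.real Set.univ - ν.real Set.univ + δ ≤ ff μ ν m ∧
          ∫ a, ratio a m ∂lam ≤ K1)).card : ℝ)

theorem lam_step (A B : ℝ) (hA : 1 < A) (lam : Measure ℝ) [IsFiniteMeasure lam]
    (hlam : lam (Set.Icc A B)ᶜ = 0) : ∀ᶠ X : ℝ in atTop, ∀ n : ℕ, X ≤ n → ∀ x : ℝ,
    (n : ℝ) ≤ x → x < n + 1 → ∫ a, ratio a x ∂lam ≤ ∫ a, ratio a n ∂lam + 1 := by
  filter_upwards [ff_step A B hA lam 0 hlam (by simp) 1 one_pos] with X hX n hn x hx1 hx2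
  have h1 := hX n hn x hx1 hx2
  unfold ff at h1
  rw [integral_zero_measure, integral_zero_measure, sub_zero, sub_zero] at h1
  linarith [(abs_le.1 h1).2]

theorem ae_core (A B : ℝ) (hA : 1 < A) (μ ν lam : Measure ℝ) [IsFiniteMeasure μ] [IsFiniteMeasure ν] [IsFiniteMeasure lam]
    (hμ : μ (Set.Icc A B)ᶜ = 0) (hν : ν (Set.Icc A B)ᶜ = 0) (hlam : lam (Set.Icc A B)ᶜ = 0) (c1 : ℝ) (hc10 : 0 < c1)
    (hc11 : c1 ≤ 1) (δ p0 K1 : ℝ) (hδ : 0 < δ) (hp0 : 0 < p0) (hgood : Good μ ν lam (c1 / 2) δ p0 K1)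
    (Λ : Set ℝ) (hsep : ∀ x ∈ Λ, ∀ y ∈ Λ, x ≠ y → 1 ≤ |x - y|)
    (hthick : ∀ Y0 : ℝ, ∃ Y : ℝ, Y0 ≤ Y ∧ Real.exp ((Real.log Y) ^ c1) ≤ ((Λ ∩ Set.Ioc Y (2 * Y)).ncard : ℝ)) :
    ∀ᵐ α : ℝ, 0 < α → ∀ Y0 : ℝ, ∃ x ∈ Λ, Y0 ≤ x ∧ μ.real Set.univ - ν.real Set.univ + δ / 2 ≤ ff μ ν (α * x) ∧
      ∫ a, ratio a (α * x) ∂lam ≤ K1 + 1 := by
  classical
  set τ := μ.real Set.univ - ν.real Set.univ with hτ
  have hstep := (ff_step A B hA μ ν hμ hν (δ / 2) (by positivity)).and (lam_step A B hA lam hlam)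
  set E : ℕ → Set ℝ := fun n => {α | 0 < α ∧ ∀ x ∈ Λ, (n : ℝ) < x → ¬ (τ + δ / 2 ≤ ff μ ν (α * x) ∧
    ∫ a, ratio a (α * x) ∂lam ≤ K1 + 1)} with hE
  have hnull : ∀ n, volume (E n) = 0 := by
    intro n
    apply null_real (E n) (fun α hα => hα.1) ((p0 / 2) ^ 2 / 9) (by positivity)
    intro s t hs hst hts
    set j := t - s with hj
    have hj0 : 0 < j := by linarith
    set κ := j / (2 * s) with hκ
    have hκ0 : 0 < κ := by positivity
    obtain ⟨X1, hX1⟩ := eventually_atTop.1 ((hgood κ hκ0 (3 / j)).and hstep)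
    obtain ⟨Y1, hY1⟩ := eventually_atTop.1 ((ev_size (c1 / 2) c1 j (by positivity) (by linarith) (by linarith) hj0).and
      (Real.tendsto_log_atTop.eventually_ge_atTop (1 + Real.log (2 * s))))
    obtain ⟨Y, hYY, hcardY⟩ := hthick (max (max (max Y1 (X1 / s)) (max 3 (n : ℝ))) (max (6 / j) (3 / (κ * s))))
    have hYa : Y1 ≤ Y := ((le_max_left _ _).trans ((le_max_left _ _).trans (le_max_left _ _))).trans hYY
    have hYb : X1 / s ≤ Y := ((le_max_right _ _).trans ((le_max_left _ _).trans (le_max_left _ _))).trans hYY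
    have hYc : 3 ≤ Y := ((le_max_left _ _).trans ((le_max_right _ _).trans (le_max_left _ _))).trans hYY
    have hYd : (n : ℝ) ≤ Y := ((le_max_right _ _).trans ((le_max_right _ _).trans (le_max_left _ _))).trans hYY
    have hYe : 6 / j ≤ Y := ((le_max_left _ _).trans (le_max_right _ _)).trans hYY
    have hYf : 3 / (κ * s) ≤ Y := ((le_max_right _ _).trans (le_max_right _ _)).trans hYY
    obtain ⟨⟨hs1, hs2⟩, hs3⟩ := hY1 Y hYa
    set L := Real.log Y with hL
    have hY0 : 0 < Y := by linarith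
    have hL1 : 1 ≤ L := by
      rw [hL, Real.le_log_iff_exp_le hY0]
      have := Real.exp_one_lt_d9
      linarith
    rw [div_le_iff₀ hj0] at hYe
    rw [div_le_iff₀ (by positivity)] at hYf
    rw [div_le_iff₀ hs] at hYb
    -- the set
    have hfinT : (Λ ∩ Set.Ioc Y (2 * Y)).Finite := by
      apply Set.finite_of_ncard_pos
      have h1 := lt_of_lt_of_le (Real.exp_pos _) hcardY
      exact_mod_cast h1
    set T0 := hfinT.toFinset with hT0
    have hT0mem : ∀ x ∈ T0, x ∈ Λ ∧ Y < x ∧ x ≤ 2 * Y := by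
      intro x hx
      rw [hT0, Set.Finite.mem_toFinset] at hx
      exact ⟨hx.1, hx.2.1, hx.2.2⟩
    have hT0card : Real.exp (L ^ c1) ≤ T0.card := by
      rw [hT0, ← Set.ncard_eq_toFinset_card _ hfinT]
      exact hcardY
    obtain ⟨i, hi, hT1card⟩ := pigeon T0 Y Y hY0 4 (by norm_num) (fun x hx => by
      obtain ⟨_, h1, h2⟩ := hT0mem x hx
      constructor <;> linarith)
    set y1 := Y + i * (Y / (4 : ℕ)) with hy1
    set T1 := T0.filter (fun x => y1 ≤ x ∧ x ≤ Y + (i + 1) * (Y / (4 : ℕ))) with hT1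
    have hi4 : (i : ℝ) ≤ 3 := by
      have : i ≤ 3 := by omega
      exact_mod_cast this
    have hi0 : (0 : ℝ) ≤ i := Nat.cast_nonneg i
    have hYy1 : Y ≤ y1 := by rw [hy1]; have : 0 ≤ (i : ℝ) * (Y / (4 : ℕ)) := by positivity
                             linarith
    have hy12 : y1 ≤ 2 * Y := by
      rw [hy1]
      push_cast
      nlinarith
    have hT1mem : ∀ x ∈ T1, y1 ≤ x ∧ x ≤ y1 + Y / 4 := by
      intro x hx
      rw [hT1, mem_filter] at hx
      refine ⟨hx.2.1, hx.2.2.trans (le_of_eq ?_)⟩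
      rw [hy1]
      push_cast
      ring
    have hy10 : 0 < y1 := by linarith
    set X := s * y1 with hX
    have hX0 : 0 < X := by positivity
    have hXX1 : X1 ≤ X := by
      rw [hX]
      nlinarith
    obtain ⟨hg, hst2⟩ := hX1 X hXX1
    obtain ⟨Q, hQ1, hQK, hQe, hwin⟩ := hg
    have hQr : (1 : ℝ) ≤ Q := by exact_mod_cast hQ1
    have hQ0 : (0 : ℝ) < Q := by linarith
    have hlogX : Real.log X ≤ 2 * L := by
      calc Real.log X ≤ Real.log (2 * s * Y) := Real.log_le_log hX0 (by rw [hX]; nlinarith)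
        _ = Real.log (2 * s) + L := Real.log_mul (by positivity) hY0.ne'
        _ ≤ _ := by linarith
    have hQexp : (Q : ℝ) ≤ Real.exp ((2 * L) ^ (c1 / 2)) := by
      rcases le_or_gt 0 (Real.log X) with h0 | h0
      · refine hQe.trans (Real.exp_le_exp.2 ?_)
        exact Real.rpow_le_rpow h0 hlogX (by positivity)
      · refine hQe.trans (Real.exp_le_exp.2 ?_)
        -- `|x ^ y| ≤ |x| ^ y`, and `|log X|` is small
        have h1 : Real.log X ^ (c1 / 2) ≤ |Real.log X| ^ (c1 / 2) :=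
          (le_abs_self _).trans (Real.abs_rpow_le_abs_rpow _ _)
        refine h1.trans (Real.rpow_le_rpow (abs_nonneg _) ?_ (by positivity))
        rw [abs_of_neg h0]
        have h2 : Real.log X = Real.log s + Real.log y1 := by
          rw [hX, Real.log_mul hs.ne' hy10.ne']
        have h3 : L ≤ Real.log y1 := Real.log_le_log hY0 hYy1
        have h4 : -Real.log X ≤ 2 * L := by
          by_contra hcon
          push Not at hcon
          have h5 : X < 1 := by
            by_contra h6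
            push Not at h6
            have := Real.log_nonneg h6
            linarith
          -- `X ≥ 3 / κ` and `κ ≤ 1 / 4`
          have h6 : 3 ≤ κ * X := by
            rw [hX]
            calc (3 : ℝ) ≤ Y * (κ * s) := hYf
              _ ≤ y1 * (κ * s) := mul_le_mul_of_nonneg_right hYy1 (by positivity)
              _ = _ := by ring
          have h7 : κ ≤ 1 / 4 := by
            rw [hκ, div_le_iff₀ (by positivity)]
            linarith
          nlinarith
        exact h4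
    have hQ4 : 32 * (Q : ℝ) ^ 4 ≤ Real.exp (L ^ c1) := by
      refine le_trans ?_ hs1
      have : (Q : ℝ) ^ 4 ≤ (Real.exp ((2 * L) ^ (c1 / 2))) ^ 4 := pow_le_pow_left₀ hQ0.le hQexp 4
      rw [← Real.exp_nat_mul] at this
      push_cast at this
      linarith
    obtain ⟨i', hi', hT2card⟩ := pigeon T1 y1 (Y / 4) (by positivity) Q hQ1 hT1mem
    set y2 := y1 + i' * (Y / 4 / Q) with hy2
    set T2 := T1.filter (fun x => y2 ≤ x ∧ x ≤ y1 + (i' + 1) * (Y / 4 / Q)) with hT2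
    have hy12' : y1 ≤ y2 := by
      rw [hy2]
      have : 0 ≤ (i' : ℝ) * (Y / 4 / Q) := by positivity
      linarith
    have hT2mem : ∀ x ∈ T2, y2 ≤ x ∧ x ≤ y2 + y2 / Q := by
      intro x hx
      rw [hT2, mem_filter] at hx
      refine ⟨hx.2.1, hx.2.2.trans ?_⟩
      have e1 : y1 + (i' + 1) * (Y / 4 / Q) = y2 + (Y / 4) / Q := by rw [hy2]; ring
      rw [e1]
      have : (Y / 4) / Q ≤ y2 / Q := by
        apply div_le_div_of_nonneg_right _ hQ0.le
        linarith
      linarith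
    have hT2T1 : T2 ⊆ T1 := filter_subset _ _
    have hT1T0 : T1 ⊆ T0 := filter_subset _ _
    have hT2c : 8 * (Q : ℝ) ^ 3 ≤ T2.card := by
      have e1 : (T0.card : ℝ) ≤ 4 * T1.card := by exact_mod_cast hT1card
      have e2 : (T1.card : ℝ) ≤ Q * T2.card := by exact_mod_cast hT2card
      have e3 : 32 * (Q : ℝ) ^ 4 ≤ 4 * ((Q : ℝ) * (T2.card : ℝ)) := by linarith
      have e4 : (4 * (Q : ℝ)) * (8 * (Q : ℝ) ^ 3) ≤ (4 * (Q : ℝ)) * (T2.card : ℝ) := by
        calc (4 * (Q : ℝ)) * (8 * (Q : ℝ) ^ 3) = 32 * (Q : ℝ) ^ 4 := by ring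
          _ ≤ 4 * ((Q : ℝ) * (T2.card : ℝ)) := e3
          _ = _ := by ring
      exact le_of_mul_le_mul_left e4 (by positivity)
    set G : Finset ℕ := (Icc 1 ⌊3 * X⌋₊).filter (fun m : ℕ => Q ∣ m ∧ X ≤ m ∧ τ + δ ≤ ff μ ν m ∧
      ∫ a, ratio a m ∂lam ≤ K1) with hG
    have hκX : 2 * κ * X = j * y1 := by
      rw [hκ, hX]; field_simp
    have hκX3 : 3 ≤ κ * X := by
      rw [hX]
      calc (3 : ℝ) ≤ Y * (κ * s) := hYf
        _ ≤ y1 * (κ * s) := mul_le_mul_of_nonneg_right hYy1 (by positivity)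
        _ = _ := by ring
    have hcount : ∀ x ∈ T2, (p0 / 2) * (t - s) * x / Q ≤
        ((G.filter (fun m : ℕ => s * x ≤ m ∧ (m : ℝ) + 1 ≤ t * x)).card : ℝ) := by
      intro x hx
      obtain ⟨hx1, hx2⟩ := hT1mem x (hT2T1 hx)
      have hx0 : 0 < x := by linarith
      set N := ⌈s * x⌉₊ with hN
      set N' := ⌊t * x⌋₊ - 1 with hN'
      have hsx : s * x ≤ N := Nat.le_ceil _
      have hsx2 : (N : ℝ) < s * x + 1 := Nat.ceil_lt_add_one (by positivity)
      have hjx : j * y1 ≤ j * x := mul_le_mul_of_nonneg_left hx1 hj0.le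
      have hjxe : j * x = t * x - s * x := by rw [hj]; ring
      have htx1 : 1 ≤ ⌊t * x⌋₊ := by
        apply Nat.le_floor
        push_cast
        have : 0 < s * x := by positivity
        nlinarith
      have hN'c : (N' : ℝ) = ⌊t * x⌋₊ - 1 := by
        rw [hN']
        push_cast [Nat.cast_sub htx1]
        ring
      have ht0 : 0 < t := by linarith
      have htx : (⌊t * x⌋₊ : ℝ) ≤ t * x := Nat.floor_le (by positivity)
      have htx2 : t * x < ⌊t * x⌋₊ + 1 := Nat.lt_floor_add_one _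
      have hXN : X ≤ N := by
        refine le_trans ?_ hsx
        rw [hX]
        exact mul_le_mul_of_nonneg_left hx1 hs.le
      have hN'X : (N' : ℝ) ≤ 2 * X := by
        have e1 : t * x ≤ (3 / 2 * s) * (5 / 4 * y1) := by
          apply mul_le_mul hts (by linarith) hx0.le (by positivity)
        have e2 : (3 / 2 * s) * (5 / 4 * y1) = 15 / 8 * X := by rw [hX]; ring
        linarith
      have hNN' : N + κ * X ≤ N' := by
        rw [hN'c]
        linarith
      have hw := hwin N N' hXN hNN' hN'X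
      have hsub : (mult N N' Q).filter (fun m : ℕ => τ + δ ≤ ff μ ν m ∧ ∫ a, ratio a m ∂lam ≤ K1) ⊆
          G.filter (fun m : ℕ => s * x ≤ m ∧ (m : ℝ) + 1 ≤ t * x) := by
        intro m hm
        rw [mem_filter, mem_mult] at hm
        obtain ⟨⟨⟨h1, h2⟩, h3⟩, h4, h5⟩ := hm
        have h1' : (N : ℝ) < m := by exact_mod_cast h1
        have h2' : (m : ℝ) ≤ N' := by exact_mod_cast h2
        rw [mem_filter, hG, mem_filter, mem_Icc]
        refine ⟨⟨⟨by omega, Nat.le_floor (by linarith)⟩, h3, by linarith, h4, h5⟩, by linarith, ?_⟩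
        rw [hN'c] at h2'
        linarith
      have hle : (((mult N N' Q).filter (fun m : ℕ => τ + δ ≤ ff μ ν m ∧ ∫ a, ratio a m ∂lam ≤ K1)).card : ℝ) ≤
          ((G.filter (fun m : ℕ => s * x ≤ m ∧ (m : ℝ) + 1 ≤ t * x)).card : ℝ) := by exact_mod_cast card_le_card hsub
      refine le_trans ?_ (hw.trans hle)
      have e1 : (p0 / 2) * (t - s) * x / Q = p0 * ((j * x / 2) / Q) := by rw [hj]; ring
      rw [e1]
      apply mul_le_mul_of_nonneg_left _ hp0.le
      apply div_le_div_of_nonneg_right _ hQ0.le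
      rw [hN'c]
      have : 6 ≤ j * x := by
        calc (6 : ℝ) ≤ Y * j := hYe
          _ ≤ x * j := mul_le_mul_of_nonneg_right (by linarith) hj0.le
          _ = j * x := mul_comm _ _
      linarith
    have hcore := meas_core Q hQ1 G (fun m hm => by
        rw [hG, mem_filter] at hm
        exact hm.2.1) s t hst T2 y2 (by linarith) hT2mem (by
        intro x hx x' hx' hne'
        exact hsep x (hT0mem x (hT1T0 (hT2T1 hx))).1 x' (hT0mem x' (hT1T0 (hT2T1 hx'))).1 hne') hT2c (by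
        rw [div_le_iff₀ hj0] at hQK
        linarith) (by
        calc 2 * (Q : ℝ) ≤ 2 * Real.exp ((2 * L) ^ (c1 / 2)) := by linarith
          _ ≤ Y * j := hs2
          _ ≤ y2 * (t - s) := mul_le_mul_of_nonneg_right (by linarith) hj0.le) (p0 / 2) (by positivity) hcount
    refine ⟨⋃ x ∈ T2, AA G s t x, Finset.measurableSet_biUnion _ fun x _ => AA_meas G s t x, ?_, ?_, ?_⟩
    · intro α hα
      rw [Set.mem_iUnion₂] at hα
      obtain ⟨x, _, h1⟩ := hα
      unfold AA at h1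
      rw [Set.mem_iUnion₂] at h1
      obtain ⟨m, _, h2, _⟩ := h1
      exact h2
    · intro α hα hαE
      rw [Set.mem_iUnion₂] at hα
      obtain ⟨x, hx, h1⟩ := hα
      unfold AA at h1
      rw [Set.mem_iUnion₂] at h1
      obtain ⟨m, hm, h2, h3⟩ := h1
      obtain ⟨hxΛ, hxY, _⟩ := hT0mem x (hT1T0 (hT2T1 hx))
      have hx0 : 0 < x := by linarith
      rw [Set.mem_Ico, div_le_iff₀ hx0, lt_div_iff₀ hx0] at h3
      rw [hG, mem_filter] at hm
      obtain ⟨_, _, hm1, hm2, hm3⟩ := hm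
      apply hαE.2 x hxΛ (by linarith)
      have h5 := (abs_le.1 (hst2.1 m hm1 (α * x) h3.1 h3.2)).1
      have h6 := hst2.2 m hm1 (α * x) h3.1 h3.2
      constructor <;> linarith
    · have e1 : (p0 / 2) ^ 2 / 9 * (t - s) = (p0 / 2) ^ 2 * (t - s) / 9 := by ring
      rw [e1]
      exact hcore
  have hall : ∀ᵐ α : ℝ, ∀ n : ℕ, α ∉ E n := by
    rw [ae_all_iff]
    intro n
    exact measure_eq_zero_iff_ae_notMem.1 (hnull n)
  filter_upwards [hall] with α hα hα0 Y0
  by_contra hcon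
  push Not at hcon
  apply hα ⌈Y0⌉₊
  refine ⟨hα0, fun x hx hbx hc2 => ?_⟩
  have h1 := hcon x hx ((Nat.le_ceil Y0).trans hbx.le) hc2.1
  linarith [hc2.2]

end Pool.Agent.W5h22.DM
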