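import Pool.Agent.W5h22.DM.M

/-! Large values along generic dilates of an arbitrary unbounded set. -/

set_option autoImplicit false

open Finset Filter Topology MeasureTheory

namespace Pool.Agent.W5h22.DM

open Pool.Agent.H378R2 Pool.Agent.W5h22.JM Pool.Agent.H510R2.Maier

theorem res_core (A B : ℝ) (hA : 1 < A) (μ ν lam : Measure ℝ) [IsFiniteMeasure μ] [IsFiniteMeasure ν] [IsFiniteMeasure lam]
    (hμ : μ (Set.Icc A B)ᶜ = 0) (hν : ν (Set.Icc A B)ᶜ = 0) (hlam : lam (Set.Icc A B)ᶜ = 0) (ε0 : ℝ)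
    (δ p0 K1 : ℝ) (hδ : 0 < δ) (hp0 : 0 < p0) (hgood : Good μ ν lam ε0 δ p0 K1)
    (Λ : Set ℝ) (hunb : ∀ Y0 : ℝ, ∃ x ∈ Λ, Y0 ≤ x) :
    {α : ℝ | 0 < α → ∀ Y0 : ℝ, ∃ x ∈ Λ, Y0 ≤ x ∧ μ.real Set.univ - ν.real Set.univ + δ / 2 ≤ ff μ ν (α * x) ∧
      ∫ a, ratio a (α * x) ∂lam ≤ K1 + 1} ∈ residual ℝ := by
  classical
  set τ := μ.real Set.univ - ν.real Set.univ with hτ
  obtain ⟨X0, hX0⟩ := eventually_atTop.1 ((ff_step A B hA μ ν hμ hν (δ / 2) (by positivity)).and (lam_step A B hA lam hlam))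
  obtain ⟨hst1, hst2⟩ := hX0 X0 le_rfl
  set GG : Set ℕ := {m | X0 ≤ m ∧ τ + δ ≤ ff μ ν m ∧ ∫ a, ratio a m ∂lam ≤ K1} with hGG
  set U : ℕ → Set ℝ := fun n => Set.Iio 0 ∪ ⋃ x ∈ {x | x ∈ Λ ∧ (n : ℝ) < x}, ⋃ m ∈ GG,
    Set.Ioo ((m : ℝ) / x) (((m : ℝ) + 1) / x) with hU
  have hopen : ∀ n, IsOpen (U n) := by
    intro n
    exact isOpen_Iio.union (isOpen_biUnion fun x _ => isOpen_biUnion fun m _ => isOpen_Ioo)
  have hdense : ∀ n, Dense (U n) := by
    intro n
    apply dense_of_exists_between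
    intro a b hab
    rcases lt_or_ge a 0 with ha | ha
    · obtain ⟨z, hz1, hz2⟩ := exists_between (lt_min hab ha)
      exact ⟨z, Or.inl (lt_of_lt_of_le hz2 (min_le_right _ _)), hz1, lt_of_lt_of_le hz2 (min_le_left _ _)⟩
    · set s := (a + b) / 2 with hs
      have hs0 : 0 < s := by rw [hs]; linarith
      set t := min b (3 / 2 * s) with ht
      have hst : s < t := lt_min (by rw [hs]; linarith) (by linarith)
      have htb : t ≤ b := min_le_left _ _
      have hts : t ≤ 3 / 2 * s := min_le_right _ _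
      set κ := (t - s) / (2 * s) with hκ
      have hj0 : 0 < t - s := by linarith
      have hκ0 : 0 < κ := by positivity
      obtain ⟨X1, hX1⟩ := eventually_atTop.1 (hgood κ hκ0 1)
      obtain ⟨x, hxΛ, hx⟩ := hunb (max (max ((n : ℝ) + 1) (X1 / s)) (max (X0 / s) (6 / (t - s))))
      have hxa : (n : ℝ) + 1 ≤ x := ((le_max_left _ _).trans (le_max_left _ _)).trans hx
      have hxb : X1 / s ≤ x := ((le_max_right _ _).trans (le_max_left _ _)).trans hx
      have hxc : X0 / s ≤ x := ((le_max_left _ _).trans (le_max_right _ _)).trans hx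
      have hxd : 6 / (t - s) ≤ x := ((le_max_right _ _).trans (le_max_right _ _)).trans hx
      rw [div_le_iff₀ hs0] at hxb hxc
      rw [div_le_iff₀ hj0] at hxd
      have hx0 : 0 < x := by
        have : (0 : ℝ) ≤ n := Nat.cast_nonneg n
        linarith
      set X := s * x with hX
      have hX0' : 0 < X := by positivity
      obtain ⟨Q, hQ1, _, _, hwin⟩ := hX1 X (by rw [hX]; linarith)
      have hQ0 : (0 : ℝ) < Q := by exact_mod_cast hQ1
      set N := ⌈s * x⌉₊ with hN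
      set N' := ⌊t * x⌋₊ - 1 with hN'
      have hsx : s * x ≤ N := Nat.le_ceil _
      have hsx2 : (N : ℝ) < s * x + 1 := Nat.ceil_lt_add_one (by positivity)
      have hjxe : x * (t - s) = t * x - s * x := by ring
      have htx1 : 1 ≤ ⌊t * x⌋₊ := by
        apply Nat.le_floor
        push_cast
        have : 0 < s * x := by positivity
        linarith
      have hN'c : (N' : ℝ) = ⌊t * x⌋₊ - 1 := by
        rw [hN']
        push_cast [Nat.cast_sub htx1]
        ring
      have ht0 : 0 < t := by linarith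
      have htx : (⌊t * x⌋₊ : ℝ) ≤ t * x := Nat.floor_le (by positivity)
      have htx2 : t * x < ⌊t * x⌋₊ + 1 := Nat.lt_floor_add_one _
      have hκX : 2 * (κ * X) = x * (t - s) := by
        rw [hκ, hX]; field_simp
      have hNN' : N + κ * X ≤ N' := by
        rw [hN'c]
        linarith
      have hts' : t * x ≤ 3 / 2 * s * x := mul_le_mul_of_nonneg_right hts hx0.le
      have hN'X : (N' : ℝ) ≤ 2 * X := by
        rw [hX]
        linarith
      have hw := hwin N N' hsx hNN' hN'X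
      have hpos : 0 < (((mult N N' Q).filter (fun m : ℕ => τ + δ ≤ ff μ ν m ∧ ∫ a, ratio a m ∂lam ≤ K1)).card : ℝ) := by
        refine lt_of_lt_of_le ?_ hw
        have : 0 < (N' : ℝ) - N := by nlinarith
        positivity
      have hpos' : 0 < ((mult N N' Q).filter (fun m : ℕ => τ + δ ≤ ff μ ν m ∧ ∫ a, ratio a m ∂lam ≤ K1)).card := by
        exact_mod_cast hpos
      obtain ⟨m, hm⟩ := card_pos.1 hpos'
      rw [mem_filter, mem_mult] at hm
      obtain ⟨⟨⟨h1, h2⟩, _⟩, h4, h5⟩ := hm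
      have h1' : (N : ℝ) < m := by exact_mod_cast h1
      have h2' : (m : ℝ) ≤ N' := by exact_mod_cast h2
      rw [hN'c] at h2'
      have hmx : (m : ℝ) / x < ((m : ℝ) + 1) / x := div_lt_div_of_pos_right (by linarith) hx0
      obtain ⟨z, hz1, hz2⟩ := exists_between hmx
      refine ⟨z, Or.inr ?_, ?_, ?_⟩
      · rw [Set.mem_iUnion₂]
        refine ⟨x, ⟨hxΛ, by linarith⟩, ?_⟩
        rw [Set.mem_iUnion₂]
        exact ⟨m, ⟨by linarith, h4, h5⟩, hz1, hz2⟩
      · have : s ≤ m / x := by rw [le_div_iff₀ hx0]; linarith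
        have has : a < s := by rw [hs]; linarith
        linarith
      · have : ((m : ℝ) + 1) / x ≤ t := by rw [div_le_iff₀ hx0]; linarith
        linarith
  have hres : (⋂ n, U n) ∈ residual ℝ := by
    rw [countable_iInter_mem]
    exact fun n => residual_of_dense_open (hopen n) (hdense n)
  refine mem_of_superset hres ?_
  intro α hα hα0 Y0
  have h1 := Set.mem_iInter.1 hα ⌈Y0⌉₊
  rcases h1 with h1 | h1
  · exact absurd hα0 (not_lt.2 (le_of_lt h1))
  · rw [Set.mem_iUnion₂] at h1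
    obtain ⟨x, ⟨hxΛ, hxn⟩, h2⟩ := h1
    rw [Set.mem_iUnion₂] at h2
    obtain ⟨m, ⟨hm1, hm2, hm3⟩, h3, h4⟩ := h2
    have hx0 : 0 < x := by
      have : (0 : ℝ) ≤ ⌈Y0⌉₊ := Nat.cast_nonneg _
      linarith
    rw [div_lt_iff₀ hx0] at h3
    rw [lt_div_iff₀ hx0] at h4
    refine ⟨x, hxΛ, (Nat.le_ceil Y0).trans hxn.le, ?_, ?_⟩
    · have := (abs_le.1 (hst1 m hm1 (α * x) h3.le h4)).1
      linarith
    · have := hst2 m hm1 (α * x) h3.le h4
      linarith

end Pool.Agent.W5h22.DM
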