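import Pool.Agent.W5h22.DM.N
import Pool.Agent.W5h22.JM.M

/-! The convex hull form. -/

set_option autoImplicit false

open Finset Filter Topology MeasureTheory

namespace Pool.Agent.W5h22.DM

open Pool.Agent.H378R2 Pool.Agent.W5h22.JM Pool.Agent.H510R2.Maier

theorem hull_abs {m : ℕ} (F : Set (Fin m → ℝ)) (hfin : F.Finite) (hne : F.Nonempty) (δ0 : ℝ) (hδ0 : 0 < δ0)
    (hcov : ∀ γ : Fin m → ℝ, ∑ i, |γ i| = 1 → ∃ r ∈ F, ∑ i, γ i + δ0 ≤ ∑ i, γ i * r i) (w : Fin m → ℝ)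
    (hw : ∀ i, |w i - 1| ≤ δ0 / 2) : w ∈ convexHull ℝ F := by
  classical
  by_contra hwH
  have hclosed : IsClosed (convexHull ℝ F) := hfin.isClosed_convexHull (𝕜 := ℝ)
  obtain ⟨f, c, hf1, hf2⟩ := geometric_hahn_banach_closed_point (convex_convexHull ℝ _) hclosed hwH
  set β : Fin m → ℝ := fun i => f (Pi.single i 1) with hβ
  have hfβ : ∀ x : Fin m → ℝ, f x = ∑ i, x i * β i := by
    intro x
    have h1 : x = ∑ i, x i • (Pi.single i (1 : ℝ) : Fin m → ℝ) := by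
      ext j
      rw [Finset.sum_apply]
      simp [Pi.single_apply]
    conv_lhs => rw [h1]
    rw [map_sum]
    refine sum_congr rfl fun i _ => ?_
    rw [map_smul, smul_eq_mul]
  set S1 := ∑ i, |β i| with hS1
  have hS0 : 0 < S1 := by
    rcases (sum_nonneg fun i _ => abs_nonneg (β i) : 0 ≤ ∑ i, |β i|).lt_or_eq with h | h
    · exact h
    · exfalso
      have h1 : ∀ i, β i = 0 := by
        intro i
        have h2 := (Finset.sum_eq_zero_iff_of_nonneg (fun i _ => abs_nonneg (β i))).1 h.symm i (mem_univ i)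
        exact abs_eq_zero.1 h2
      have h3 : ∀ x : Fin m → ℝ, f x = 0 := by
        intro x
        rw [hfβ]
        exact sum_eq_zero fun i _ => by rw [h1 i, mul_zero]
      obtain ⟨r, hr⟩ := hne
      have h4 := hf1 r (subset_convexHull ℝ _ hr)
      rw [h3] at h4 hf2
      linarith
  set γ : Fin m → ℝ := fun i => β i / S1 with hγ
  have hγK : ∑ i, |γ i| = 1 := by
    simp only [hγ, abs_div, abs_of_pos hS0]
    rw [← sum_div, ← hS1, div_self hS0.ne']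
  have hγf : ∀ x : Fin m → ℝ, ∑ i, γ i * x i = f x / S1 := by
    intro x
    rw [hfβ, sum_div]
    exact sum_congr rfl fun i _ => by simp only [hγ]; ring
  obtain ⟨r, hr, h1⟩ := hcov γ hγK
  have h2 : ∑ i, γ i * r i < ∑ i, γ i * w i := by
    rw [hγf, hγf]
    exact div_lt_div_of_pos_right ((hf1 r (subset_convexHull ℝ _ hr)).trans hf2) hS0
  have h3 : ∑ i, γ i * w i ≤ ∑ i, γ i + δ0 / 2 := by
    have e1 : ∑ i, γ i * w i - ∑ i, γ i = ∑ i, γ i * (w i - 1) := by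
      rw [← sum_sub_distrib]; exact sum_congr rfl fun i _ => by ring
    have e2 : ∑ i, γ i * (w i - 1) ≤ ∑ i, |γ i| * (δ0 / 2) := by
      refine sum_le_sum fun i _ => ?_
      calc γ i * (w i - 1) ≤ |γ i * (w i - 1)| := le_abs_self _
        _ = |γ i| * |w i - 1| := abs_mul _ _
        _ ≤ _ := mul_le_mul_of_nonneg_left (hw i) (abs_nonneg _)
    rw [← sum_mul, hγK, one_mul] at e2
    linarith
  linarith

/-- positive and negative parts -/
def cp {m : ℕ} (γ : Fin m → ℝ) : Fin m → ℝ := fun i => max (γ i) 0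

theorem cp_nonneg {m : ℕ} (γ : Fin m → ℝ) (i : Fin m) : 0 ≤ cp γ i := le_max_right _ _

theorem cp_sub {m : ℕ} (γ : Fin m → ℝ) (i : Fin m) : cp γ i - cp (-γ) i = γ i := by
  simp only [cp, Pi.neg_apply]
  rcases le_total 0 (γ i) with h | h
  · rw [max_eq_left h, max_eq_right (by linarith)]; ring
  · rw [max_eq_right h, max_eq_left (by linarith)]; ring

theorem dm_null {m : ℕ} (a c : Fin m → ℝ) (A B : ℝ) (hA : ∀ i, A ≤ a i) (hB : ∀ i, a i ≤ B) :
    dm a c (Set.Icc A B)ᶜ = 0 := by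
  unfold dm
  rw [Measure.coe_finsetSum, Finset.sum_apply]
  apply sum_eq_zero
  intro i _
  rw [Measure.smul_apply, Measure.dirac_apply' _ measurableSet_Icc.compl, Set.indicator_of_notMem, smul_zero]
  exact fun h => h ⟨hA i, hB i⟩

theorem dm_ne {m : ℕ} (a : Fin m → ℝ) (hinj : Function.Injective a) (γ : Fin m → ℝ) (hγ : ∃ i, γ i ≠ 0) :
    dm a (cp γ) ≠ dm a (cp (-γ)) := by
  classical
  obtain ⟨i0, hi0⟩ := hγ
  intro h
  have h1 := congrArg (fun ρ : Measure ℝ => ∫ x, (if x = a i0 then (1 : ℝ) else 0) ∂ρ) h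
  rw [dm_int a (cp γ) (cp_nonneg γ), dm_int a (cp (-γ)) (cp_nonneg _)] at h1
  have h2 : ∀ c : Fin m → ℝ, ∑ i, c i * (if a i = a i0 then (1 : ℝ) else 0) = c i0 := by
    intro c
    rw [Finset.sum_eq_single i0]
    · simp
    · intro j _ hj
      rw [if_neg (fun h3 => hj (hinj h3)), mul_zero]
    · intro h3; exact absurd (mem_univ _) h3
  rw [h2, h2] at h1
  have h3 := cp_sub γ i0
  apply hi0
  linarith

theorem dm_ff {m : ℕ} (a : Fin m → ℝ) (γ : Fin m → ℝ) (x : ℝ) :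
    ff (dm a (cp γ)) (dm a (cp (-γ))) x = ∑ i, γ i * ratio (a i) x := by
  unfold ff
  rw [dm_int a (cp γ) (cp_nonneg γ), dm_int a (cp (-γ)) (cp_nonneg _), ← sum_sub_distrib]
  refine sum_congr rfl fun i _ => ?_
  rw [← sub_mul, cp_sub]

theorem dm_tau {m : ℕ} (a : Fin m → ℝ) (γ : Fin m → ℝ) :
    (dm a (cp γ)).real Set.univ - (dm a (cp (-γ))).real Set.univ = ∑ i, γ i := by
  rw [dm_univ a (cp γ) (cp_nonneg γ), dm_univ a (cp (-γ)) (cp_nonneg _), ← sum_sub_distrib]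
  exact sum_congr rfl fun i _ => cp_sub γ i

theorem dm_one {m : ℕ} (a : Fin m → ℝ) (x : ℝ) : ∫ b, ratio b x ∂(dm a (fun _ => 1)) = ∑ i, ratio (a i) x := by
  rw [dm_int a _ (fun _ => zero_le_one)]
  exact sum_congr rfl fun i _ => one_mul _

/-- large values in the direction `γ` -/
def PP1 {m : ℕ} (a : Fin m → ℝ) (Λ : Set ℝ) (δ K1 : ℝ) (γ : Fin m → ℝ) (α : ℝ) : Prop :=
  ∀ Y0 : ℝ, ∃ x ∈ Λ, Y0 ≤ x ∧ ∑ i, γ i + δ / 2 ≤ ∑ i, γ i * ratio (a i) (α * x) ∧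
      ∑ i, ratio (a i) (α * x) ≤ K1 + 1

theorem hull_dil {m : ℕ} (a : Fin m → ℝ) (ha : ∀ i, 1 < a i) (hinj : Function.Injective a) (c1 : ℝ) (hc10 : 0 < c1)
    (hc11 : c1 ≤ 1) :
    ∃ ρ : ℝ, 0 < ρ ∧ ∀ Λ : Set ℝ, (∀ Y0 : ℝ, ∃ x ∈ Λ, Y0 ≤ x) →
      ((∀ x ∈ Λ, ∀ y ∈ Λ, x ≠ y → 1 ≤ |x - y|) →
        (∀ Y0 : ℝ, ∃ Y : ℝ, Y0 ≤ Y ∧ Real.exp ((Real.log Y) ^ c1) ≤ ((Λ ∩ Set.Ioc Y (2 * Y)).ncard : ℝ)) →
        ∀ᵐ α : ℝ, 0 < α → ∀ Y0 : ℝ, ∀ w : Fin m → ℝ, (∀ i, |w i - 1| ≤ ρ) →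
          w ∈ convexHull ℝ {r : Fin m → ℝ | ∃ x ∈ Λ, Y0 ≤ x ∧ r = fun i => ratio (a i) (α * x)}) ∧
      (∀ᶠ α in residual ℝ, 0 < α → ∀ Y0 : ℝ, ∀ w : Fin m → ℝ, (∀ i, |w i - 1| ≤ ρ) →
          w ∈ convexHull ℝ {r : Fin m → ℝ | ∃ x ∈ Λ, Y0 ≤ x ∧ r = fun i => ratio (a i) (α * x)}) := by
  classical
  obtain ⟨A, hA1, hA⟩ : ∃ A : ℝ, 1 < A ∧ ∀ i, A ≤ a i := by
    rcases (univ : Finset (Fin m)).eq_empty_or_nonempty with h | h
    · exact ⟨2, by norm_num, fun i => absurd (mem_univ i) (by rw [h]; simp)⟩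
    · obtain ⟨j, _, hj⟩ := Finset.exists_min_image (univ : Finset (Fin m)) a h
      exact ⟨a j, ha j, fun i => hj i (mem_univ _)⟩
  obtain ⟨B, hB⟩ : ∃ B : ℝ, ∀ i, a i ≤ B := by
    obtain ⟨M, hM⟩ := (Set.finite_range a).bddAbove
    exact ⟨M, fun i => hM (Set.mem_range_self i)⟩
  set K : Set (Fin m → ℝ) := {α | ∑ i, |α i| = 1} with hK
  have hKne : ∀ α ∈ K, ∃ i, α i ≠ 0 := by
    intro α hα
    by_contra hcon
    push Not at hcon
    have : ∑ i, |α i| = 0 := sum_eq_zero fun i _ => by rw [hcon i, abs_zero]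
    rw [hK, Set.mem_ofPred_eq, this] at hα
    exact zero_ne_one hα
  have hKc : IsCompact K := by
    apply Metric.isCompact_of_isClosed_isBounded
    · exact isClosed_eq (by fun_prop) continuous_const
    · rw [isBounded_iff_forall_norm_le]
      refine ⟨1, fun α hα => ?_⟩
      rw [pi_norm_le_iff_of_nonneg zero_le_one]
      intro i
      rw [Real.norm_eq_abs]
      have h1 := Finset.single_le_sum (f := fun i => |α i|) (fun i _ => abs_nonneg _) (mem_univ i)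
      have h2 : ∑ i, |α i| = 1 := hα
      rw [h2] at h1
      exact h1
  choose! δ p0 K1 hδ hp0 hK1 hgood using fun γ (hγ : γ ∈ K) => good_prop A B hA1 (dm a (cp γ)) (dm a (cp (-γ))) (dm a (fun _ => 1))
    (dm_null a _ A B hA hB) (dm_null a _ A B hA hB) (dm_null a _ A B hA hB) (dm_ne a hinj γ (hKne γ hγ)) (c1 / 2) (by positivity)
  set U : (Fin m → ℝ) → Set (Fin m → ℝ) := fun α => {β | ∑ i, |β i - α i| < δ α / 4 / (K1 α + 2)} with hU
  obtain ⟨t, htK, htU⟩ := hKc.elim_nhds_subcover U (fun α hα => by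
    apply IsOpen.mem_nhds
    · exact isOpen_lt (by fun_prop) continuous_const
    · show ∑ i, |α i - α i| < δ α / 4 / (K1 α + 2)
      simp only [sub_self, abs_zero, sum_const_zero]
      have h1 := hδ α hα
      have h2 := hK1 α hα
      positivity)
  obtain ⟨δ0, hδ0, hδt⟩ : ∃ δ0 : ℝ, 0 < δ0 ∧ ∀ α ∈ t, δ0 ≤ δ α / 4 := by
    rcases t.eq_empty_or_nonempty with h | h
    · exact ⟨1, one_pos, fun α hα => by rw [h] at hα; simp at hα⟩
    · obtain ⟨β, hβ, hβm⟩ := Finset.exists_min_image t (fun α => δ α / 4) h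
      exact ⟨δ β / 4, by have := hδ β (htK β hβ); linarith, hβm⟩
  refine ⟨δ0 / 2, by positivity, fun Λ hunb => ?_⟩
  have hdet : ∀ α : ℝ, 0 < α → (∀ γ ∈ t, PP1 a Λ (δ γ) (K1 γ) γ α) → ∀ Y0 : ℝ, ∀ w : Fin m → ℝ, (∀ i, |w i - 1| ≤ δ0 / 2) →
          w ∈ convexHull ℝ {r : Fin m → ℝ | ∃ x ∈ Λ, Y0 ≤ x ∧ r = fun i => ratio (a i) (α * x)} := by
    intro α hα0 hα Y0 w hw
    choose! x hxΛ hxY' hx1 hx2 using fun γ (hγ : γ ∈ t) => hα γ hγ (max Y0 (1 / α))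
    have hxY : ∀ γ ∈ t, Y0 ≤ x γ := fun γ hγ => (le_max_left _ _).trans (hxY' γ hγ)
    have hxα : ∀ γ ∈ t, 1 ≤ α * x γ := by
      intro γ hγ
      have h1 := (le_max_right Y0 (1 / α)).trans (hxY' γ hγ)
      rw [div_le_iff₀ hα0] at h1
      linarith
    obtain ⟨x0, hx0, hx0Y⟩ := hunb Y0
    set F : Set (Fin m → ℝ) := insert (fun i => ratio (a i) (α * x0)) ((fun γ => (fun i => ratio (a i) (α * x γ) : Fin m → ℝ)) '' (t : Set (Fin m → ℝ))) with hF
    have hFfin : F.Finite := (t.finite_toSet.image _).insert _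
    have hFsub : F ⊆ {r : Fin m → ℝ | ∃ x ∈ Λ, Y0 ≤ x ∧ r = fun i => ratio (a i) (α * x)} := by
      intro r hr
      rcases Set.mem_insert_iff.1 hr with h | ⟨γ, hγ, rfl⟩
      · exact ⟨x0, hx0, hx0Y, h⟩
      · exact ⟨x γ, hxΛ γ hγ, hxY γ hγ, rfl⟩
    refine convexHull_mono hFsub (hull_abs F hFfin ⟨_, Set.mem_insert _ _⟩ δ0 hδ0 ?_ w hw)
    intro β hβ
    obtain ⟨γ, hγ, hγU⟩ := Set.mem_iUnion₂.1 (htU hβ)
    have hγU' : ∑ i, |β i - γ i| < δ γ / 4 / (K1 γ + 2) := hγU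
    refine ⟨fun i => ratio (a i) (α * x γ), Set.mem_insert_of_mem _ ⟨γ, hγ, rfl⟩, ?_⟩
    have h1 := hx1 γ hγ
    have h2 := hx2 γ hγ
    have hr0 : ∀ i, 0 ≤ ratio (a i) (α * x γ) := by
      intro i
      unfold ratio
      have hlog : 0 ≤ Real.log (α * x γ) := Real.log_nonneg (hxα γ hγ)
      have hpow : 0 ≤ Real.log (α * x γ) ^ a i := Real.rpow_nonneg hlog _
      have hmono : Nat.primeCounting ⌊α * x γ⌋₊ ≤ Nat.primeCounting ⌊α * x γ + Real.log (α * x γ) ^ a i⌋₊ :=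
        Nat.monotone_primeCounting (Nat.floor_le_floor (by linarith))
      have hmono' : (Nat.primeCounting ⌊α * x γ⌋₊ : ℝ) ≤ Nat.primeCounting ⌊α * x γ + Real.log (α * x γ) ^ a i⌋₊ := by
        exact_mod_cast hmono
      exact mul_nonneg (div_nonneg hlog hpow) (by linarith)
    have hK1' := hK1 γ (htK γ hγ)
    have hδ' := hδ γ (htK γ hγ)
    have hri : ∀ i, |ratio (a i) (α * x γ) - 1| ≤ K1 γ + 2 := by
      intro i
      have h3 := Finset.single_le_sum (f := fun i => ratio (a i) (α * x γ)) (fun i _ => hr0 i) (mem_univ i)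
      have h4 := h3.trans h2
      rw [abs_le]
      constructor <;> linarith [hr0 i]
    have h3 : ∑ i, γ i * (ratio (a i) (α * x γ) - 1) - ∑ i, β i * (ratio (a i) (α * x γ) - 1) ≤ δ γ / 4 := by
      calc ∑ i, γ i * (ratio (a i) (α * x γ) - 1) - ∑ i, β i * (ratio (a i) (α * x γ) - 1)
          ≤ ∑ i, |β i - γ i| * (K1 γ + 2) := by
            rw [← sum_sub_distrib]
            refine sum_le_sum fun i _ => ?_
            calc γ i * (ratio (a i) (α * x γ) - 1) - β i * (ratio (a i) (α * x γ) - 1)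
                = -((β i - γ i) * (ratio (a i) (α * x γ) - 1)) := by ring
              _ ≤ |-((β i - γ i) * (ratio (a i) (α * x γ) - 1))| := le_abs_self _
              _ = |β i - γ i| * |ratio (a i) (α * x γ) - 1| := by rw [abs_neg, abs_mul]
              _ ≤ _ := mul_le_mul_of_nonneg_left (hri i) (abs_nonneg _)
        _ = (∑ i, |β i - γ i|) * (K1 γ + 2) := (sum_mul _ _ _).symm
        _ ≤ δ γ / 4 / (K1 γ + 2) * (K1 γ + 2) := mul_le_mul_of_nonneg_right hγU'.le (by linarith)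
        _ = δ γ / 4 := by field_simp
    have h6 : ∀ κ : Fin m → ℝ, ∑ i, κ i * (ratio (a i) (α * x γ) - 1) = ∑ i, κ i * ratio (a i) (α * x γ) - ∑ i, κ i := by
      intro κ
      rw [← sum_sub_distrib]; exact sum_congr rfl fun i _ => by ring
    rw [h6, h6] at h3
    have h7 := hδt γ hγ
    linarith
  constructor
  · intro hsep hthick
    have h1 : ∀ᵐ α : ℝ, ∀ γ ∈ t, 0 < α → PP1 a Λ (δ γ) (K1 γ) γ α := by
      rw [Filter.eventually_all_finset]
      intro γ hγ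
      have hγK := htK γ hγ
      have h2 := ae_core A B hA1 (dm a (cp γ)) (dm a (cp (-γ))) (dm a (fun _ => 1))
        (dm_null a _ A B hA hB) (dm_null a _ A B hA hB) (dm_null a _ A B hA hB) c1 hc10 hc11 (δ γ) (p0 γ) (K1 γ) (hδ γ hγK)
        (hp0 γ hγK) (hgood γ hγK) Λ hsep hthick
      filter_upwards [h2] with α hα hα0 Y0
      obtain ⟨x, hx1, hx2, hx3, hx4⟩ := hα hα0 Y0
      rw [dm_tau, dm_ff] at hx3
      rw [dm_one] at hx4
      exact ⟨x, hx1, hx2, hx3, hx4⟩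
    filter_upwards [h1] with α hα hα0
    exact hdet α hα0 fun γ hγ => hα γ hγ hα0
  · have h1 : ∀ᶠ α in residual ℝ, ∀ γ ∈ t, 0 < α → PP1 a Λ (δ γ) (K1 γ) γ α := by
      rw [Filter.eventually_all_finset]
      intro γ hγ
      have hγK := htK γ hγ
      have h2 := res_core A B hA1 (dm a (cp γ)) (dm a (cp (-γ))) (dm a (fun _ => 1))
        (dm_null a _ A B hA hB) (dm_null a _ A B hA hB) (dm_null a _ A B hA hB) (c1 / 2) (δ γ) (p0 γ) (K1 γ) (hδ γ hγK)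
        (hp0 γ hγK) (hgood γ hγK) Λ hunb
      filter_upwards [h2] with α hα hα0 Y0
      obtain ⟨x, hx1, hx2, hx3, hx4⟩ := hα hα0 Y0
      rw [dm_tau, dm_ff] at hx3
      rw [dm_one] at hx4
      exact ⟨x, hx1, hx2, hx3, hx4⟩
    filter_upwards [h1] with α hα hα0
    exact hdet α hα0 fun γ hγ => hα γ hγ hα0

end Pool.Agent.W5h22.DM
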