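import Pool.Agent.W5h22.DM.O

/-! Oscillation along dilates: the final statements. -/

set_option autoImplicit false

open Finset Filter Topology MeasureTheory

namespace Pool.Agent.W5h22.DM

open Pool.Agent.H378R2 Pool.Agent.W5h22.JM Pool.Agent.H510R2.Maier

/-- `Λ` is `1`-separated and has at least `exp ((log Y) ^ c)` elements in `(Y, 2 Y]` for arbitrarily large `Y` -/
def Thick (c : ℝ) (Λ : Set ℝ) : Prop :=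
  (∀ x ∈ Λ, ∀ y ∈ Λ, x ≠ y → 1 ≤ |x - y|) ∧
  ∀ Y0 : ℝ, ∃ Y : ℝ, Y0 ≤ Y ∧ Real.exp ((Real.log Y) ^ c) ≤ ((Λ ∩ Set.Ioc Y (2 * Y)).ncard : ℝ)

theorem Thick.unb {c : ℝ} {Λ : Set ℝ} (h : Thick c Λ) : ∀ Y0 : ℝ, ∃ x ∈ Λ, Y0 ≤ x := by
  intro Y0
  obtain ⟨Y, h1, h2⟩ := h.2 Y0
  have h3 : 0 < ((Λ ∩ Set.Ioc Y (2 * Y)).ncard : ℝ) := lt_of_lt_of_le (Real.exp_pos _) h2
  have h4 : 0 < (Λ ∩ Set.Ioc Y (2 * Y)).ncard := by exact_mod_cast h3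
  obtain ⟨x, hx⟩ := Set.nonempty_of_ncard_ne_zero h4.ne'
  exact ⟨x, hx.1, h1.trans hx.2.1.le⟩

theorem Thick.mono {c c' : ℝ} (hcc : c' ≤ c) {Λ : Set ℝ} (h : Thick c Λ) : Thick c' Λ := by
  refine ⟨h.1, fun Y0 => ?_⟩
  obtain ⟨Y, h1, h2⟩ := h.2 (max Y0 (Real.exp 1))
  refine ⟨Y, (le_max_left _ _).trans h1, le_trans (Real.exp_le_exp.2 ?_) h2⟩
  apply Real.rpow_le_rpow_of_exponent_le _ hcc
  rw [Real.le_log_iff_exp_le ((Real.exp_pos 1).trans_le ((le_max_right _ _).trans h1))]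
  exact (le_max_right _ _).trans h1

theorem main_meas (A B : ℝ) (hA : 1 < A) (μ ν : Measure ℝ) [IsFiniteMeasure μ] [IsFiniteMeasure ν]
    (hμ : μ (Set.Icc A B)ᶜ = 0) (hν : ν (Set.Icc A B)ᶜ = 0) (hne : μ ≠ ν) (c : ℝ) (hc : 0 < c) :
    ∃ δ : ℝ, 0 < δ ∧ ∀ Λ : Set ℝ,
      (Thick c Λ → ∀ᵐ α : ℝ, 0 < α → ∀ Y0 : ℝ, ∃ x ∈ Λ, Y0 ≤ x ∧
        μ.real Set.univ - ν.real Set.univ + δ ≤ ff μ ν (α * x)) ∧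
      ((∀ Y0 : ℝ, ∃ x ∈ Λ, Y0 ≤ x) → ∀ᶠ α in residual ℝ, 0 < α → ∀ Y0 : ℝ, ∃ x ∈ Λ, Y0 ≤ x ∧
        μ.real Set.univ - ν.real Set.univ + δ ≤ ff μ ν (α * x)) := by
  set c1 := min c 1 with hc1
  have hc10 : 0 < c1 := by rw [hc1]; positivity
  have hc11 : c1 ≤ 1 := min_le_right _ _
  have hc1c : c1 ≤ c := min_le_left _ _
  obtain ⟨δ, p0, K1, hδ, hp0, _, hgood⟩ := good_prop A B hA μ ν 0 hμ hν (by simp) hne (c1 / 2) (by positivity)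
  refine ⟨δ / 2, by positivity, fun Λ => ⟨fun h => ?_, fun hunb => ?_⟩⟩
  · have h' := h.mono hc1c
    have h2 := ae_core A B hA μ ν 0 hμ hν (by simp) c1 hc10 hc11 δ p0 K1 hδ hp0 hgood Λ h'.1 h'.2
    filter_upwards [h2] with α hα hα0 Y0
    obtain ⟨x, hx1, hx2, hx3, _⟩ := hα hα0 Y0
    exact ⟨x, hx1, hx2, hx3⟩
  · have h2 := res_core A B hA μ ν 0 hμ hν (by simp) (c1 / 2) δ p0 K1 hδ hp0 hgood Λ hunb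
    filter_upwards [h2] with α hα hα0 Y0
    obtain ⟨x, hx1, hx2, hx3, _⟩ := hα hα0 Y0
    exact ⟨x, hx1, hx2, hx3⟩

theorem main_hull {m : ℕ} (a : Fin m → ℝ) (ha : ∀ i, 1 < a i) (hinj : Function.Injective a) (c : ℝ) (hc : 0 < c) :
    ∃ ρ : ℝ, 0 < ρ ∧ ∀ Λ : Set ℝ,
      (Thick c Λ → ∀ᵐ α : ℝ, 0 < α → ∀ Y0 : ℝ, ∀ w : Fin m → ℝ, (∀ i, |w i - 1| ≤ ρ) →
        w ∈ convexHull ℝ {r : Fin m → ℝ | ∃ x ∈ Λ, Y0 ≤ x ∧ r = fun i => ratio (a i) (α * x)}) ∧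
      ((∀ Y0 : ℝ, ∃ x ∈ Λ, Y0 ≤ x) → ∀ᶠ α in residual ℝ, 0 < α → ∀ Y0 : ℝ, ∀ w : Fin m → ℝ, (∀ i, |w i - 1| ≤ ρ) →
        w ∈ convexHull ℝ {r : Fin m → ℝ | ∃ x ∈ Λ, Y0 ≤ x ∧ r = fun i => ratio (a i) (α * x)}) := by
  set c1 := min c 1 with hc1
  have hc10 : 0 < c1 := by rw [hc1]; positivity
  have hc11 : c1 ≤ 1 := min_le_right _ _
  have hc1c : c1 ≤ c := min_le_left _ _
  obtain ⟨ρ, hρ, h⟩ := hull_dil a ha hinj c1 hc10 hc11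
  refine ⟨ρ, hρ, fun Λ => ⟨fun hT => ?_, fun hunb => (h Λ hunb).2⟩⟩
  have hT' := hT.mono hc1c
  exact (h Λ hT.unb).1 hT'.1 hT'.2

end Pool.Agent.W5h22.DM
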